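import Pool.Agent.AESP.Defs

/-!
# Spanning trees in expanding tournaments: the last tree is absorbed
-/

set_option autoImplicit false

namespace AESP

open Finset AE15 AED AELT AEX AESK
open scoped Classical

variable {V : Type} {R : V → V → Prop}

/-- the state of the holes: the holes outside of `F` are filled as at the beginning -/
def AbsInv (R : V → V → Prop) (X : Finset V) (k : Kind) (D : ℕ → Dat V) (M : ℕ) (F : Finset ℕ) (g : ℕ → V) : Prop :=
  (∀ i < M, i ∉ F → g i = yv (D i)) ∧ (∀ i < M, Cnd R k (D i) (g i)) ∧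
    (∀ i < M, ∀ j < M, g i = g j → i = j) ∧ ∀ i < M, g i ∈ X

/-- a free vertex is exchanged for a free vertex of level `0` -/
theorem abs_one {X : Finset V} {K₀ M : ℕ} {k : Kind} {D : ℕ → Dat V} {lev : V → ℕ} {h : V}
    (hlev : ∀ x ∈ X, x ≠ h → 0 < lev x →
      K₀ < ((range M).filter (fun i => Cnd R k (D i) x ∧ lev (yv (D i)) < lev x)).card) :
    ∀ (m : ℕ) (F : Finset ℕ) (g : ℕ → V) (u : V), lev u ≤ m → F.card + m ≤ K₀ → AbsInv R X k D M F g → u ∈ X → u ≠ h →
      (∀ i < M, g i ≠ u) → (∀ i < M, g i ≠ h) → ∃ (x : V) (g' : ℕ → V) (F' : Finset ℕ), F'.card ≤ F.card + m ∧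
        AbsInv R X k D M F' g' ∧ x ∈ X ∧ x ≠ h ∧ lev x = 0 ∧ (∀ i < M, g' i ≠ x) ∧ (∀ i < M, g' i ≠ h) ∧
        insert x ((range M).image g') = insert u ((range M).image g) := by
  intro m
  induction m with
  | zero =>
    intro F g u hu _ hI huX huh hgu hgh
    exact ⟨u, g, F, le_rfl, hI, huX, huh, Nat.le_zero.1 hu, hgu, hgh, rfl⟩
  | succ m ih =>
    intro F g u hu hF hI huX huh hgu hgh
    rcases Nat.eq_zero_or_pos (lev u) with h0 | h0
    · exact ⟨u, g, F, Nat.le_add_right _ _, hI, huX, huh, h0, hgu, hgh, rfl⟩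
    · have h1 := hlev u huX huh h0
      have h2 : F.card < ((range M).filter (fun i => Cnd R k (D i) u ∧ lev (yv (D i)) < lev u)).card := by omega
      obtain ⟨i, hi, hiF⟩ := exists_mem_notMem_of_card_lt_card h2
      rw [mem_filter, mem_range] at hi
      obtain ⟨hiM, hiC, hil⟩ := hi
      obtain ⟨I1, I2, I3, I4⟩ := hI
      have hgi : g i = yv (D i) := I1 i hiM hiF
      have hcF : (insert i F).card ≤ F.card + 1 := card_insert_le _ _
      have hupd : ∀ j, j ≠ i → Function.update g i u j = g j := fun j hj => Function.update_of_ne hj _ _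
      have hupi : Function.update g i u i = u := Function.update_self _ _ _
      have hI' : AbsInv R X k D M (insert i F) (Function.update g i u) := by
        refine ⟨?_, ?_, ?_, ?_⟩
        · intro j hj hjF
          rw [mem_insert, not_or] at hjF
          rw [hupd j hjF.1]
          exact I1 j hj hjF.2
        · intro j hj
          by_cases hji : j = i
          · subst hji
            rw [hupi]
            exact hiC
          · rw [hupd j hji]
            exact I2 j hj
        · intro a ha b hb hab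
          by_cases hai : a = i
          · by_cases hbi : b = i
            · rw [hai, hbi]
            · rw [hai, hupi, hupd b hbi] at hab
              exact (hgu b hb hab.symm).elim
          · by_cases hbi : b = i
            · rw [hbi, hupi, hupd a hai] at hab
              exact (hgu a ha hab).elim
            · rw [hupd a hai, hupd b hbi] at hab
              exact I3 a ha b hb hab
        · intro j hj
          by_cases hji : j = i
          · subst hji
            rw [hupi]
            exact huX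
          · rw [hupd j hji]
            exact I4 j hj
      obtain ⟨x, g', F', c1, c2, c3, c4, c5, c6, c7, c8⟩ := ih (insert i F) (Function.update g i u) (g i)
        (by rw [hgi]; omega) (by omega) hI' (I4 i hiM) (hgh i hiM)
        (by
          intro j hj
          by_cases hji : j = i
          · subst hji
            rw [hupi]
            exact (hgu j hj).symm
          · rw [hupd j hji]
            exact fun e => hji (I3 j hj i hiM e))
        (by
          intro j hj
          by_cases hji : j = i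
          · subst hji
            rw [hupi]
            exact huh
          · rw [hupd j hji]
            exact hgh j hj)
      refine ⟨x, g', F', by omega, c2, c3, c4, c5, c6, c7, c8.trans ?_⟩
      ext v
      rw [mem_insert, mem_insert, mem_image, mem_image]
      constructor
      · rintro (rfl | ⟨j, hj, rfl⟩)
        · exact Or.inr ⟨i, mem_range.2 hiM, rfl⟩
        · by_cases hji : j = i
          · subst hji
            exact Or.inl hupi
          · exact Or.inr ⟨j, hj, (hupd j hji).symm⟩
      · rintro (rfl | ⟨j, hj, rfl⟩)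
        · exact Or.inr ⟨i, mem_range.2 hiM, hupi⟩
        · by_cases hji : j = i
          · subst hji
            exact Or.inl rfl
          · exact Or.inr ⟨j, hj, hupd j hji⟩

/-- a forest is absorbed -/
theorem abs_fd {X : Finset V} {J K₀ M : ℕ} {k : Kind} {D : ℕ → Dat V} (hR : RichS R X k J K₀ M D) (c : Fd) :
    ∀ (h : V) (F : Finset ℕ) (g : ℕ → V) (U : Finset V), F.card + J * c.size ≤ K₀ → U.card = c.size → h ∈ X → h ∉ U →
      (∀ i < M, g i ≠ h) → U ⊆ X → (∀ i < M, g i ∉ U) → AbsInv R X k D M F g →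
      ∃ (A : Finset V) (g' : ℕ → V) (F' : Finset ℕ), Emb R c h A ∧ F'.card ≤ F.card + J * c.size ∧
        AbsInv R X k D M F' g' ∧ (∀ i < M, g' i ∉ A) ∧ A ∪ (range M).image g' = U ∪ (range M).image g := by
  induction c with
  | nil =>
    intro h F g U _ hUc _ _ _ _ _ hI
    have hU : U = ∅ := card_eq_zero.1 hUc
    exact ⟨∅, g, F, rfl, Nat.le_add_right _ _, hI, fun i _ => notMem_empty _, by rw [hU]⟩
  | node d c s ihc ihs =>
    intro h F g U hK hUc hh hhU hgh hU hgU hI
    have hsz : (Fd.node d c s).size = c.size + s.size + 1 := rfl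
    rw [hsz] at hK hUc
    have hmul : J * (c.size + s.size + 1) = J * c.size + J * s.size + J := by ring
    rw [hmul] at hK
    obtain ⟨u, hu⟩ : U.Nonempty := by
      rw [← card_pos]
      omega
    obtain ⟨lev, l1, l2, l3⟩ := hR h hh d
    have huh : u ≠ h := fun e => hhU (e ▸ hu)
    obtain ⟨x, g₁, F₁, a1, a2, a3, a4, a5, a6, a7, a8⟩ := abs_one l3 J F g u (l1 u) (by omega) hI (hU hu) huh
      (fun i hi e => hgU i hi (e ▸ hu)) hgh
    have hadj : Adj R d h x := l2 x a3 a4 a5
    -- the other free vertices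
    have hUe : (U.erase u).card = c.size + s.size := by
      rw [card_erase_of_mem hu]
      omega
    obtain ⟨Uc, hUc1, hUc2⟩ := exists_subset_card_eq (by omega : c.size ≤ (U.erase u).card)
    obtain ⟨Us, hUs⟩ : ∃ Us, Us = U.erase u \ Uc := ⟨_, rfl⟩
    have hUsc : Us.card = s.size := by
      rw [hUs, card_sdiff_of_subset hUc1]
      omega
    have mUc : ∀ v ∈ Uc, v ∈ U ∧ v ≠ u := fun v hv => ⟨mem_of_mem_erase (hUc1 hv), ne_of_mem_erase (hUc1 hv)⟩
    have mUs : ∀ v ∈ Us, v ∈ U ∧ v ≠ u ∧ v ∉ Uc := fun v hv => by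
      rw [hUs, mem_sdiff] at hv
      exact ⟨mem_of_mem_erase hv.1, ne_of_mem_erase hv.1, hv.2⟩
    have mU : ∀ v ∈ U, v = u ∨ v ∈ Uc ∨ v ∈ Us := fun v hv => by
      by_cases h1 : v = u
      · exact Or.inl h1
      · by_cases h2 : v ∈ Uc
        · exact Or.inr (Or.inl h2)
        · refine Or.inr (Or.inr ?_)
          rw [hUs, mem_sdiff]
          exact ⟨mem_erase.2 ⟨h1, hv⟩, h2⟩
    -- `x` and the values of `g₁` are `u` or old values of `g`
    have hx0 : x = u ∨ ∃ i < M, g i = x := by
      have h1 : x ∈ insert u ((range M).image g) := a8 ▸ mem_insert_self _ _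
      rw [mem_insert, mem_image] at h1
      rcases h1 with h1 | ⟨i, hi, h1⟩
      · exact Or.inl h1
      · exact Or.inr ⟨i, mem_range.1 hi, h1⟩
    have hg1 : ∀ i < M, g₁ i = u ∨ ∃ j < M, g j = g₁ i := by
      intro i hi
      have h1 : g₁ i ∈ insert u ((range M).image g) :=
        a8 ▸ mem_insert_of_mem (mem_image_of_mem _ (mem_range.2 hi))
      rw [mem_insert, mem_image] at h1
      rcases h1 with h1 | ⟨j, hj, h1⟩
      · exact Or.inl h1
      · exact Or.inr ⟨j, mem_range.1 hj, h1⟩
    have hxU : ∀ v ∈ U, v ≠ u → x ≠ v := by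
      intro v hv hvu e
      rcases hx0 with h1 | ⟨i, hi, h1⟩
      · exact hvu (e ▸ h1)
      · exact hgU i hi (by rw [h1, e]; exact hv)
    have hg1U : ∀ i < M, ∀ v ∈ U, v ≠ u → g₁ i ≠ v := by
      intro i hi v hv hvu e
      rcases hg1 i hi with h1 | ⟨j, hj, h1⟩
      · exact hvu (e ▸ h1)
      · exact hgU j hj (by rw [h1, e]; exact hv)
    obtain ⟨A₁, g₂, F₂, b1, b2, b3, b4, b5⟩ := ihc x F₁ g₁ Uc (by omega) hUc2 a3
      (fun hv => hxU x (mUc x hv).1 (mUc x hv).2 rfl) a6 (fun v hv => hU (mUc v hv).1)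
      (fun i hi hv => hg1U i hi _ (mUc _ hv).1 (mUc _ hv).2 rfl) a2
    have hA1 : ∀ v ∈ A₁, v ∈ Uc ∨ ∃ j < M, g₁ j = v := by
      intro v hv
      have h1 : v ∈ Uc ∪ (range M).image g₁ := b5 ▸ mem_union_left _ hv
      rw [mem_union, mem_image] at h1
      rcases h1 with h1 | ⟨j, hj, h1⟩
      · exact Or.inl h1
      · exact Or.inr ⟨j, mem_range.1 hj, h1⟩
    have hg2 : ∀ i < M, g₂ i ∈ Uc ∨ ∃ j < M, g₁ j = g₂ i := by
      intro i hi
      have h1 : g₂ i ∈ Uc ∪ (range M).image g₁ :=
        b5 ▸ mem_union_right _ (mem_image_of_mem _ (mem_range.2 hi))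
      rw [mem_union, mem_image] at h1
      rcases h1 with h1 | ⟨j, hj, h1⟩
      · exact Or.inl h1
      · exact Or.inr ⟨j, mem_range.1 hj, h1⟩
    have hg2Us : ∀ i < M, g₂ i ∉ Us := by
      intro i hi hv
      obtain ⟨v1, v2, v3⟩ := mUs _ hv
      rcases hg2 i hi with h1 | ⟨j, hj, h1⟩
      · exact v3 h1
      · exact hg1U j hj _ v1 v2 h1
    have hg2h : ∀ i < M, g₂ i ≠ h := by
      intro i hi e
      rcases hg2 i hi with h1 | ⟨j, hj, h1⟩
      · exact hhU (e ▸ (mUc _ h1).1)
      · exact a7 j hj (h1.trans e)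
    obtain ⟨A₂, g₃, F₃, d1, d2, d3, d4, d5⟩ := ihs h F₂ g₂ Us (by omega) hUsc hh
      (fun hv => hhU (mUs h hv).1) hg2h (fun v hv => hU (mUs v hv).1) hg2Us b3
    have hA2 : ∀ v ∈ A₂, v ∈ Us ∨ ∃ j < M, g₂ j = v := by
      intro v hv
      have h1 : v ∈ Us ∪ (range M).image g₂ := d5 ▸ mem_union_left _ hv
      rw [mem_union, mem_image] at h1
      rcases h1 with h1 | ⟨j, hj, h1⟩
      · exact Or.inl h1
      · exact Or.inr ⟨j, mem_range.1 hj, h1⟩
    have hg3 : ∀ i < M, g₃ i ∈ Us ∨ ∃ j < M, g₂ j = g₃ i := by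
      intro i hi
      have h1 : g₃ i ∈ Us ∪ (range M).image g₂ :=
        d5 ▸ mem_union_right _ (mem_image_of_mem _ (mem_range.2 hi))
      rw [mem_union, mem_image] at h1
      rcases h1 with h1 | ⟨j, hj, h1⟩
      · exact Or.inl h1
      · exact Or.inr ⟨j, mem_range.1 hj, h1⟩
    have hg2x : ∀ i < M, g₂ i ≠ x := by
      intro i hi e
      rcases hg2 i hi with h1 | ⟨j, hj, h1⟩
      · exact hxU _ (mUc _ h1).1 (mUc _ h1).2 e.symm
      · exact a6 j hj (h1.trans e)
    have hxA1 : x ∉ A₁ := by
      intro hv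
      rcases hA1 x hv with h1 | ⟨j, hj, h1⟩
      · exact hxU _ (mUc _ h1).1 (mUc _ h1).2 rfl
      · exact a6 j hj h1
    have hxA2 : x ∉ A₂ := by
      intro hv
      rcases hA2 x hv with h1 | ⟨j, hj, h1⟩
      · exact hxU _ (mUs _ h1).1 (mUs _ h1).2.1 rfl
      · exact hg2x j hj h1
    have hA1Us : ∀ v ∈ A₁, v ∉ Us := by
      intro v hv hv2
      obtain ⟨v1, v2, v3⟩ := mUs _ hv2
      rcases hA1 v hv with h1 | ⟨j, hj, h1⟩
      · exact v3 h1
      · exact hg1U j hj _ v1 v2 h1
    have hdis : Disjoint A₁ A₂ := by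
      rw [disjoint_left]
      intro v hv hv2
      rcases hA2 v hv2 with h1 | ⟨j, hj, h1⟩
      · exact hA1Us v hv h1
      · exact b4 j hj (h1 ▸ hv)
    refine ⟨insert x (A₁ ∪ A₂), g₃, F₃, ⟨x, A₁, A₂, hadj, hxA1, hxA2, hdis, rfl, b1, d1⟩, ?_, d3, ?_, ?_⟩
    · rw [hsz, hmul]
      omega
    · intro i hi hv
      rw [mem_insert, mem_union] at hv
      rcases hv with hv | hv | hv
      · rcases hg3 i hi with h1 | ⟨j, hj, h1⟩
        · exact hxU _ (mUs _ h1).1 (mUs _ h1).2.1 hv.symm
        · exact hg2x j hj (h1.trans hv)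
      · rcases hg3 i hi with h1 | ⟨j, hj, h1⟩
        · exact hA1Us _ hv h1
        · exact b4 j hj (h1 ▸ hv)
      · exact d4 i hi hv
    · ext v
      have e1 : (v ∈ A₂ ∨ v ∈ (range M).image g₃) ↔ (v ∈ Us ∨ v ∈ (range M).image g₂) := by
        rw [← mem_union, ← mem_union, d5]
      have e2 : (v ∈ A₁ ∨ v ∈ (range M).image g₂) ↔ (v ∈ Uc ∨ v ∈ (range M).image g₁) := by
        rw [← mem_union, ← mem_union, b5]
      have e3 : (v = x ∨ v ∈ (range M).image g₁) ↔ (v = u ∨ v ∈ (range M).image g) := by
        rw [← mem_insert, ← mem_insert, a8]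
      have e4 : v ∈ U ↔ (v = u ∨ v ∈ Uc ∨ v ∈ Us) := by
        constructor
        · exact mU v
        · rintro (h1 | h1 | h1)
          · rw [h1]
            exact hu
          · exact (mUc v h1).1
          · exact (mUs v h1).1
      rw [mem_union, mem_insert, mem_union, mem_union, e4]
      clear * - e1 e2 e3
      generalize (v ∈ A₂) = p1 at *
      generalize (v ∈ (range M).image g₃) = p2 at *
      generalize (v ∈ (range M).image g₂) = p3 at *
      generalize (v ∈ (range M).image g₁) = p4 at *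
      generalize (v ∈ (range M).image g) = p5 at *
      generalize (v ∈ Us) = p6 at *
      generalize (v ∈ Uc) = p7 at *
      generalize (v ∈ A₁) = p8 at *
      constructor
      · rintro ((h1 | h1 | h1) | h1)
        · rcases e3.1 (Or.inl h1) with h2 | h2
          · exact Or.inl (Or.inl h2)
          · exact Or.inr h2
        · rcases e2.1 (Or.inl h1) with h2 | h2
          · exact Or.inl (Or.inr (Or.inl h2))
          · rcases e3.1 (Or.inr h2) with h3 | h3
            · exact Or.inl (Or.inl h3)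
            · exact Or.inr h3
        · rcases e1.1 (Or.inl h1) with h2 | h2
          · exact Or.inl (Or.inr (Or.inr h2))
          · rcases e2.1 (Or.inr h2) with h2 | h2
            · exact Or.inl (Or.inr (Or.inl h2))
            · rcases e3.1 (Or.inr h2) with h3 | h3
              · exact Or.inl (Or.inl h3)
              · exact Or.inr h3
        · rcases e1.1 (Or.inr h1) with h2 | h2
          · exact Or.inl (Or.inr (Or.inr h2))
          · rcases e2.1 (Or.inr h2) with h2 | h2
            · exact Or.inl (Or.inr (Or.inl h2))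
            · rcases e3.1 (Or.inr h2) with h3 | h3
              · exact Or.inl (Or.inl h3)
              · exact Or.inr h3
      · have k1 : p4 → (((v = x ∨ p8 ∨ p1) ∨ p2)) := by
          intro h1
          rcases e2.2 (Or.inr h1) with h2 | h2
          · exact Or.inl (Or.inr (Or.inl h2))
          · rcases e1.2 (Or.inr h2) with h3 | h3
            · exact Or.inl (Or.inr (Or.inr h3))
            · exact Or.inr h3
        rintro ((h1 | h1 | h1) | h1)
        · rcases e3.2 (Or.inl h1) with h2 | h2
          · exact Or.inl (Or.inl h2)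
          · exact k1 h2
        · rcases e2.2 (Or.inl h1) with h2 | h2
          · exact Or.inl (Or.inr (Or.inl h2))
          · rcases e1.2 (Or.inr h2) with h3 | h3
            · exact Or.inl (Or.inr (Or.inr h3))
            · exact Or.inr h3
        · rcases e1.2 (Or.inl h1) with h3 | h3
          · exact Or.inl (Or.inr (Or.inr h3))
          · exact Or.inr h3
        · rcases e3.2 (Or.inr h1) with h2 | h2
          · exact Or.inl (Or.inl h2)
          · exact k1 h2

theorem absorb {X : Finset V} {J K₀ M : ℕ} {k : Kind} {D : ℕ → Dat V} (hR : RichS R X k J K₀ M D)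
    (hD : ∀ i < M, Okd R k (D i) ∧ yv (D i) ∈ X) (hy : Set.InjOn (fun i => yv (D i)) (range M : Set ℕ))
    (p : Bool × Fd) (hK : J * (p.2.size + 1) ≤ K₀) {u : V} (hu : u ∈ X) (huy : ∀ i < M, yv (D i) ≠ u) {U : Finset V}
    (hU : U ⊆ X) (hUc : U.card = p.2.size + 1) (huU : u ∉ U) (hUy : ∀ i < M, yv (D i) ∉ U) :
    ∃ (A : Finset V) (g : ℕ → V), EmbL R u [p] A ∧ (∀ i < M, Cnd R k (D i) (g i)) ∧
      Set.InjOn g (range M : Set ℕ) ∧ Disjoint A ((range M).image g) ∧
      A ∪ (range M).image g = U ∪ (range M).image (fun i => yv (D i)) := by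
  have hsz : (Fd.node p.1 p.2 .nil).size = p.2.size + 1 := rfl
  have hI : AbsInv R X k D M ∅ (fun i => yv (D i)) := by
    refine ⟨fun i _ _ => rfl, ?_, ?_, fun i hi => (hD i hi).2⟩
    · intro i hi
      have h1 := (hD i hi).1
      cases k with
      | com e => exact h1.2
      | dir => exact Or.inl rfl
    · intro a ha b hb hab
      exact hy (mem_coe.2 (mem_range.2 ha)) (mem_coe.2 (mem_range.2 hb)) hab
  obtain ⟨A, g, F, h1, -, h3, h4, h5⟩ := abs_fd hR (Fd.node p.1 p.2 .nil) u ∅ (fun i => yv (D i)) U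
    (by rw [hsz, card_empty, zero_add]; exact hK) (by rw [hsz]; exact hUc) hu huU huy hU hUy hI
  refine ⟨A, g, (emb_iff _ _ _).1 h1, h3.2.1, ?_, ?_, h5⟩
  · intro a ha b hb hab
    exact h3.2.2.1 a (mem_range.1 (mem_coe.1 ha)) b (mem_range.1 (mem_coe.1 hb)) hab
  · rw [disjoint_right]
    intro v hv
    rw [mem_image] at hv
    obtain ⟨i, hi, rfl⟩ := hv
    exact h4 i (mem_range.1 hi)

end AESP
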