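import Pool.Agent.AESP.Defs

/-!
# SPANNING: the exact chain inside a subset with a reserve
-/

set_option autoImplicit false

namespace AESP

open Finset AE15 AED AELT AEX AESK
open scoped Classical

/-- the exact chain with the reserve `S` inside a subset `Y` of `X` -/
theorem bb (b : ℕ) (hb : 1 ≤ b) {θ : ℝ} (hθ : 0 < θ) (hθ1 : θ ≤ 1) (ℓ : ℕ) : ∃ C : ℕ, ∀ {V : Type} {R : V → V → Prop},
    AE32.Tour R → ∀ (X Y S : Finset V) (y : V) (c : Fd), c.len ≤ b → c.Deg b → Y ⊆ X → S ⊆ Y → y ∈ Y → y ∉ S →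
      (Y.card : ℝ) / 4 ≤ S.card → Str R X S ℓ (θ - 2 * er X.card) (θ / 4 + 2 * er X.card) (θ ^ 2 / 100 - 2 * er X.card) →
      c.size + 1 + C ≤ Y.card → ∃ A ⊆ Y, y ∉ A ∧ Emb R c y A := by
  obtain ⟨C, B, hB, h⟩ := chain_aux b hb hθ hθ1 ℓ
  refine ⟨C, ?_⟩
  intro V R hT X Y S y c hl hd hYX hSY hyY hyS hYS hStr hsize
  have hY : 0 < Y.card := card_pos.2 ⟨y, hyY⟩
  have hYX' : Y.card ≤ X.card := card_le_card hYX
  have hX : 0 < X.card := lt_of_lt_of_le hY hYX'
  have her : er X.card ≤ er Y.card := by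
    have h1 := er_le (a := 1) hX hY zero_le_one (by
      rw [one_pow, one_mul]
      exact_mod_cast hYX')
    linarith
  have h0 : 0 ≤ er Y.card := er_nonneg _
  have h2 : 2 * er X.card ≤ B * er Y.card :=
    (mul_le_mul_of_nonneg_left her zero_le_two).trans (mul_le_mul_of_nonneg_right hB h0)
  refine h hT c.size c le_rfl hl hd Y S y hSY hyY hyS hYS (hStr.mono hYX ?_ ?_ ?_) hsize <;> linarith

end AESP
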