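import Pool.Agent.AESP.Defs

/-!
# Spanning trees in expanding tournaments: tuples with equal entries
-/

set_option autoImplicit false

namespace AESP

open Finset AE15 AED AELT AEX AESK
open scoped Classical

variable {V : Type}

theorem supp_five {a c y g h : V} (h1 : a ≠ c) (h2 : a ≠ y) (h3 : a ≠ g) (h4 : a ≠ h) (h5 : c ≠ y) (h6 : c ≠ g)
    (h7 : c ≠ h) (h8 : y ≠ g) (h9 : y ≠ h) (h10 : g ≠ h) : (supp (a, c, y, g, h)).card = 5 := by
  unfold supp
  simp only
  rw [card_insert_of_notMem, card_insert_of_notMem, card_insert_of_notMem, card_insert_of_notMem, card_singleton] <;>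
    simp [*]

theorem card_box (X : Finset V) : (box X).card = X.card ^ 5 := by
  unfold box
  simp only [card_product]
  ring

theorem mem_box {X : Finset V} {D : Dat V} : D ∈ box X ↔ D.1 ∈ X ∧ D.2.1 ∈ X ∧ D.2.2.1 ∈ X ∧ D.2.2.2.1 ∈ X ∧
    D.2.2.2.2 ∈ X := by
  unfold box
  simp only [mem_product]

/-- at most `10 n ^ 4` tuples have two equal entries -/
theorem supp_bad (X : Finset V) : ((box X).filter (fun D => (supp D).card ≠ 5)).card ≤ 10 * X.card ^ 4 := by
  obtain ⟨F, hF⟩ : ∃ F : Fin 10 → (V × V × V × V → Dat V), F = ![fun p => (p.1, p.1, p.2.1, p.2.2.1, p.2.2.2),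
      fun p => (p.1, p.2.1, p.1, p.2.2.1, p.2.2.2), fun p => (p.1, p.2.1, p.2.2.1, p.1, p.2.2.2),
      fun p => (p.1, p.2.1, p.2.2.1, p.2.2.2, p.1), fun p => (p.1, p.2.1, p.2.1, p.2.2.1, p.2.2.2),
      fun p => (p.1, p.2.1, p.2.2.1, p.2.1, p.2.2.2), fun p => (p.1, p.2.1, p.2.2.1, p.2.2.2, p.2.1),
      fun p => (p.1, p.2.1, p.2.2.1, p.2.2.1, p.2.2.2), fun p => (p.1, p.2.1, p.2.2.1, p.2.2.2, p.2.2.1),
      fun p => (p.1, p.2.1, p.2.2.1, p.2.2.2, p.2.2.2)] := ⟨_, rfl⟩
  have h1 : (box X).filter (fun D => (supp D).card ≠ 5) ⊆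
      (univ : Finset (Fin 10)).biUnion (fun i => (X ×ˢ X ×ˢ X ×ˢ X).image (F i)) := by
    rintro ⟨a, c, y, g, h⟩ hD
    rw [mem_filter, mem_box] at hD
    obtain ⟨⟨m1, m2, m3, m4, m5⟩, hc⟩ := hD
    simp only at m1 m2 m3 m4 m5
    by_contra hn
    rw [mem_biUnion] at hn
    apply hc
    have key : ∀ (i : Fin 10) (p : V × V × V × V), p.1 ∈ X → p.2.1 ∈ X → p.2.2.1 ∈ X → p.2.2.2 ∈ X →
        F i p ≠ (a, c, y, g, h) := by
      intro i p q1 q2 q3 q4 he
      refine hn ⟨i, mem_univ _, mem_image.2 ⟨p, ?_, he⟩⟩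
      simp only [mem_product]
      exact ⟨q1, q2, q3, q4⟩
    apply supp_five
    · intro he
      refine key 0 (a, y, g, h) m1 m3 m4 m5 ?_
      simp [hF, ← he]
    · intro he
      refine key 1 (a, c, g, h) m1 m2 m4 m5 ?_
      simp [hF, ← he]
    · intro he
      refine key 2 (a, c, y, h) m1 m2 m3 m5 ?_
      simp [hF, ← he]
    · intro he
      refine key 3 (a, c, y, g) m1 m2 m3 m4 ?_
      simp [hF, ← he]
    · intro he
      refine key 4 (a, c, g, h) m1 m2 m4 m5 ?_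
      simp [hF, ← he]
    · intro he
      refine key 5 (a, c, y, h) m1 m2 m3 m5 ?_
      simp [hF, ← he]
    · intro he
      refine key 6 (a, c, y, g) m1 m2 m3 m4 ?_
      simp [hF, ← he]
    · intro he
      refine key 7 (a, c, y, h) m1 m2 m3 m5 ?_
      simp [hF, ← he]
    · intro he
      refine key 8 (a, c, y, g) m1 m2 m3 m4 ?_
      simp [hF, ← he]
    · intro he
      refine key 9 (a, c, y, g) m1 m2 m3 m4 ?_
      simp [hF, ← he]
  refine (card_le_card h1).trans (card_biUnion_le.trans ?_)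
  have h2 : ∀ i ∈ (univ : Finset (Fin 10)), ((X ×ˢ X ×ˢ X ×ˢ X).image (F i)).card ≤ X.card ^ 4 := by
    intro i _
    refine card_image_le.trans (le_of_eq ?_)
    simp only [card_product]
    ring
  refine (sum_le_sum h2).trans (le_of_eq ?_)
  rw [sum_const, card_univ, Fintype.card_fin, smul_eq_mul]

end AESP
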