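import Pool.Agent.AESP.Xp0

/-!
# CA (file CaseA): the second alternative of `dich`
-/

set_option autoImplicit false

namespace AESP

open Finset AE15 AED AELT AEX AESK
open scoped Classical

variable {V : Type} {R : V → V → Prop}

theorem Xp.tsz_le {b L Λ n : ℕ} {ts fin : List (Bool × Fd)} (h : Xp L Λ n ts fin)
    (hb : ∀ p ∈ ts, p.2.len ≤ b ∧ p.2.Deg b) : tsz fin ≤ tsz ts := by
  induction h with
  | nil ts => exact le_rfl
  | step n p l k J ts ts' fin hperm hG _ _ _ ih =>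
    obtain ⟨h1, h2⟩ := hb p (hperm.mem_iff.2 List.mem_cons_self)
    obtain ⟨g1, -, g3, -⟩ := hG.deg h1 h2
    have h3 : tsz ts = tsz (p :: ts') := (hperm.map _).sum_eq
    have h4 := ih (fun q hq => by
      rcases List.mem_append.1 hq with hq | hq
      · exact g1 q hq
      · exact hb q (hperm.mem_iff.2 (List.mem_cons_of_mem _ hq)))
    rw [tsz_append] at h4
    rw [tsz_cons] at h3
    omega

/-- all the supports -/
noncomputable def allS (D : Kind → ℕ → Dat V) (m : ℕ) : Finset V :=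
  (range m).biUnion fun i => supp (D (.com true) i) ∪ supp (D (.com false) i) ∪ supp (D .dir i)

theorem caseA_supp_card_le (D : Dat V) : (supp D).card ≤ 5 := by
  unfold supp
  exact card_le_five

theorem allS_card (D : Kind → ℕ → Dat V) (m : ℕ) : (allS D m).card ≤ 15 * m := by
  unfold allS
  refine (card_biUnion_le_card_mul (range m) _ 15 fun i _ => ?_).trans (by rw [card_range, mul_comm])
  refine (card_union_le _ _).trans ?_
  have h1 := card_union_le (supp (D (.com true) i)) (supp (D (.com false) i))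
  have h2 := caseA_supp_card_le (D (.com true) i)
  have h3 := caseA_supp_card_le (D (.com false) i)
  have h4 := caseA_supp_card_le (D .dir i)
  omega

theorem supp_sub_allS (D : Kind → ℕ → Dat V) {m : ℕ} (k : Kind) {i : ℕ} (hi : i < m) : supp (D k i) ⊆ allS D m := by
  intro x hx
  unfold allS
  rw [mem_biUnion]
  refine ⟨i, mem_range.2 hi, ?_⟩
  rw [mem_union, mem_union]
  cases k with
  | com e => cases e with
    | true => exact Or.inl (Or.inl hx)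
    | false => exact Or.inl (Or.inr hx)
  | dir => exact Or.inr hx

theorem mem_allS {D : Kind → ℕ → Dat V} {m : ℕ} {x : V} (hx : x ∈ allS D m) : ∃ k, ∃ i < m, x ∈ supp (D k i) := by
  unfold allS at hx
  rw [mem_biUnion] at hx
  obtain ⟨i, hi, hx⟩ := hx
  rw [mem_union, mem_union] at hx
  rcases hx with (hx | hx) | hx
  · exact ⟨_, i, mem_range.1 hi, hx⟩
  · exact ⟨_, i, mem_range.1 hi, hx⟩
  · exact ⟨_, i, mem_range.1 hi, hx⟩

/-- CA -/
theorem case_a {b ℓ J K₀ C₀ Ca M Λ w₀ : ℕ} {θ ζ : ℝ}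
    (hbb : ∀ {V : Type} {R : V → V → Prop}, AE32.Tour R → ∀ (X Y S : Finset V) (y : V) (c : Fd), c.len ≤ b → c.Deg b →
      Y ⊆ X → S ⊆ Y → y ∈ Y → y ∉ S → (Y.card : ℝ) / 4 ≤ S.card →
      Str R X S ℓ (θ - 2 * er X.card) (θ / 4 + 2 * er X.card) (θ ^ 2 / 100 - 2 * er X.card) →
      c.size + 1 + Ca ≤ Y.card → ∃ A ⊆ Y, y ∉ A ∧ Emb R c y A)
    (hmid : ∀ {V : Type} {R : V → V → Prop}, AE32.Tour R → ∀ {X U S Q : Finset V} {ts fin rest : List (Bool × Fd)}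
      {q : Bool × Fd} {M Λ w₀ : ℕ}, U ⊆ X → Q ⊆ U → S ⊆ U → Disjoint S Q → Conn R X Q (ℓ + 1) w₀ →
      (∀ v ∈ X, ∀ d : Bool, w₀ ≤ (nb R d Q v).card) → Xp (ℓ + 1) Λ (3 * M) ts fin → fin.Perm (q :: rest) →
      ∀ (I : List (V × (Bool × Fd))), (I.map Prod.snd).Perm ts → (∀ t ∈ I, t.1 ∈ X ∧ t.1 ∉ U) →
      (∀ t ∈ I, t.2.2.len ≤ b ∧ t.2.2.Deg b) → ∀ (D : Kind → ℕ → Dat V),
      (∀ k, ∀ i < 3 * M, Okd R k (D k i) ∧ supp (D k i) ⊆ U ∧ Disjoint (supp (D k i)) Q ∧ Disjoint (supp (D k i)) S) →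
      (∀ k k' i i', i < 3 * M → i' < 3 * M → (k, i) ≠ (k', i') → Disjoint (supp (D k i)) (supp (D k' i'))) →
      (∀ k, RichS R X k J K₀ M (D k)) →
      I.length + 4 * tsz rest + 2 * (3 * M * (Λ + ℓ + 7)) + Λ + 2 * ℓ + 50 ≤ w₀ → U.card = tsz ts → C₀ ≤ q.2.size →
      (q.2.size + 1 : ℝ) / 4 ≤ S.card →
      Str R X S ℓ (θ - 2 * er X.card) (θ / 4 + 2 * er X.card) (θ ^ 2 / 100 - 2 * er X.card) → EmbI R I U)
    {V : Type} {R : V → V → Prop} (hT : AE32.Tour R) {X S T Q : Finset V} {v : V} (hv : v ∈ X) {D : Kind → ℕ → Dat V}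
    (hD : ∀ k, ∀ i < 3 * M, Okd R k (D k i) ∧ supp (D k i) ⊆ X ∧ v ∉ supp (D k i) ∧ Disjoint (supp (D k i)) S ∧
      Disjoint (supp (D k i)) T ∧ Disjoint (supp (D k i)) Q)
    (hDD : ∀ k k' i i', i < 3 * M → i' < 3 * M → (k, i) ≠ (k', i') → Disjoint (supp (D k i)) (supp (D k' i')))
    (hR : ∀ k, RichS R X k J K₀ M (D k)) (hS : S ⊆ X) (hTX : T ⊆ X) (hQ : Q ⊆ X) (hST : Disjoint S T)
    (hSQ : Disjoint S Q) (hTQ : Disjoint T Q) (hvS : v ∉ S) (hvT : v ∉ T) (hvQ : v ∉ Q)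
    (hStrS : Str R X S ℓ (θ - 2 * er X.card) (θ / 4 + 2 * er X.card) (θ ^ 2 / 100 - 2 * er X.card))
    (hStrT : Str R X T ℓ (θ - 2 * er X.card) (θ / 4 + 2 * er X.card) (θ ^ 2 / 100 - 2 * er X.card))
    (hconn : Conn R X Q (ℓ + 1) w₀) (hdeg : ∀ v ∈ X, ∀ d : Bool, w₀ ≤ (nb R d Q v).card)
    {c c' : Fd} {p₁ p₂ : Bool × Fd} (hN : c.size + 1 = X.card) (hsz : c.size = c'.size + (p₁.2.size + 1) + (p₂.2.size + 1))
    (hc1 : c'.len ≤ b) (hc2 : c'.Deg b) (hp1 : p₁.2.len ≤ b) (hp2 : p₁.2.Deg b) (hp3 : p₂.2.len ≤ b) (hp4 : p₂.2.Deg b)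
    (hemb : ∀ {V : Type} {R : V → V → Prop} {y : V} {S : Finset V}, Emb R c' y S → y ∉ S →
        ∃ u₁ ∈ insert y S, ∃ u₂ ∈ insert y S, ∀ A, Disjoint A (insert y S) → EmbI R [(u₁, p₁), (u₂, p₂)] A →
          Emb R c y (S ∪ A))
    {fin : List (Bool × Fd)} (hx : Xp (ℓ + 1) Λ (3 * M) [p₁] fin)
    (h1 : 4 * (p₁.2.size + 1) + 2 * (3 * M * (Λ + ℓ + 7)) + Λ + 2 * ℓ + 52 ≤ w₀)
    (h2 : C₀ ≤ p₂.2.size) (h3 : (p₂.2.size + 1 : ℝ) / 4 ≤ S.card) (h4 : (X.card : ℝ) / 4 ≤ T.card)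
    (h5 : S.card + Q.card + 45 * M + 1 + Ca ≤ (p₁.2.size + 1) + (p₂.2.size + 1)) : Emb R c v (X.erase v) := by
  obtain ⟨W, hW⟩ : ∃ W, W = allS D (3 * M) := ⟨_, rfl⟩
  have hWc : W.card ≤ 45 * M := by
    have := allS_card D (3 * M)
    rw [hW]
    omega
  have hWm : ∀ x ∈ W, ∃ k, ∃ i < 3 * M, x ∈ supp (D k i) := by
    intro x hx
    rw [hW] at hx
    exact mem_allS hx
  have hvW : v ∉ W := by
    intro h
    obtain ⟨k, i, hi, hx⟩ := hWm v h
    exact (hD k i hi).2.2.1 hx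
  have hTW : Disjoint T W := by
    rw [disjoint_right]
    intro x hx hxT
    obtain ⟨k, i, hi, hx⟩ := hWm x hx
    exact disjoint_left.1 (hD k i hi).2.2.2.2.1 hx hxT
  obtain ⟨Y, hY⟩ : ∃ Y, Y = X \ (S ∪ Q ∪ W) := ⟨_, rfl⟩
  have hYX : Y ⊆ X := by rw [hY]; exact sdiff_subset
  have hmY : ∀ x, x ∈ Y ↔ x ∈ X ∧ x ∉ S ∧ x ∉ Q ∧ x ∉ W := by
    intro x
    rw [hY, mem_sdiff, mem_union, mem_union]
    tauto
  have hYc : c'.size + 1 + Ca ≤ Y.card := by
    have k1 : (S ∪ Q ∪ W).card ≤ S.card + Q.card + W.card :=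
      (card_union_le _ _).trans (Nat.add_le_add_right (card_union_le _ _) _)
    have k2 : X.card ≤ Y.card + (S ∪ Q ∪ W).card := by
      rw [hY]
      exact card_le_card_sdiff_add_card
    omega
  obtain ⟨A, hAY, hvA, hA⟩ := hbb hT X Y T v c' hc1 hc2 hYX
    (fun x hx => (hmY x).2 ⟨hTX hx, fun h => disjoint_left.1 hST h hx, fun h => disjoint_left.1 hTQ hx h,
      fun h => disjoint_left.1 hTW hx h⟩)
    ((hmY v).2 ⟨hv, hvS, hvQ, hvW⟩) hvT
    (by
      have k1 : (Y.card : ℝ) ≤ X.card := by exact_mod_cast card_le_card hYX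
      linarith) hStrT hYc
  have hAc : A.card = c'.size := hA.card
  have hAX : A ⊆ X := hAY.trans hYX
  obtain ⟨u₁, hu₁, u₂, hu₂, hfin⟩ := hemb hA hvA
  have hB : insert v A ⊆ X := insert_subset hv hAX
  have hBc : (insert v A).card = c'.size + 1 := by rw [card_insert_of_notMem hvA, hAc]
  obtain ⟨U, hU⟩ : ∃ U, U = X \ insert v A := ⟨_, rfl⟩
  have hUX : U ⊆ X := by rw [hU]; exact sdiff_subset
  have hmU : ∀ x, x ∈ U ↔ x ∈ X ∧ x ≠ v ∧ x ∉ A := by
    intro x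
    rw [hU, mem_sdiff, mem_insert, not_or]
  have hUc : U.card = (p₁.2.size + 1) + (p₂.2.size + 1) := by
    have k1 : U.card + (insert v A).card = X.card := by
      rw [hU]
      exact card_sdiff_add_card_eq_card hB
    omega
  have hUd : Disjoint U (insert v A) := by rw [hU]; exact sdiff_disjoint
  have hAS : ∀ x ∈ A, x ∉ S ∧ x ∉ Q ∧ x ∉ W := fun x hx => ((hmY x).1 (hAY hx)).2
  have hE : EmbI R [(u₁, p₁), (u₂, p₂)] U := by
    refine hmid hT (X := X) (U := U) (S := S) (Q := Q) (ts := [p₁] ++ [p₂]) (fin := fin ++ [p₂]) (rest := fin)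
      (q := p₂) (M := M) (Λ := Λ) (w₀ := w₀) hUX ?_ ?_ hSQ hconn hdeg (hx.frame [p₂]) ?_
      [(u₁, p₁), (u₂, p₂)] ?_ ?_ ?_ D ?_ hDD hR ?_ ?_ h2 h3 hStrS
    · intro x hx
      exact (hmU x).2 ⟨hQ hx, fun h => hvQ (h ▸ hx), fun h => (hAS x h).2.1 hx⟩
    · intro x hx
      exact (hmU x).2 ⟨hS hx, fun h => hvS (h ▸ hx), fun h => (hAS x h).1 hx⟩
    · exact List.perm_append_comm
    · exact List.Perm.refl _
    · intro t ht
      have hu : ∀ u ∈ insert v A, u ∈ X ∧ u ∉ U := fun u hu => ⟨hB hu, disjoint_right.1 hUd hu⟩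
      rcases List.mem_cons.1 ht with rfl | ht
      · exact hu u₁ hu₁
      · rw [List.mem_singleton] at ht
        subst ht
        exact hu u₂ hu₂
    · intro t ht
      rcases List.mem_cons.1 ht with rfl | ht
      · exact ⟨hp1, hp2⟩
      · rw [List.mem_singleton] at ht
        subst ht
        exact ⟨hp3, hp4⟩
    · intro k i hi
      obtain ⟨d1, d2, d3, d4, d5, d6⟩ := hD k i hi
      refine ⟨d1, ?_, d6, d4⟩
      intro x hx
      refine (hmU x).2 ⟨d2 hx, fun h => d3 (h ▸ hx), fun h => (hAS x h).2.2 ?_⟩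
      rw [hW]
      exact supp_sub_allS D k hi hx
    · have k1 := hx.tsz_le (b := b) (fun p hp => by
        rw [List.mem_singleton] at hp
        subst hp
        exact ⟨hp1, hp2⟩)
      rw [tsz_cons, tsz_nil, add_zero] at k1
      have k2 : ([(u₁, p₁), (u₂, p₂)] : List (V × (Bool × Fd))).length = 2 := rfl
      rw [k2]
      omega
    · rw [tsz_append, tsz_cons, tsz_nil, tsz_cons, tsz_nil]
      omega
  have hfin' := hfin U hUd hE
  have hAU : A ∪ U = X.erase v := by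
    ext x
    rw [mem_union, hmU, mem_erase]
    constructor
    · rintro (h | h)
      · exact ⟨fun e => hvA (e ▸ h), hAX h⟩
      · exact ⟨h.2.1, h.1⟩
    · rintro ⟨h, h'⟩
      by_cases hxA : x ∈ A
      · exact Or.inl hxA
      · exact Or.inr ⟨h', h, hxA⟩
  rwa [hAU] at hfin'

end AESP
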