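import Pool.Agent.AESP.Xp0

/-!
# Case B: a long path with few vertices beside it
-/

set_option autoImplicit false

namespace AESP

open Finset AE15 AED AELT AEX AESK
open scoped Classical

theorem CB.gad_tsz_le {L : ℕ} {p : Bool × Fd} {l : List (Bool × List (Bool × Fd))} {k : Kind} {J : List (Bool × Fd)}
    (h : Gad L p l k J) : tsz J ≤ p.2.size + 1 := by
  cases h with
  | leaf d s e hS =>
    have h4 := spine_size hS
    rw [psz_append, psz_cons, psz_nil, psz_flatten] at h4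
    simp only at h4
    rw [AESP.tsz_append]
    omega
  | turn d s e c hS =>
    have h4 := spine_size hS
    have h9 : tsz c.trees = c.size := (Fd.size_eq c).symm
    rw [psz_append, psz_cons, psz_cons, psz_nil, psz_flatten] at h4
    simp only at h4
    rw [AESP.tsz_append, AESP.tsz_append, h9]
    omega
  | dir d s e c hS =>
    have h4 := spine_size hS
    have h9 : tsz c.trees = c.size := (Fd.size_eq c).symm
    rw [psz_append, psz_append, psz_cons, psz_nil, psz_flatten] at h4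
    simp only at h4
    rw [AESP.tsz_append, AESP.tsz_append, h9]
    omega

theorem CB.tsz_perm {l l' : List (Bool × Fd)} (h : l.Perm l') : tsz l = tsz l' :=
  (h.map _).sum_eq

theorem CB.xp_tsz_le {L Λ n : ℕ} {ts fin : List (Bool × Fd)} (h : Xp L Λ n ts fin) : tsz fin ≤ tsz ts := by
  induction h with
  | nil ts => exact le_rfl
  | step n p l k J ts ts' fin hperm hG _ _ _ ih =>
    have h1 := CB.gad_tsz_le hG
    rw [AESP.tsz_append] at ih
    rw [CB.tsz_perm hperm, tsz_cons]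
    omega

theorem case_b {b ℓ J K₀ C₀ K₂ M w₀ : ℕ} {θ : ℝ}
    (hmid : ∀ {V : Type} {R : V → V → Prop}, AE32.Tour R → ∀ {X U S Q : Finset V} {ts fin rest : List (Bool × Fd)}
      {q : Bool × Fd} {M Λ w₀ : ℕ}, U ⊆ X → Q ⊆ U → S ⊆ U → Disjoint S Q → Conn R X Q (ℓ + 1) w₀ →
      (∀ v ∈ X, ∀ d : Bool, w₀ ≤ (nb R d Q v).card) → Xp (ℓ + 1) Λ (3 * M) ts fin → fin.Perm (q :: rest) →
      ∀ (I : List (V × (Bool × Fd))), (I.map Prod.snd).Perm ts → (∀ t ∈ I, t.1 ∈ X ∧ t.1 ∉ U) →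
      (∀ t ∈ I, t.2.2.len ≤ b ∧ t.2.2.Deg b) → ∀ (D : Kind → ℕ → Dat V),
      (∀ k, ∀ i < 3 * M, Okd R k (D k i) ∧ supp (D k i) ⊆ U ∧ Disjoint (supp (D k i)) Q ∧ Disjoint (supp (D k i)) S) →
      (∀ k k' i i', i < 3 * M → i' < 3 * M → (k, i) ≠ (k', i') → Disjoint (supp (D k i)) (supp (D k' i'))) →
      (∀ k, RichS R X k J K₀ M (D k)) →
      I.length + 4 * tsz rest + 2 * (3 * M * (Λ + ℓ + 7)) + Λ + 2 * ℓ + 50 ≤ w₀ → U.card = tsz ts → C₀ ≤ q.2.size →
      (q.2.size + 1 : ℝ) / 4 ≤ S.card →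
      Str R X S ℓ (θ - 2 * er X.card) (θ / 4 + 2 * er X.card) (θ ^ 2 / 100 - 2 * er X.card) → EmbI R I U)
    (hx2 : ∀ (n : ℕ) (p q : Bool × Fd) (l : List (Bool × List (Bool × Fd))), p.2.len ≤ b → p.2.Deg b → Spine l p q →
      K₂ * (n + 1) ≤ l.length → ∃ (fin : List (Bool × Fd)) (q' : Bool × Fd) (l' : List (Bool × List (Bool × Fd))),
        Xp (ℓ + 1) (K₂ * (Nat.log 2 p.2.size + 1)) n [p] fin ∧ q' ∈ fin ∧ Spine l' q' q)
    {V : Type} {R : V → V → Prop} (hT : AE32.Tour R) {X T Q : Finset V} {v : V} (hv : v ∈ X) {D : Kind → ℕ → Dat V}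
    (hD : ∀ k, ∀ i < 3 * M, Okd R k (D k i) ∧ supp (D k i) ⊆ X ∧ v ∉ supp (D k i) ∧ Disjoint (supp (D k i)) T ∧
      Disjoint (supp (D k i)) Q)
    (hDD : ∀ k k' i i', i < 3 * M → i' < 3 * M → (k, i) ≠ (k', i') → Disjoint (supp (D k i)) (supp (D k' i')))
    (hR : ∀ k, RichS R X k J K₀ M (D k)) (hTX : T ⊆ X) (hQ : Q ⊆ X) (hTQ : Disjoint T Q) (hvT : v ∉ T) (hvQ : v ∉ Q)
    (hStrT : Str R X T ℓ (θ - 2 * er X.card) (θ / 4 + 2 * er X.card) (θ ^ 2 / 100 - 2 * er X.card))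
    (hconn : Conn R X Q (ℓ + 1) w₀) (hdeg : ∀ v ∈ X, ∀ d : Bool, w₀ ≤ (nb R d Q v).card)
    {c : Fd} {q : Bool × Fd} {l : List (Bool × List (Bool × Fd))} (hN : c.size + 1 = X.card) (hc1 : c.len ≤ b)
    (hc2 : c.Deg b) (hsp : Spine l (true, c) q) (hl : K₂ * (3 * M + 1) + 1 ≤ l.length)
    (h1 : b + 4 * psz l + 2 * (3 * M * (K₂ * (Nat.log 2 X.card + 1) + ℓ + 7)) + K₂ * (Nat.log 2 X.card + 1) + 2 * ℓ + 50 ≤ w₀)
    (h2 : C₀ ≤ q.2.size) (h4 : (X.card : ℝ) / 4 ≤ T.card) : Emb R c v (X.erase v) := by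
  have hsz := spine_size hsp
  cases hsp with
  | nil =>
    rw [List.length_nil] at hl
    omega
  | cons d c s p₁ q l₁ hperm hsp₁ =>
    rw [List.length_cons] at hl
    have hmem : ∀ r ∈ p₁ :: s, r.2.len ≤ b ∧ r.2.Deg b := by
      intro r hr
      exact (Fd.deg_iff b c).1 hc2 r (hperm.mem_iff.2 hr)
    have hp₁ := hmem p₁ List.mem_cons_self
    obtain ⟨fin₁, q', l', hX, hq', hsp'⟩ := hx2 (3 * M) p₁ q l₁ hp₁.1 hp₁.2 hsp₁ (by omega)
    have hX' := hX.frame s
    rw [List.singleton_append] at hX'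
    have hfin : (fin₁ ++ s).Perm (q' :: (fin₁ ++ s).erase q') :=
      List.perm_cons_erase (List.mem_append_left _ hq')
    have hts : tsz (p₁ :: s) = c.size := by
      rw [← CB.tsz_perm hperm]
      exact (Fd.size_eq c).symm
    have hle := CB.xp_tsz_le hX'
    rw [CB.tsz_perm hfin, tsz_cons, hts] at hle
    have hsz' := spine_size hsp'
    simp only at hsz
    have hrest : tsz ((fin₁ ++ s).erase q') ≤ psz ((true, s) :: l₁) := by omega
    have hp₁s : p₁.2.size ≤ X.card := by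
      rw [tsz_cons] at hts
      omega
    have hlog : Nat.log 2 p₁.2.size + 1 ≤ Nat.log 2 X.card + 1 :=
      Nat.succ_le_succ (Nat.log_mono_right hp₁s)
    have hΛ : K₂ * (Nat.log 2 p₁.2.size + 1) ≤ K₂ * (Nat.log 2 X.card + 1) := Nat.mul_le_mul_left _ hlog
    have hΛ' : 3 * M * (K₂ * (Nat.log 2 p₁.2.size + 1) + ℓ + 7) ≤
        3 * M * (K₂ * (Nat.log 2 X.card + 1) + ℓ + 7) := Nat.mul_le_mul_left _ (by omega)
    have hlen : ((p₁ :: s).map (fun p => (v, p))).length ≤ b := by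
      rw [List.length_map, ← hperm.length_eq, ← Fd.len_eq]
      exact hc1
    have hU : (X.erase v).card = tsz (p₁ :: s) := by
      rw [card_erase_of_mem hv, hts]
      omega
    have hsub : ∀ {W : Finset V}, W ⊆ X → v ∉ W → W ⊆ X.erase v := by
      intro W hW hvW x hx
      exact mem_erase.2 ⟨fun h => hvW (h ▸ hx), hW hx⟩
    have hfinal := hmid hT (X := X) (U := X.erase v) (S := T) (Q := Q) (erase_subset v X) (hsub hQ hvQ) (hsub hTX hvT)
      hTQ hconn hdeg hX' hfin ((p₁ :: s).map (fun p => (v, p))) (by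
        rw [List.map_map]
        have e : (Prod.snd ∘ fun p : Bool × Fd => (v, p)) = id := rfl
        rw [e, List.map_id]) (by
        intro t ht
        obtain ⟨r, -, rfl⟩ := List.mem_map.1 ht
        exact ⟨hv, notMem_erase v X⟩) (by
        intro t ht
        obtain ⟨r, hr, rfl⟩ := List.mem_map.1 ht
        exact hmem r hr) D (by
        intro k i hi
        obtain ⟨a1, a2, a3, a4, a5⟩ := hD k i hi
        exact ⟨a1, hsub a2 a3, a5, a4⟩) hDD hR (by omega) hU (by omega) (by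
        refine le_trans ?_ h4
        have : ((q'.2.size + 1 : ℕ) : ℝ) ≤ (X.card : ℝ) := Nat.cast_le.2 (by omega)
        push_cast at this
        linarith) hStrT
    exact (emb_iff c v _).2 (EmbL.perm hperm.symm (EmbL.items.2 hfinal))

end AESP
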