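import Pool.Agent.AESP.Defs

/-!
# A greedy cover

Every test of a family of at most `2 n²` tests is satisfied by a positive share of the tuples. Then there is a sequence of
tuples with disjoint supports which satisfies every test many times. Potential: the sum over the tests of
`(1/2)^(number of the tuples which satisfy the test)`.
-/

set_option autoImplicit false

namespace AESP

open Finset AE15 AED AELT AEX AESK
open scoped Classical

theorem cov_card_box {V : Type} (X : Finset V) : (box X).card = X.card ^ 5 := by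
  simp only [box, card_product]
  ring

/-- the tuples which meet `F` -/
theorem cov_meet {V : Type} (X F : Finset V) :
    ((box X).filter (fun D => ¬ Disjoint (supp D) F)).card ≤ 5 * (F.card * X.card ^ 4) := by
  have hsub : (box X).filter (fun D => ¬ Disjoint (supp D) F) ⊆
      (F ×ˢ X ×ˢ X ×ˢ X ×ˢ X) ∪ ((X ×ˢ F ×ˢ X ×ˢ X ×ˢ X) ∪ ((X ×ˢ X ×ˢ F ×ˢ X ×ˢ X) ∪
        ((X ×ˢ X ×ˢ X ×ˢ F ×ˢ X) ∪ (X ×ˢ X ×ˢ X ×ˢ X ×ˢ F)))) := by
    rintro ⟨a, c, y, g, g'⟩ hD
    rw [mem_filter, not_disjoint_iff] at hD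
    obtain ⟨hD, u, hu, huF⟩ := hD
    simp only [box, mem_product] at hD
    obtain ⟨h1, h2, h3, h4, h5⟩ := hD
    simp only [supp, mem_insert, mem_singleton] at hu
    simp only [mem_union, mem_product]
    rcases hu with rfl | rfl | rfl | rfl | rfl
    · exact Or.inl ⟨huF, h2, h3, h4, h5⟩
    · exact Or.inr (Or.inl ⟨h1, huF, h3, h4, h5⟩)
    · exact Or.inr (Or.inr (Or.inl ⟨h1, h2, huF, h4, h5⟩))
    · exact Or.inr (Or.inr (Or.inr (Or.inl ⟨h1, h2, h3, huF, h5⟩)))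
    · exact Or.inr (Or.inr (Or.inr (Or.inr ⟨h1, h2, h3, h4, huF⟩)))
  refine (card_le_card hsub).trans ?_
  have e1 : (F ×ˢ X ×ˢ X ×ˢ X ×ˢ X).card = F.card * X.card ^ 4 := by simp only [card_product]; ring
  have e2 : (X ×ˢ F ×ˢ X ×ˢ X ×ˢ X).card = F.card * X.card ^ 4 := by simp only [card_product]; ring
  have e3 : (X ×ˢ X ×ˢ F ×ˢ X ×ˢ X).card = F.card * X.card ^ 4 := by simp only [card_product]; ring
  have e4 : (X ×ˢ X ×ˢ X ×ˢ F ×ˢ X).card = F.card * X.card ^ 4 := by simp only [card_product]; ring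
  have e5 : (X ×ˢ X ×ˢ X ×ˢ X ×ˢ F).card = F.card * X.card ^ 4 := by simp only [card_product]; ring
  have f1 := card_union_le (F ×ˢ X ×ˢ X ×ˢ X ×ˢ X) ((X ×ˢ F ×ˢ X ×ˢ X ×ˢ X) ∪ ((X ×ˢ X ×ˢ F ×ˢ X ×ˢ X) ∪
        ((X ×ˢ X ×ˢ X ×ˢ F ×ˢ X) ∪ (X ×ˢ X ×ˢ X ×ˢ X ×ˢ F))))
  have f2 := card_union_le (X ×ˢ F ×ˢ X ×ˢ X ×ˢ X) ((X ×ˢ X ×ˢ F ×ˢ X ×ˢ X) ∪
        ((X ×ˢ X ×ˢ X ×ˢ F ×ˢ X) ∪ (X ×ˢ X ×ˢ X ×ˢ X ×ˢ F)))
  have f3 := card_union_le (X ×ˢ X ×ˢ F ×ˢ X ×ˢ X) ((X ×ˢ X ×ˢ X ×ˢ F ×ˢ X) ∪ (X ×ˢ X ×ˢ X ×ˢ X ×ˢ F))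
  have f4 := card_union_le (X ×ˢ X ×ˢ X ×ˢ F ×ˢ X) (X ×ˢ X ×ˢ X ×ˢ X ×ˢ F)
  omega

/-- one step: a tuple which avoids `F` and is good for a share of the weights -/
theorem cov_step {V : Type} {X : Finset V} {δ : ℝ} (hδ : 0 < δ) (hX : 0 < X.card) {τ : Type} (T : Finset τ)
    (hT : T.Nonempty)
    (good : τ → Dat V → Prop)
    (hg : ∀ t ∈ T, δ * (X.card : ℝ) ^ 5 ≤ (((box X).filter (good t)).card : ℝ)) (F : Finset V)
    (hF : 10 * (F.card : ℝ) ≤ δ * X.card) (w : τ → ℝ) (hw : ∀ t ∈ T, 0 ≤ w t) :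
    ∃ D ∈ box X, Disjoint (supp D) F ∧ δ / 2 * ∑ t ∈ T, w t ≤ ∑ t ∈ T.filter (fun t => good t D), w t := by
  by_contra hcon
  push Not at hcon
  set B : Finset (Dat V) := (box X).filter (fun D => Disjoint (supp D) F) with hB
  have hXr : (0 : ℝ) < X.card := by exact_mod_cast hX
  -- many good tuples avoid F
  have h1 : ∀ t ∈ T, δ / 2 * (X.card : ℝ) ^ 5 ≤ ((B.filter (good t)).card : ℝ) := by
    intro t ht
    have e1 : (box X).filter (good t) ⊆ B.filter (good t) ∪ (box X).filter (fun D => ¬ Disjoint (supp D) F) := by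
      intro D hD
      rw [mem_filter] at hD
      simp only [mem_union, mem_filter, hB]
      by_cases h : Disjoint (supp D) F
      · exact Or.inl ⟨⟨hD.1, h⟩, hD.2⟩
      · exact Or.inr ⟨hD.1, h⟩
    have e2 := (card_le_card e1).trans (card_union_le _ _)
    have e3 := cov_meet X F
    have e4 := hg t ht
    have e5 : (((box X).filter (good t)).card : ℝ) ≤ ((B.filter (good t)).card : ℝ) + 5 * (F.card * (X.card : ℝ) ^ 4) := by
      have : ((box X).filter (good t)).card ≤ (B.filter (good t)).card + 5 * (F.card * X.card ^ 4) := by omega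
      exact_mod_cast this
    have e6 : 10 * (F.card : ℝ) * (X.card : ℝ) ^ 4 ≤ δ * X.card * (X.card : ℝ) ^ 4 :=
      mul_le_mul_of_nonneg_right hF (by positivity)
    nlinarith [e4, e5, e6]
  have hsum : ∑ D ∈ B, ∑ t ∈ T.filter (fun t => good t D), w t = ∑ t ∈ T, w t * ((B.filter (good t)).card : ℝ) := by
    simp only [sum_filter]
    rw [sum_comm]
    refine sum_congr rfl (fun t _ => ?_)
    rw [← sum_filter, sum_const, nsmul_eq_mul, mul_comm]
  have h2 : δ / 2 * (X.card : ℝ) ^ 5 * ∑ t ∈ T, w t ≤ ∑ D ∈ B, ∑ t ∈ T.filter (fun t => good t D), w t := by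
    rw [hsum, mul_sum]
    refine sum_le_sum (fun t ht => ?_)
    rw [mul_comm]
    exact mul_le_mul_of_nonneg_left (h1 t ht) (hw t ht)
  have hBc : (B.card : ℝ) ≤ (X.card : ℝ) ^ 5 := by
    have : B.card ≤ X.card ^ 5 := by
      rw [← cov_card_box]
      exact card_filter_le _ _
    exact_mod_cast this
  have hBn : B.Nonempty := by
    obtain ⟨t, ht⟩ := hT
    have h3 := h1 t ht
    have h4 : (0 : ℝ) < ((B.filter (good t)).card : ℝ) := lt_of_lt_of_le (by positivity) h3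
    have h5 : 0 < (B.filter (good t)).card := by exact_mod_cast h4
    obtain ⟨D, hD⟩ := card_pos.1 h5
    exact ⟨D, (mem_filter.1 hD).1⟩
  have hcon' : ∀ D ∈ B, ∑ t ∈ T.filter (fun t => good t D), w t < δ / 2 * ∑ t ∈ T, w t := by
    intro D hD
    rw [hB, mem_filter] at hD
    exact hcon D hD.1 hD.2
  have hW : 0 ≤ δ / 2 * ∑ t ∈ T, w t := mul_nonneg (by linarith) (sum_nonneg hw)
  have h6 : ∑ D ∈ B, ∑ t ∈ T.filter (fun t => good t D), w t < ∑ D ∈ B, δ / 2 * ∑ t ∈ T, w t :=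
    sum_lt_sum_of_nonempty hBn hcon'
  rw [sum_const, nsmul_eq_mul] at h6
  have h7 : (B.card : ℝ) * (δ / 2 * ∑ t ∈ T, w t) ≤ (X.card : ℝ) ^ 5 * (δ / 2 * ∑ t ∈ T, w t) :=
    mul_le_mul_of_nonneg_right hBc hW
  nlinarith [h2, h6, h7]

/-- the potential -/
noncomputable def cov_pot {V : Type} {τ : Type} (T : Finset τ) (good : τ → Dat V → Prop) (D : ℕ → Dat V) (m : ℕ) : ℝ :=
  ∑ t ∈ T, (1 / 2 : ℝ) ^ ((range m).filter (fun i => good t (D i))).card

theorem cov_pot_congr {V : Type} {τ : Type} (T : Finset τ) (good : τ → Dat V → Prop) (D D' : ℕ → Dat V) (m : ℕ)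
    (h : ∀ i < m, D i = D' i) : cov_pot T good D m = cov_pot T good D' m := by
  unfold cov_pot
  refine sum_congr rfl (fun t _ => ?_)
  congr 2
  refine filter_congr (fun i hi => ?_)
  rw [h i (mem_range.1 hi)]

theorem cov_pot_succ {V : Type} {τ : Type} (T : Finset τ) (good : τ → Dat V → Prop) (D : ℕ → Dat V) (m : ℕ) :
    cov_pot T good D (m + 1) = cov_pot T good D m - 1 / 2 * ∑ t ∈ T.filter (fun t => good t (D m)),
      (1 / 2 : ℝ) ^ ((range m).filter (fun i => good t (D i))).card := by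
  unfold cov_pot
  rw [mul_sum, sum_filter, ← sum_sub_distrib]
  refine sum_congr rfl (fun t _ => ?_)
  rw [range_add_one, filter_insert]
  split_ifs with h
  · rw [card_insert_of_notMem (by simp), pow_succ]
    ring
  · ring

theorem cov_seq {V : Type} {X : Finset V} {δ : ℝ} (hδ : 0 < δ) (hδ1 : δ ≤ 1) (hX : 0 < X.card) {τ : Type} (T : Finset τ)
    (hT : T.Nonempty) (good : τ → Dat V → Prop)
    (hg : ∀ t ∈ T, δ * (X.card : ℝ) ^ 5 ≤ (((box X).filter (good t)).card : ℝ)) (F₀ : Finset V) (N : ℕ)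
    (hF : 10 * (F₀.card + 5 * N : ℝ) ≤ δ * X.card) : ∀ m ≤ N, ∃ D : ℕ → Dat V, (∀ i < m, D i ∈ box X ∧
      (∃ t ∈ T, good t (D i)) ∧ Disjoint (supp (D i)) F₀) ∧
      (∀ i < m, ∀ j < m, i ≠ j → Disjoint (supp (D i)) (supp (D j))) ∧
      ∀ j ≤ m, cov_pot T good D j ≤ (1 - δ / 4) ^ j * T.card := by
  intro m
  induction m with
  | zero =>
    intro _
    obtain ⟨x, hx⟩ := card_pos.1 hX
    refine ⟨fun _ => (x, x, x, x, x), by simp, by simp, ?_⟩
    intro j hj
    obtain rfl : j = 0 := by omega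
    simp [cov_pot]
  | succ m ih =>
    intro hm
    obtain ⟨D, h1, h2, h3⟩ := ih (by omega)
    set F : Finset V := F₀ ∪ (range m).biUnion (fun i => supp (D i)) with hFdef
    have hFc : F.card ≤ F₀.card + 5 * N := by
      have e1 := card_union_le F₀ ((range m).biUnion (fun i => supp (D i)))
      have e2 : ((range m).biUnion (fun i => supp (D i))).card ≤ m * 5 := by
        refine card_biUnion_le.trans ?_
        refine (sum_le_card_nsmul _ _ 5 (fun i _ => ?_)).trans ?_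
        · unfold supp
          exact card_le_five
        · rw [card_range, smul_eq_mul]
      rw [hFdef]
      omega
    have hFr : 10 * (F.card : ℝ) ≤ δ * X.card := by
      have : (F.card : ℝ) ≤ F₀.card + 5 * N := by exact_mod_cast hFc
      linarith
    obtain ⟨E, hE, hEF, hEw⟩ := cov_step hδ hX T hT good hg F hFr
      (fun t => (1 / 2 : ℝ) ^ ((range m).filter (fun i => good t (D i))).card) (fun t _ => by positivity)
    set D' : ℕ → Dat V := Function.update D m E with hD'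
    have hne : ∀ i < m, D' i = D i := fun i hi => Function.update_of_ne (by omega) _ _
    have hm' : D' m = E := Function.update_self _ _ _
    have hgood : ∃ t ∈ T, good t E := by
      by_contra hcon
      push Not at hcon
      have e1 : T.filter (fun t => good t E) = ∅ := filter_eq_empty_iff.2 (fun t ht => hcon t ht)
      rw [e1, sum_empty] at hEw
      have e2 : 0 < ∑ t ∈ T, (1 / 2 : ℝ) ^ ((range m).filter (fun i => good t (D i))).card :=
        sum_pos (fun t _ => by positivity) hT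
      have e3 : 0 < δ / 2 * ∑ t ∈ T, (1 / 2 : ℝ) ^ ((range m).filter (fun i => good t (D i))).card := by positivity
      linarith
    refine ⟨D', ?_, ?_, ?_⟩
    · intro i hi
      rcases Nat.lt_succ_iff_lt_or_eq.1 hi with h | rfl
      · rw [hne i h]; exact h1 i h
      · rw [hm']; exact ⟨hE, hgood, hEF.mono_right subset_union_left⟩
    · have key : ∀ i < m, Disjoint (supp E) (supp (D i)) := fun i hi =>
        hEF.mono_right ((subset_biUnion_of_mem (fun i => supp (D i)) (mem_range.2 hi)).trans subset_union_right)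
      intro i hi j hj hij
      rcases Nat.lt_succ_iff_lt_or_eq.1 hi with h | rfl
      · rcases Nat.lt_succ_iff_lt_or_eq.1 hj with h' | rfl
        · rw [hne i h, hne j h']; exact h2 i h j h' hij
        · rw [hne i h, hm']; exact (key i h).symm
      · rcases Nat.lt_succ_iff_lt_or_eq.1 hj with h' | rfl
        · rw [hm', hne j h']; exact key j h'
        · exact absurd rfl hij
    · intro j hj
      rcases Nat.lt_or_ge m j with h | h
      · obtain rfl : j = m + 1 := by omega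
        rw [cov_pot_succ, cov_pot_congr T good D' D m hne, hm']
        have e1 : ∑ t ∈ T.filter (fun t => good t E), (1 / 2 : ℝ) ^ ((range m).filter (fun i => good t (D' i))).card =
            ∑ t ∈ T.filter (fun t => good t E), (1 / 2 : ℝ) ^ ((range m).filter (fun i => good t (D i))).card := by
          refine sum_congr rfl (fun t _ => ?_)
          congr 2
          refine filter_congr (fun i hi => ?_)
          rw [hne i (mem_range.1 hi)]
        rw [e1]
        have e2 := h3 m le_rfl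
        have e3 : δ / 2 * cov_pot T good D m ≤ ∑ t ∈ T.filter (fun t => good t E),
            (1 / 2 : ℝ) ^ ((range m).filter (fun i => good t (D i))).card := hEw
        have e4 : (1 - δ / 4) * cov_pot T good D m ≤ (1 - δ / 4) * ((1 - δ / 4) ^ m * T.card) :=
          mul_le_mul_of_nonneg_left e2 (by linarith)
        rw [pow_succ]
        nlinarith [e3, e4]
      · rw [cov_pot_congr T good D' D j (fun i hi => hne i (by omega))]
        exact h3 j h

theorem cov_num (K₀ : ℕ) {δ : ℝ} (hδ : 0 < δ) (hδ1 : δ ≤ 1) : ∃ M₀ : ℕ, ∀ M : ℕ, M₀ ≤ M →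
    (1 - δ / 4) ^ M * (2 * ((M : ℝ) + 1) ^ 16) < (1 / 2 : ℝ) ^ K₀ := by
  have hr0 : (0 : ℝ) < 1 - δ / 4 := by linarith
  have hr : |1 - δ / 4| < 1 := by rw [abs_of_pos hr0]; linarith
  have h := tendsto_pow_const_mul_const_pow_of_abs_lt_one 16 hr
  have h2 := (h.eventually_lt_const (show (0 : ℝ) < (1 - δ / 4) * ((1 / 2 : ℝ) ^ K₀ / 2) by positivity))
  obtain ⟨M₀, hM₀⟩ := Filter.eventually_atTop.1 h2
  refine ⟨M₀, fun M hM => ?_⟩
  have h3 := hM₀ (M + 1) (by omega)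
  push_cast at h3
  rw [pow_succ (1 - δ / 4) M] at h3
  have h4 : (1 - δ / 4) * (((M : ℝ) + 1) ^ 16 * (1 - δ / 4) ^ M) < (1 - δ / 4) * ((1 / 2 : ℝ) ^ K₀ / 2) := by
    linarith [h3]
  have h5 := lt_of_mul_lt_mul_left h4 hr0.le
  linarith

theorem cover (K₀ : ℕ) {δ : ℝ} (hδ : 0 < δ) : ∃ n₁ : ℕ, ∀ {V : Type} {X : Finset V}, n₁ ≤ X.card → ∀ {τ : Type}
    (𝒯 : Finset τ), 𝒯.Nonempty → 𝒯.card ≤ 2 * X.card ^ 2 → ∀ (good : τ → Dat V → Prop),
    (∀ t ∈ 𝒯, δ * (X.card : ℝ) ^ 5 ≤ (((box X).filter (good t)).card : ℝ)) → ∀ (F₀ : Finset V), F₀.card ^ 2 ≤ X.card →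
    ∀ M : ℕ, X.card ≤ (M + 1) ^ 8 → M ^ 8 ≤ X.card → ∃ D : ℕ → Dat V, (∀ i < 3 * M, D i ∈ box X ∧ (∃ t ∈ 𝒯, good t (D i)) ∧
      Disjoint (supp (D i)) F₀) ∧ (∀ i < 3 * M, ∀ j < 3 * M, i ≠ j → Disjoint (supp (D i)) (supp (D j))) ∧
      ∀ t ∈ 𝒯, K₀ < ((range M).filter (fun i => good t (D i))).card := by
  set ε : ℝ := min δ 1 with hε
  have hε0 : 0 < ε := lt_min hδ one_pos
  have hε1 : ε ≤ 1 := min_le_right _ _
  obtain ⟨M₀, hM₀⟩ := cov_num K₀ hε0 hε1
  refine ⟨(M₀ + 1) ^ 8 + ⌈45200 / ε ^ 2⌉₊ + 1, ?_⟩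
  intro V X hX τ T hT hTc good hg F₀ hF₀ M hM1 hM2
  have hn0 : 0 < X.card := by omega
  have hMM : M₀ ≤ M := by
    by_contra hcon
    have h1 : M + 1 ≤ M₀ + 1 := by omega
    have h2 := Nat.pow_le_pow_left h1 8
    omega
  have hnr : (45200 : ℝ) / ε ^ 2 ≤ X.card := by
    refine (Nat.le_ceil _).trans ?_
    exact_mod_cast (by omega : ⌈45200 / ε ^ 2⌉₊ ≤ X.card)
  have hXr : (0 : ℝ) < X.card := by exact_mod_cast hn0
  have hg' : ∀ t ∈ T, ε * (X.card : ℝ) ^ 5 ≤ (((box X).filter (good t)).card : ℝ) := fun t ht =>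
    (mul_le_mul_of_nonneg_right (min_le_left _ _) (by positivity)).trans (hg t ht)
  have hMn : (M : ℝ) ^ 2 ≤ X.card := by
    have h1 : M ^ 2 ≤ M ^ 8 := by
      rcases Nat.eq_zero_or_pos M with rfl | h
      · norm_num
      · exact Nat.pow_le_pow_right h (by norm_num)
    exact_mod_cast h1.trans hM2
  have hFn : (F₀.card : ℝ) ^ 2 ≤ X.card := by exact_mod_cast hF₀
  have hF : 10 * (F₀.card + 5 * (3 * M : ℕ) : ℝ) ≤ ε * X.card := by
    push_cast
    refine le_of_sq_le_sq ?_ (by positivity)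
    have h1 : (45200 : ℝ) ≤ X.card * ε ^ 2 := by
      rwa [div_le_iff₀ (by positivity)] at hnr
    have h2 : (10 * ((F₀.card : ℝ) + 5 * (3 * M))) ^ 2 ≤ 45200 * X.card := by
      nlinarith [sq_nonneg ((F₀.card : ℝ) - 15 * M)]
    have h3 : 45200 * (X.card : ℝ) ≤ X.card * ε ^ 2 * X.card := mul_le_mul_of_nonneg_right h1 hXr.le
    nlinarith
  obtain ⟨D, h1, h2, h3⟩ := cov_seq hε0 hε1 hn0 T hT good hg' F₀ (3 * M) hF (3 * M) le_rfl
  refine ⟨D, h1, h2, ?_⟩
  intro t ht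
  by_contra hcon
  push Not at hcon
  have e1 := h3 M (by omega)
  have e2 : (1 / 2 : ℝ) ^ K₀ ≤ cov_pot T good D M := by
    refine le_trans ?_ (single_le_sum (f := fun t => (1 / 2 : ℝ) ^ ((range M).filter (fun i => good t (D i))).card)
      (fun t _ => by positivity) ht)
    exact pow_le_pow_of_le_one (by norm_num) (by norm_num) hcon
  have e3 : (T.card : ℝ) ≤ 2 * ((M : ℝ) + 1) ^ 16 := by
    have : T.card ≤ 2 * (M + 1) ^ 16 := by
      refine hTc.trans (Nat.mul_le_mul_left _ ?_)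
      calc X.card ^ 2 ≤ ((M + 1) ^ 8) ^ 2 := Nat.pow_le_pow_left hM1 2
        _ = (M + 1) ^ 16 := by rw [← pow_mul]
    exact_mod_cast this
  have e4 := hM₀ M hMM
  have e5 : (1 - ε / 4) ^ M * (T.card : ℝ) ≤ (1 - ε / 4) ^ M * (2 * ((M : ℝ) + 1) ^ 16) :=
    mul_le_mul_of_nonneg_left e3 (pow_nonneg (by linarith) _)
  linarith

end AESP
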