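import Pool.Agent.AESP.Defs
import Pool.Agent.AEX.Four

/-!
# Small items, one after the other
-/

set_option autoImplicit false

namespace AESP

open Finset AE15 AED AELT AEX AESK
open scoped Classical

variable {V : Type} {R : V → V → Prop}

/-- small items are embedded one after the other, each inside the neighbourhood of its host -/
theorem crude_items {b r : ℕ} (hT : AE32.Tour R) {Q : Finset V} (I : List (V × (Bool × Fd)))
    (hI : ∀ t ∈ I, t.2.2.len ≤ b ∧ t.2.2.Deg b ∧ r ≤ (nb R t.2.1 Q t.1).card) (W : Finset V)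
    (hr : 4 * tsz (I.map Prod.snd) + W.card ≤ r) : ∃ A ⊆ Q, Disjoint A W ∧ EmbI R I A := by
  induction I generalizing W with
  | nil => exact ⟨∅, empty_subset _, disjoint_empty_left _, rfl⟩
  | cons t I ih =>
    obtain ⟨h1, h2, h3⟩ := hI t List.mem_cons_self
    rw [List.map_cons, tsz_cons] at hr
    have hsd : (nb R t.2.1 Q t.1).card ≤ ((nb R t.2.1 Q t.1) \ W).card + W.card := by
      have h6 := le_card_sdiff W (nb R t.2.1 Q t.1)
      omega
    have hbig : 4 * (t.2.2.size + 1) ≤ ((nb R t.2.1 Q t.1) \ W).card := by omega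
    obtain ⟨x, hx, B, hB, hxB, -, hE⟩ := AEX.un_four hT b t.2.2 h1 h2 ((nb R t.2.1 Q t.1) \ W) (by
      have h6 : ((4 * (t.2.2.size + 1) : ℕ) : ℝ) ≤ (((nb R t.2.1 Q t.1) \ W).card : ℝ) := by exact_mod_cast hbig
      push_cast at h6
      linarith)
    have hi : (insert x B).card = t.2.2.size + 1 := by
      rw [card_insert_of_notMem hxB, hE.card]
    obtain ⟨A, hA, hAW, hEA⟩ := ih (fun r hr => hI r (List.mem_cons_of_mem _ hr)) (W ∪ insert x B) (by
      have h6 : (W ∪ insert x B).card ≤ W.card + (insert x B).card := card_union_le _ _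
      omega)
    rw [disjoint_union_right] at hAW
    have hiN : insert x B ⊆ (nb R t.2.1 Q t.1) \ W := insert_subset hx hB
    refine ⟨insert x B ∪ A, ?_, ?_, ?_⟩
    · refine union_subset ?_ hA
      exact hiN.trans (sdiff_subset.trans (filter_subset _ _))
    · rw [disjoint_union_left]
      refine ⟨?_, hAW.1⟩
      rw [disjoint_left]
      intro a ha
      exact (mem_sdiff.1 (hiN ha)).2
    · refine ⟨insert x B, A, hAW.2.symm, rfl, ⟨insert x B, ∅, disjoint_empty_right _, (union_empty _).symm,
        ⟨x, B, ?_, hxB, rfl, hE⟩, rfl⟩, hEA⟩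
      exact (mem_filter.1 (mem_sdiff.1 hx).1).2

end AESP
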