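import Pool.Agent.AEX.Chain
import Pool.Agent.AESK.PE

/-!
# Spanning trees in expanding tournaments: definitions

A hole is a vertex of the tree whose host can still be chosen, from the vertices satisfying a condition which is given by
five prescribed vertices.
-/

set_option autoImplicit false

namespace AESP

open Finset AE15 AED AELT AEX AESK
open scoped Classical

variable {V : Type} {R : V → V → Prop}

/-- the kinds of holes: `com e`: a leaf joined to its neighbour by an arc of sign `e`, or a vertex of degree two both of
whose neighbours are joined to it by arcs of sign `e`; `dir`: on a directed path a vertex is inserted at one place or at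
another place -/
inductive Kind : Type
  | com (e : Bool) : Kind
  | dir : Kind

/-- the data of a hole: `(a, c, y, g₁, g₂)` -/
abbrev Dat (V : Type) : Type := V × V × V × V × V

/-- the tuples of elements of `X` -/
def box (X : Finset V) : Finset (Dat V) := X ×ˢ X ×ˢ X ×ˢ X ×ˢ X

/-- the vertices of the data -/
noncomputable def supp (D : Dat V) : Finset V := {D.1, D.2.1, D.2.2.1, D.2.2.2.1, D.2.2.2.2}

/-- the vertex which fills the hole at the beginning -/
def yv (D : Dat V) : V := D.2.2.1

/-- the condition on the vertices which fill the hole -/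
def Cnd (R : V → V → Prop) : Kind → Dat V → V → Prop
  | .com e, D, x => Adj R e D.1 x ∧ Adj R e D.2.1 x
  | .dir, D, x => x = yv D ∨ (R D.1 x ∧ R x D.2.1)

/-- correct data: distinct vertices with the necessary arcs -/
def Okd (R : V → V → Prop) : Kind → Dat V → Prop
  | .com e, D => (supp D).card = 5 ∧ Adj R e D.1 (yv D) ∧ Adj R e D.2.1 (yv D)
  | .dir, D => (supp D).card = 5 ∧ R D.1 D.2.1 ∧ R D.2.2.2.1 (yv D) ∧ R (yv D) D.2.2.2.2 ∧ R D.2.2.2.1 D.2.2.2.2

/-- The items `I` (hosts and trees) are embedded on the set `Z`, but for the holes `i ∈ H`, which may be filled by any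
vertices satisfying the conditions `C i`, and the items of the list `J`, which may be embedded anywhere. -/
def HI (R : V → V → Prop) {ι : Type} (C : ι → V → Prop) (I : List (V × (Bool × Fd))) (Z : Finset V) (H : Finset ι)
    (J : List (V × (Bool × Fd))) : Prop :=
  ∀ g : ι → V, (∀ i ∈ H, C i (g i)) → Set.InjOn g (H : Set ι) → Disjoint Z (H.image g) → ∀ A : Finset V,
    Disjoint (Z ∪ H.image g) A → EmbI R J A → EmbI R I (Z ∪ H.image g ∪ A)

/-- A path from the root of the tree `p` to a place for a hole: the vertices of `l` (with side trees), one more vertex with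
the side trees `s`, and then a leaf (`leaf`); or a vertex of degree two where the sign changes, and the next vertex (`turn`);
or a directed path (`dir`). `J` is the list of the trees which hang on the path. `L` is the number of the inner vertices of
a connection. -/
inductive Gad (L : ℕ) (p : Bool × Fd) (l : List (Bool × List (Bool × Fd))) : Kind → List (Bool × Fd) → Prop
  | leaf (d : Bool) (s : List (Bool × Fd)) (e : Bool) : Spine (l ++ [(d, s)]) p (e, .nil) →
      Gad L p l (.com e) ((l.map Prod.snd).flatten ++ s)
  | turn (d : Bool) (s : List (Bool × Fd)) (e : Bool) (c : Fd) : Spine (l ++ [(d, s), (e, [])]) p (!e, c) →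
      Gad L p l (.com e) ((l.map Prod.snd).flatten ++ s ++ c.trees)
  | dir (d : Bool) (s : List (Bool × Fd)) (e : Bool) (c : Fd) :
      Spine (l ++ [(d, s)] ++ List.replicate (L + 3) (e, [])) p (e, c) →
      Gad L p l .dir ((l.map Prod.snd).flatten ++ s ++ c.trees)

/-- `n` holes are found one after the other, starting from the trees `ts`; `fin` is the list of the trees which hang on the
vertices used -/
inductive Xp (L Λ : ℕ) : ℕ → List (Bool × Fd) → List (Bool × Fd) → Prop
  | nil (ts : List (Bool × Fd)) : Xp L Λ 0 ts ts
  | step (n : ℕ) (p : Bool × Fd) (l : List (Bool × List (Bool × Fd))) (k : Kind) (J ts ts' fin : List (Bool × Fd)) :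
      ts.Perm (p :: ts') → Gad L p l k J → L ≤ l.length → l.length ≤ Λ → Xp L Λ n (J ++ ts') fin → Xp L Λ (n + 1) ts fin

/-- **Richness**: for every vertex `h` and sign `d` the vertices have levels at most `J`, level `0` consists of neighbours
of `h` of sign `d`, and for every other vertex `x` many data allow to fill the hole with `x` and release a vertex of a
lower level -/
def Rich (R : V → V → Prop) (X : Finset V) (k : Kind) (J : ℕ) (δ : ℝ) : Prop :=
  ∀ h ∈ X, ∀ d : Bool, ∃ lev : V → ℕ, (∀ x, lev x ≤ J) ∧ (∀ x ∈ X, x ≠ h → lev x = 0 → Adj R d h x) ∧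
    ∀ x ∈ X, x ≠ h → 0 < lev x →
      δ * (X.card : ℝ) ^ 5 ≤ (((box X).filter (fun D => Okd R k D ∧ Cnd R k D x ∧ lev (yv D) < lev x)).card : ℝ)

/-- the same for a sequence of `M` data: more than `K₀` of them -/
def RichS (R : V → V → Prop) (X : Finset V) (k : Kind) (J K₀ M : ℕ) (D : ℕ → Dat V) : Prop :=
  ∀ h ∈ X, ∀ d : Bool, ∃ lev : V → ℕ, (∀ x, lev x ≤ J) ∧ (∀ x ∈ X, x ≠ h → lev x = 0 → Adj R d h x) ∧
    ∀ x ∈ X, x ≠ h → 0 < lev x →
      K₀ < ((range M).filter (fun i => Cnd R k (D i) x ∧ lev (yv (D i)) < lev x)).card

end AESP
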