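import Pool.Agent.AESP.Defs

/-!
# The dichotomy for a tree with a given root
-/

set_option autoImplicit false

namespace AESP

open Finset AE15 AED AELT AEX AESK
open scoped Classical

namespace DichP

theorem cut_one (F : Fd) {p : Bool × Fd} (hp : p ∈ F.trees) {p' : Fd} {L : List (Bool × Fd)} (h : Cut p.2 p' L) :
    ∃ F', Cut F F' L := by
  induction F with
  | nil => simp [Fd.trees] at hp
  | node d c t _ iht =>
    simp only [Fd.trees, List.mem_cons] at hp
    rcases hp with rfl | hp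
    · refine ⟨.node d p' t, ?_⟩
      have h1 := Cut.keep d c t p' t L [] h (Cut.refl t)
      rwa [List.append_nil] at h1
    · obtain ⟨t', ht'⟩ := iht hp
      exact ⟨.node d c t', Cut.keep d c t c t' [] L (Cut.refl c) ht'⟩

theorem cut_two (F : Fd) {p r : Bool × Fd} {s : List (Bool × Fd)} (h : F.trees.Perm (p :: r :: s)) {p' r' : Fd}
    {L M : List (Bool × Fd)} (hp : Cut p.2 p' L) (hr : Cut r.2 r' M) :
    ∃ F' N, Cut F F' N ∧ (N = L ++ M ∨ N = M ++ L) := by
  induction F generalizing s with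
  | nil => simp [Fd.trees] at h
  | node d c t _ iht =>
    have hmem : (d, c) ∈ p :: r :: s := h.mem_iff.1 (by simp [Fd.trees])
    have h0 : List.Perm ((d, c) :: t.trees) (p :: r :: s) := h
    rcases List.mem_cons.1 hmem with h1 | h1
    · rw [← h1] at h0
      have h2 : t.trees.Perm (r :: s) := h0.cons_inv
      obtain ⟨t', ht'⟩ := cut_one t (h2.mem_iff.2 (by simp)) hr
      rw [← h1] at hp
      exact ⟨.node d p' t', L ++ M, Cut.keep d c t p' t' L M hp ht', Or.inl rfl⟩
    · rcases List.mem_cons.1 h1 with h2 | h2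
      · have h3 : List.Perm ((d, c) :: t.trees) (r :: p :: s) := h0.trans (List.Perm.swap _ _ _)
        rw [← h2] at h3
        have h4 : t.trees.Perm (p :: s) := h3.cons_inv
        obtain ⟨t', ht'⟩ := cut_one t (h4.mem_iff.2 (by simp)) hp
        rw [← h2] at hr
        exact ⟨.node d r' t', M ++ L, Cut.keep d c t r' t' M L hr ht', Or.inr rfl⟩
      · have h3 : s.Perm ((d, c) :: s.erase (d, c)) := List.perm_cons_erase h2
        have h4 : List.Perm (p :: r :: s) ((d, c) :: p :: r :: s.erase (d, c)) :=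
          ((h3.cons r).cons p).trans (((List.Perm.swap _ _ _).cons p).trans (List.Perm.swap _ _ _))
        have h5 : t.trees.Perm (p :: r :: s.erase (d, c)) := (h0.trans h4).cons_inv
        obtain ⟨t', N, h6, h7⟩ := iht h5
        exact ⟨.node d c t', N, Cut.keep d c t c t' [] N (Cut.refl c) h6, h7⟩

theorem spine_cut {l : List (Bool × List (Bool × Fd))} {p q : Bool × Fd} (h : Spine l p q) {q' : Fd}
    {N : List (Bool × Fd)} (hq : Cut q.2 q' N) : ∃ p', Cut p.2 p' N := by
  induction h with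
  | nil p => exact ⟨q', hq⟩
  | cons d c s p q l hperm _ ih =>
    obtain ⟨p', hp'⟩ := ih hq
    exact cut_one c (hperm.mem_iff.2 (by simp)) hp'

/-- hosts for two deleted trees -/
theorem cut_emb2 {c c' : Fd} {p₁ p₂ : Bool × Fd} {N : List (Bool × Fd)} (h : Cut c c' N)
    (hN : N = [p₁] ++ [p₂] ∨ N = [p₂] ++ [p₁]) {V : Type} {R : V → V → Prop} {y : V} {S : Finset V}
    (hE : Emb R c' y S) : ∃ u₁ ∈ insert y S, ∃ u₂ ∈ insert y S, ∀ A, Disjoint A (insert y S) →
      EmbI R [(u₁, p₁), (u₂, p₂)] A → Emb R c y (S ∪ A) := by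
  obtain ⟨I, h1, h2, h3⟩ := h.emb hE
  have hin : ∀ t ∈ I, t.1 ∈ insert y S := fun t ht => by
    rcases h2 t ht with h4 | h4
    · rw [h4]; exact mem_insert_self _ _
    · exact mem_insert_of_mem h4
  have hdis : ∀ A : Finset V, Disjoint A (insert y S) → Disjoint S A := fun A hA =>
    (disjoint_of_subset_right (subset_insert _ _) hA).symm
  rcases hN with hN | hN
  · rw [hN] at h1
    obtain ⟨t₁, I₁, rfl, h5, h6⟩ := List.map_eq_cons_iff.1 h1
    obtain ⟨t₂, I₂, rfl, h7, h8⟩ := List.map_eq_cons_iff.1 h6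
    rw [List.map_eq_nil_iff] at h8
    subst h8
    subst h5
    subst h7
    exact ⟨t₁.1, hin t₁ (by simp), t₂.1, hin t₂ (by simp), fun A hA hI => h3 A hI (hdis A hA)⟩
  · rw [hN] at h1
    obtain ⟨t₂, I₁, rfl, h5, h6⟩ := List.map_eq_cons_iff.1 h1
    obtain ⟨t₁, I₂, rfl, h7, h8⟩ := List.map_eq_cons_iff.1 h6
    rw [List.map_eq_nil_iff] at h8
    subst h8
    subst h5
    subst h7
    exact ⟨t₁.1, hin t₁ (by simp), t₂.1, hin t₂ (by simp), fun A hA hI =>
      h3 A (EmbI.perm (List.Perm.swap _ _ _) hI) (hdis A hA)⟩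

theorem tsz_perm {L M : List (Bool × Fd)} (h : L.Perm M) : tsz L = tsz M := (h.map _).sum_eq

theorem tsz_le {L : List (Bool × Fd)} {s : ℕ} (h : ∀ p ∈ L, p.2.size ≤ s) : tsz L ≤ L.length * (s + 1) := by
  induction L with
  | nil => simp [tsz]
  | cons p L ih =>
    rw [tsz_cons, List.length_cons, add_mul, one_mul]
    have h1 := h p (by simp)
    have h2 := ih fun q hq => h q (by simp [hq])
    omega

end DichP

open DichP in
theorem dich (b : ℕ) (hb : 1 ≤ b) {ε : ℝ} (hε : 0 < ε) (hε1 : ε ≤ 1 / 4) : ∃ n₀ : ℕ, ∀ (c : Fd) (n₁ m₁ m₂ : ℕ), c.len ≤ b →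
    c.Deg b → n₀ ≤ c.size → 1 ≤ n₁ → 1 ≤ m₁ → (n₁ * (b ^ 2 * (m₁ + 2)) : ℝ) ≤ ε / 8 * c.size → (4 * b ^ 2 * m₂ : ℝ) ≤ c.size →
    (∃ (l : List (Bool × List (Bool × Fd))) (q : Bool × Fd), Spine l (true, c) q ∧ n₁ ≤ l.length ∧
      (psz l : ℝ) ≤ ε * c.size) ∨
    ∃ (c' : Fd) (p₁ p₂ : Bool × Fd), c.size = c'.size + (p₁.2.size + 1) + (p₂.2.size + 1) ∧ c'.len ≤ b ∧ c'.Deg b ∧
      p₁.2.len ≤ b ∧ p₁.2.Deg b ∧ p₂.2.len ≤ b ∧ p₂.2.Deg b ∧ m₁ < p₁.2.size + 1 ∧ p₁.2.size + 1 ≤ b * m₁ + 1 ∧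
      m₂ < p₂.2.size + 1 ∧ p₂.2.size + 1 ≤ b * m₂ + 1 ∧
      ∀ {V : Type} {R : V → V → Prop} {y : V} {S : Finset V}, Emb R c' y S → y ∉ S →
        ∃ u₁ ∈ insert y S, ∃ u₂ ∈ insert y S, ∀ A, Disjoint A (insert y S) → EmbI R [(u₁, p₁), (u₂, p₂)] A →
          Emb R c y (S ∪ A) := by
  refine ⟨4 * b, ?_⟩
  intro c n₁ m₁ m₂ hl hd hn₀ hn₁ hm₁ hK hm₂
  set K : ℕ := b ^ 2 * (m₁ + 2) with hKdef
  have hb0 : (1 : ℝ) ≤ b := by exact_mod_cast hb
  have hN : (4 : ℝ) * b ≤ c.size := by exact_mod_cast hn₀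
  have hKr : (n₁ : ℝ) * (K : ℝ) ≤ ε / 8 * c.size := by
    rw [hKdef]
    push_cast
    exact hK
  -- the walk along the heavy path
  have walk : ∀ j ≤ n₁, (∃ (c' : Fd) (p₁ p₂ : Bool × Fd) (N : List (Bool × Fd)), Cut c c' N ∧
      (N = [p₁] ++ [p₂] ∨ N = [p₂] ++ [p₁]) ∧ m₁ < p₁.2.size + 1 ∧ p₁.2.size + 1 ≤ b * m₁ + 1 ∧
      m₂ < p₂.2.size + 1 ∧ p₂.2.size + 1 ≤ b * m₂ + 1) ∨
      ∃ (l : List (Bool × List (Bool × Fd))) (q : Bool × Fd), Spine l (true, c) q ∧ l.length = j ∧
        psz l ≤ j * K := by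
    intro j
    induction j with
    | zero =>
      intro _
      exact Or.inr ⟨[], (true, c), Spine.nil _, rfl, by simp [psz]⟩
    | succ j ih =>
      intro hj
      rcases ih (by omega) with h | ⟨l, q, hsp, hlen, hpsz⟩
      · exact Or.inl h
      · have hsize := spine_size hsp
        simp only at hsize
        have h1 : (psz l : ℝ) ≤ ε / 8 * c.size := by
          refine le_trans ?_ hKr
          have h2 : (j : ℝ) ≤ n₁ := by exact_mod_cast (by omega : j ≤ n₁)
          calc (psz l : ℝ) ≤ ((j * K : ℕ) : ℝ) := by exact_mod_cast hpsz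
            _ = (j : ℝ) * K := by push_cast; ring
            _ ≤ n₁ * K := mul_le_mul_of_nonneg_right h2 (Nat.cast_nonneg _)
        have hsr : (c.size : ℝ) = q.2.size + psz l := by
          have : c.size = q.2.size + psz l := by omega
          exact_mod_cast this
        have hqr : (31 / 32 : ℝ) * c.size ≤ q.2.size := by
          have h3 : ε / 8 * c.size ≤ 1 / 32 * c.size :=
            mul_le_mul_of_nonneg_right (by linarith) (Nat.cast_nonneg _)
          linarith
        have hqne : q.2 ≠ .nil := by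
          intro h0
          rw [h0] at hqr
          simp only [Fd.size, Nat.cast_zero] at hqr
          nlinarith
        obtain ⟨hql, hqd, -⟩ := spine_deg hsp hl hd
        obtain ⟨a, L, hperm, hbig⟩ := exists_large b q.2 hqne hql
        by_cases hside : ∃ p ∈ L, b * m₁ < p.2.size
        · left
          obtain ⟨p, hpL, hps⟩ := hside
          have hall := (Fd.deg_iff b q.2).1 hqd
          have hpq : p ∈ q.2.trees := hperm.mem_iff.2 (List.mem_cons_of_mem _ hpL)
          have haq : a ∈ q.2.trees := hperm.mem_iff.2 (by simp)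
          obtain ⟨p', p₁, k1, k2, k3⟩ := one_branch b m₁ p.2 (hall p hpq).1 (hall p hpq).2 hps
          have has : b * m₂ < a.2.size := by
            have h4 : (q.2.size : ℝ) ≤ b * (a.2.size + 1) := by exact_mod_cast hbig
            have h5 : (31 / 32 : ℝ) * c.size ≤ b * (a.2.size + 1) := hqr.trans h4
            have h6 : (b : ℝ) * (b * m₂) ≤ c.size / 4 := by nlinarith
            have h7 : (b : ℝ) * (b * m₂) < b * a.2.size := by nlinarith
            have h8 : ((b * m₂ : ℕ) : ℝ) < a.2.size := by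
              push_cast
              exact lt_of_mul_lt_mul_left h7 (by linarith)
            exact_mod_cast h8
          obtain ⟨a', p₂, k4, k5, k6⟩ := one_branch b m₂ a.2 (hall a haq).1 (hall a haq).2 has
          have hperm' : q.2.trees.Perm (p :: a :: L.erase p) :=
            hperm.trans (((List.perm_cons_erase hpL).cons a).trans (List.Perm.swap _ _ _))
          obtain ⟨q', N, k7, k8⟩ := cut_two q.2 hperm' k1 k4
          obtain ⟨c', k9⟩ := spine_cut hsp k7
          exact ⟨c', p₁, p₂, N, k9, k8, k2, k3, k5, k6⟩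
        · right
          push Not at hside
          refine ⟨l ++ [(q.1, L)], a, spine_snoc hsp hperm, by rw [List.length_append, hlen]; rfl, ?_⟩
          rw [psz_append, psz_cons, psz_nil]
          have h4 := tsz_le hside
          have h5 : L.length ≤ b := by
            have h6 := hperm.length_eq
            rw [List.length_cons, ← Fd.len_eq] at h6
            omega
          have h6 : L.length * (b * m₁ + 1) ≤ b * (b * m₁ + 1) := Nat.mul_le_mul_right _ h5
          have h7 : 1 + b * (b * m₁ + 1) ≤ K := by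
            rw [hKdef]
            nlinarith
          rw [add_mul, one_mul]
          change psz l + (1 + tsz L + 0) ≤ j * K + K
          omega
  rcases walk n₁ le_rfl with ⟨c', p₁, p₂, N, h1, h2, h3, h4, h5, h6⟩ | ⟨l, q, h1, h2, h3⟩
  · right
    obtain ⟨e1, e2⟩ := h1.deg hd
    have hp₁ : p₁ ∈ N := by
      rcases h2 with rfl | rfl <;> simp
    have hp₂ : p₂ ∈ N := by
      rcases h2 with rfl | rfl <;> simp
    have hsz : c.size = c'.size + (p₁.2.size + 1) + (p₂.2.size + 1) := by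
      have h7 := h1.size
      rcases h2 with rfl | rfl
      · rw [tsz_append, tsz_cons, tsz_cons, tsz_nil] at h7
        omega
      · rw [tsz_append, tsz_cons, tsz_cons, tsz_nil] at h7
        omega
    refine ⟨c', p₁, p₂, hsz, h1.len_le.trans hl, e1, (e2 p₁ hp₁).1, (e2 p₁ hp₁).2, (e2 p₂ hp₂).1, (e2 p₂ hp₂).2,
      h3, h4, h5, h6, ?_⟩
    intro V R y S hE _
    exact cut_emb2 h1 h2 hE
  · left
    refine ⟨l, q, h1, h2.ge, ?_⟩
    calc (psz l : ℝ) ≤ ((n₁ * K : ℕ) : ℝ) := by exact_mod_cast h3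
      _ = (n₁ : ℝ) * K := by push_cast; ring
      _ ≤ ε / 8 * c.size := hKr
      _ ≤ ε * c.size := mul_le_mul_of_nonneg_right (by linarith) (Nat.cast_nonneg _)

end AESP
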