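import Pool.Agent.AESP.Defs

/-!
# Exploration: more pending trees; size and degrees of the pending trees
-/

set_option autoImplicit false

namespace AESP

open Finset AE15 AED AELT AEX AESK
open scoped Classical

/-- more pending trees -/
theorem Xp.frame {L Λ n : ℕ} {ts fin : List (Bool × Fd)} (h : Xp L Λ n ts fin) (us : List (Bool × Fd)) :
    Xp L Λ n (ts ++ us) (fin ++ us) := by
  induction h with
  | nil ts => exact Xp.nil (ts ++ us)
  | step n p l k J ts ts' fin hperm hG h1 h2 _ ih =>
    refine Xp.step n p l k J (ts ++ us) (ts' ++ us) (fin ++ us) ?_ hG h1 h2 ?_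
    · have := hperm.append_right us
      rwa [List.cons_append] at this
    · rwa [List.append_assoc] at ih

theorem tsz_append (l l' : List (Bool × Fd)) : tsz (l ++ l') = tsz l + tsz l' := by
  simp [tsz]

theorem psz_flatten (l : List (Bool × List (Bool × Fd))) :
    psz l = l.length + tsz (l.map Prod.snd).flatten := by
  induction l with
  | nil => simp [psz, tsz]
  | cons t l ih =>
    rw [psz_cons, ih, List.map_cons, List.flatten_cons, tsz_append, List.length_cons]
    omega

theorem psz_replicate (e : Bool) (n : ℕ) : psz (List.replicate n (e, ([] : List (Bool × Fd)))) = n := by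
  induction n with
  | zero => rfl
  | succ n ih =>
    rw [List.replicate_succ, psz_cons, ih]
    simp only [tsz, List.map_nil, List.sum_nil]
    omega

theorem pdeg_left {b : ℕ} {l l' : List (Bool × List (Bool × Fd))} (h : PDeg b (l ++ l')) : PDeg b l :=
  fun t ht => h t (List.mem_append_left _ ht)

theorem pdeg_flatten {b : ℕ} {l : List (Bool × List (Bool × Fd))} (h : PDeg b l) :
    (∀ q ∈ (l.map Prod.snd).flatten, q.2.len ≤ b ∧ q.2.Deg b) ∧ (l.map Prod.snd).flatten.length ≤ b * l.length := by
  induction l with
  | nil => simp
  | cons t l ih =>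
    have h1 := h t List.mem_cons_self
    obtain ⟨h2, h3⟩ := ih (fun t ht => h t (List.mem_cons_of_mem _ ht))
    rw [List.map_cons, List.flatten_cons]
    constructor
    · intro q hq
      rcases List.mem_append.1 hq with hq | hq
      · exact h1.2 q hq
      · exact h2 q hq
    · rw [List.length_append, List.length_cons, Nat.mul_succ]
      have := h1.1
      omega

theorem Gad.deg {b L : ℕ} {p : Bool × Fd} {l : List (Bool × List (Bool × Fd))} {k : Kind} {J : List (Bool × Fd)}
    (h : Gad L p l k J) (hl : p.2.len ≤ b) (hd : p.2.Deg b) : (∀ q ∈ J, q.2.len ≤ b ∧ q.2.Deg b) ∧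
      J.length ≤ b * (l.length + L + 5) ∧ tsz J < p.2.size + 1 ∧ p.2.size + 1 ≤ tsz J + (l.length + L + 5) := by
  have hbl : ∀ x : ℕ, x ≤ b * l.length + b + b → x ≤ b * (l.length + L + 5) := by
    intro x hx
    have : b * (l.length + L + 5) = b * l.length + b + b + b * (L + 3) := by ring
    omega
  cases h with
  | leaf d s e hS =>
    obtain ⟨-, -, h3⟩ := spine_deg hS hl hd
    have h4 := spine_size hS
    obtain ⟨h5, h6⟩ := pdeg_flatten (pdeg_left h3)
    have h7 := h3 (d, s) (List.mem_append_right _ List.mem_cons_self)
    rw [psz_append, psz_cons, psz_nil, psz_flatten] at h4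
    have h8 : (Fd.nil).size = 0 := rfl
    simp only [h8] at h4
    simp only at h7
    refine ⟨?_, ?_, ?_, ?_⟩
    · intro q hq
      rcases List.mem_append.1 hq with hq | hq
      · exact h5 q hq
      · exact h7.2 q hq
    · apply hbl
      rw [List.length_append]
      omega
    · rw [tsz_append]
      omega
    · rw [tsz_append]
      omega
  | turn d s e c hS =>
    obtain ⟨h1, h2, h3⟩ := spine_deg hS hl hd
    have h4 := spine_size hS
    obtain ⟨h5, h6⟩ := pdeg_flatten (pdeg_left h3)
    have h7 := h3 (d, s) (List.mem_append_right _ List.mem_cons_self)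
    have h9 : tsz c.trees = c.size := (Fd.size_eq c).symm
    have h10 : tsz ([] : List (Bool × Fd)) = 0 := rfl
    rw [psz_append, psz_cons, psz_cons, psz_nil, psz_flatten] at h4
    simp only [h10] at h4
    simp only at h7
    refine ⟨?_, ?_, ?_, ?_⟩
    · intro q hq
      rcases List.mem_append.1 hq with hq | hq
      · rcases List.mem_append.1 hq with hq | hq
        · exact h5 q hq
        · exact h7.2 q hq
      · exact (Fd.deg_iff b c).1 h2 q hq
    · apply hbl
      rw [List.length_append, List.length_append, ← Fd.len_eq]
      simp only at h1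
      omega
    · rw [tsz_append, tsz_append, h9]
      omega
    · rw [tsz_append, tsz_append, h9]
      omega
  | dir d s e c hS =>
    obtain ⟨h1, h2, h3⟩ := spine_deg hS hl hd
    have h4 := spine_size hS
    obtain ⟨h5, h6⟩ := pdeg_flatten (pdeg_left (pdeg_left h3))
    have h7 := h3 (d, s) (List.mem_append_left _ (List.mem_append_right _ List.mem_cons_self))
    have h9 : tsz c.trees = c.size := (Fd.size_eq c).symm
    rw [psz_append, psz_append, psz_cons, psz_nil, psz_flatten, psz_replicate] at h4
    simp only at h4
    simp only at h7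
    refine ⟨?_, ?_, ?_, ?_⟩
    · intro q hq
      rcases List.mem_append.1 hq with hq | hq
      · rcases List.mem_append.1 hq with hq | hq
        · exact h5 q hq
        · exact h7.2 q hq
      · exact (Fd.deg_iff b c).1 h2 q hq
    · apply hbl
      rw [List.length_append, List.length_append, ← Fd.len_eq]
      simp only at h1
      omega
    · rw [tsz_append, tsz_append, h9]
      omega
    · rw [tsz_append, tsz_append, h9]
      omega

end AESP
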