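import Pool.Agent.AESP.Gad1
import Pool.Agent.AESP.Xp0

/-!
# Exploration of an arbitrary tree: always the largest pending tree
-/

set_option autoImplicit false

namespace AESP

open Finset AE15 AED AELT AEX AESK
open scoped Classical

theorem Exp2.size_le_tsz {q : Bool × Fd} {J : List (Bool × Fd)} (h : q ∈ J) : q.2.size + 1 ≤ tsz J := by
  induction J with
  | nil => simp at h
  | cons r J ih =>
    rw [tsz_cons]
    rcases List.mem_cons.1 h with rfl | h
    · omega
    · have := ih h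
      omega

theorem Exp2.tsz_perm {I J : List (Bool × Fd)} (h : I.Perm J) : tsz I = tsz J := by
  unfold tsz
  exact (h.map _).sum_eq

theorem Exp2.tsz_le {K : ℕ} {J : List (Bool × Fd)} (h : ∀ q ∈ J, q.2.size < K) : tsz J ≤ K * J.length := by
  induction J with
  | nil => simp [tsz_nil]
  | cons r J ih =>
    rw [tsz_cons, List.length_cons]
    have h1 := h r (by simp)
    have h2 := ih (fun q hq => h q (by simp [hq]))
    have h3 : K * (J.length + 1) = K * J.length + K := by ring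
    omega

/-- the exploration of a list of trees -/
theorem Exp2.explore (b L : ℕ) {K₁ N Λ Λ' : ℕ} (hK₁ : ∀ p : Bool × Fd, p.2.len ≤ b → p.2.Deg b → K₁ ≤ p.2.size →
    ∃ (l : List (Bool × List (Bool × Fd))) (k : Kind) (J : List (Bool × Fd)), Gad L p l k J ∧ L ≤ l.length ∧
      l.length ≤ K₁ * (Nat.log 2 p.2.size + 1)) (hΛ : K₁ * (Nat.log 2 N + 1) ≤ Λ) (hΛ' : Λ ≤ Λ') : ∀ (n : ℕ) (ts : List (Bool × Fd)),
    (∀ q ∈ ts, q.2.len ≤ b ∧ q.2.Deg b ∧ q.2.size ≤ N) →
    K₁ * (ts.length + n * (b * (Λ + L + 5))) + n * (Λ + L + 5) ≤ tsz ts → ∃ fin : List (Bool × Fd),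
      Xp L Λ' n ts fin := by
  intro n
  induction n with
  | zero =>
    intro ts _ _
    exact ⟨ts, Xp.nil ts⟩
  | succ n ih =>
    intro ts hts hsz
    obtain ⟨q, hq, hqK⟩ : ∃ q ∈ ts, K₁ ≤ q.2.size := by
      by_contra hcon
      push Not at hcon
      have h1 := Exp2.tsz_le hcon
      have h2 : K₁ * ts.length ≤ K₁ * (ts.length + (n + 1) * (b * (Λ + L + 5))) := Nat.mul_le_mul_left _ (by omega)
      have h3 : 0 < (n + 1) * (Λ + L + 5) := by positivity
      omega
    obtain ⟨hq1, hq2, hq3⟩ := hts q hq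
    obtain ⟨l, k, J, hG, hl1, hl2⟩ := hK₁ q hq1 hq2 hqK
    obtain ⟨hJ1, hJ2, hJ3, hJ4⟩ := hG.deg hq1 hq2
    have hlΛ : l.length ≤ Λ := by
      refine hl2.trans (le_trans ?_ hΛ)
      exact Nat.mul_le_mul_left _ (Nat.add_le_add_right (Nat.log_mono_right hq3) 1)
    have hperm : ts.Perm (q :: ts.erase q) := List.perm_cons_erase hq
    have hlen : ts.length = (ts.erase q).length + 1 := by
      rw [hperm.length_eq, List.length_cons]
    have htsz : tsz ts = q.2.size + 1 + tsz (ts.erase q) := by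
      rw [Exp2.tsz_perm hperm, tsz_cons]
    obtain ⟨fin, hfin⟩ := ih (J ++ ts.erase q) (by
      intro r hr
      rcases List.mem_append.1 hr with hr | hr
      · refine ⟨(hJ1 r hr).1, (hJ1 r hr).2, ?_⟩
        have := Exp2.size_le_tsz hr
        omega
      · exact hts r (List.mem_of_mem_erase hr)) (by
      rw [tsz_append, List.length_append]
      have h1 : J.length ≤ b * (Λ + L + 5) := hJ2.trans (Nat.mul_le_mul_left _ (by omega))
      have h2 : K₁ * (J.length + (ts.erase q).length + n * (b * (Λ + L + 5))) ≤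
          K₁ * (ts.length + (n + 1) * (b * (Λ + L + 5))) := by
        refine Nat.mul_le_mul_left _ ?_
        have : (n + 1) * (b * (Λ + L + 5)) = n * (b * (Λ + L + 5)) + b * (Λ + L + 5) := by ring
        omega
      have h3 : (n + 1) * (Λ + L + 5) = n * (Λ + L + 5) + (Λ + L + 5) := by ring
      omega)
    exact ⟨fin, Xp.step n q l k J ts (ts.erase q) fin hperm hG hl1 (hlΛ.trans hΛ') hfin⟩

theorem xp_large (b L : ℕ) (hb : 1 ≤ b) : ∃ K : ℕ, ∀ (n : ℕ) (p : Bool × Fd), p.2.len ≤ b → p.2.Deg b →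
    K * (n + 1) * (Nat.log 2 p.2.size + 1) ≤ p.2.size → ∃ fin : List (Bool × Fd),
      Xp L (K * (Nat.log 2 p.2.size + 1)) n [p] fin := by
  obtain ⟨K₁, hK₁⟩ := exists_gad b L hb
  refine ⟨K₁ + (K₁ * b + 1) * (K₁ + L + 5), fun n p hp hpd hs => ?_⟩
  obtain ⟨lam, hlam⟩ : ∃ lam, lam = Nat.log 2 p.2.size + 1 := ⟨_, rfl⟩
  have hlam1 : 1 ≤ lam := by omega
  rw [← hlam] at hs ⊢
  have hK1 : K₁ ≤ K₁ + (K₁ * b + 1) * (K₁ + L + 5) := Nat.le_add_right _ _
  refine Exp2.explore b L (N := p.2.size) (Λ := K₁ * lam) hK₁ (by rw [hlam]) (Nat.mul_le_mul_right _ hK1) n [p] ?_ ?_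
  · intro q hq
    rw [List.mem_singleton] at hq
    subst hq
    exact ⟨hp, hpd, le_rfl⟩
  · rw [tsz_cons, tsz_nil, List.length_singleton]
    have h1 : K₁ * lam + L + 5 ≤ (K₁ + L + 5) * lam := by nlinarith
    have h2 : K₁ * (1 + n * (b * (K₁ * lam + L + 5))) + n * (K₁ * lam + L + 5) =
        K₁ + n * ((K₁ * b + 1) * (K₁ * lam + L + 5)) := by ring
    have h3 : n * ((K₁ * b + 1) * (K₁ * lam + L + 5)) ≤ n * ((K₁ * b + 1) * ((K₁ + L + 5) * lam)) :=
      Nat.mul_le_mul_left _ (Nat.mul_le_mul_left _ h1)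
    have h4 : (K₁ + (K₁ * b + 1) * (K₁ + L + 5)) * (n + 1) * lam =
        K₁ * (n * lam + lam) + (K₁ * b + 1) * (K₁ + L + 5) * lam + n * ((K₁ * b + 1) * ((K₁ + L + 5) * lam)) := by ring
    have h5 : K₁ * 1 ≤ K₁ * (n * lam + lam) := Nat.mul_le_mul_left _ (by omega)
    rw [h2]
    omega

end AESP
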