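import Pool.Agent.AESP.Defs

/-!
# Exploration along a long path with side trees
-/

set_option autoImplicit false

namespace AESP

open Finset AE15 AED AELT AEX AESK
open scoped Classical

theorem x3_split {l l' : List (Bool × List (Bool × Fd))} {p q : Bool × Fd} (h : Spine (l ++ l') p q) :
    ∃ r, Spine l p r ∧ Spine l' r q := by
  induction l generalizing p with
  | nil => exact ⟨p, Spine.nil p, h⟩
  | cons t l ih =>
    cases h with
    | cons d c s p' q l'' hperm h' =>
      obtain ⟨r, h1, h2⟩ := ih h'
      exact ⟨r, Spine.cons d c s p' r l hperm h1, h2⟩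

theorem x3_last (l₀ : List (Bool × List (Bool × Fd))) (t u : Bool × List (Bool × Fd)) (j : ℕ) :
    ∃ (P : List (Bool × List (Bool × Fd))) (d : Bool) (s : List (Bool × Fd)),
      l₀ ++ [t] ++ List.replicate j u = P ++ [(d, s)] ∧ P.length = l₀.length + j := by
  cases j with
  | zero => exact ⟨l₀, t.1, t.2, by simp, by simp⟩
  | succ j =>
    refine ⟨l₀ ++ [t] ++ List.replicate j u, u.1, u.2, ?_, by
      simp only [List.length_append, List.length_cons, List.length_nil, List.length_replicate]; omega⟩
    rw [List.replicate_succ']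
    simp

theorem x3_sides {l₀ P : List (Bool × List (Bool × Fd))} {t u : Bool × List (Bool × Fd)} {j : ℕ} {d : Bool}
    {s : List (Bool × Fd)} (h : l₀ ++ [t] ++ List.replicate j u = P ++ [(d, s)]) {r : Bool × Fd}
    (hr : r ∈ (l₀.map Prod.snd).flatten ++ t.2) : r ∈ (P.map Prod.snd).flatten ++ s := by
  have h1 : (P.map Prod.snd).flatten ++ s = ((P ++ [(d, s)]).map Prod.snd).flatten := by simp
  rw [h1, ← h]
  simp only [List.map_append, List.flatten_append, List.mem_append, List.map_cons, List.map_nil,
    List.flatten_cons, List.flatten_nil, List.append_nil] at hr ⊢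
  rcases hr with hr | hr
  · exact Or.inl (Or.inl hr)
  · exact Or.inl (Or.inr hr)

/-- two trees: the smaller one -/
theorem x3_small {c : Fd} {p q : Bool × Fd} {L : List (Bool × Fd)} (h : c.trees = p :: q :: L) :
    ∃ (r : Bool × Fd) (s : List (Bool × Fd)), c.trees.Perm (r :: s) ∧ 2 * (r.2.size + 1) ≤ c.size := by
  have hs : c.size = (p.2.size + 1) + ((q.2.size + 1) + tsz L) := by
    rw [Fd.size_eq, h, List.map_cons, List.map_cons, List.sum_cons, List.sum_cons]
    rfl
  by_cases hpq : p.2.size ≤ q.2.size
  · exact ⟨p, q :: L, by rw [h], by omega⟩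
  · exact ⟨q, p :: L, by rw [h]; exact List.Perm.swap _ _ _, by omega⟩

/-- **walking down a tree to a place for a hole**; `l₀` and the vertex `(d, s)` are the prefix, the last `j` vertices are
bare and have the sign `e` of the present tree -/
theorem x3_walk {L : ℕ} {p : Bool × Fd} (m : ℕ) : ∀ (c : Fd), c.size ≤ m → ∀ (l₀ : List (Bool × List (Bool × Fd)))
    (t : Bool × List (Bool × Fd)) (j : ℕ) (e : Bool), L ≤ l₀.length → j ≤ L + 3 →
    Spine (l₀ ++ [t] ++ List.replicate j (e, [])) p (e, c) →
    ∃ (l : List (Bool × List (Bool × Fd))) (k : Kind) (J : List (Bool × Fd)), Gad L p l k J ∧ L ≤ l.length ∧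
      l.length ≤ l₀.length + (L + 4) * (Nat.log 2 c.size + 1) ∧ ∀ r ∈ (l₀.map Prod.snd).flatten ++ t.2, r ∈ J := by
  induction m with
  | zero =>
    intro c hc l₀ t j e hL hj h
    have hc0 : c = .nil := by
      cases c with
      | nil => rfl
      | node d c s => simp only [Fd.size] at hc; omega
    subst hc0
    obtain ⟨P, d, s, h1, h2⟩ := x3_last l₀ t (e, []) j
    rw [h1] at h
    refine ⟨P, .com e, (P.map Prod.snd).flatten ++ s, Gad.leaf d s e h, by omega, ?_, fun r hr => x3_sides h1 hr⟩
    have : L + 4 ≤ (L + 4) * (Nat.log 2 Fd.nil.size + 1) := Nat.le_mul_of_pos_right _ (by omega)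
    omega
  | succ m ih =>
    intro c hc l₀ t j e hL hj h
    have hbig : L + 4 ≤ (L + 4) * (Nat.log 2 c.size + 1) := Nat.le_mul_of_pos_right _ (by omega)
    by_cases hj3 : j = L + 3
    · subst hj3
      refine ⟨l₀, .dir, (l₀.map Prod.snd).flatten ++ t.2 ++ c.trees, Gad.dir t.1 t.2 e c h, hL, by omega, ?_⟩
      intro r hr
      exact List.mem_append_left _ hr
    obtain ⟨P, d, s, h1, h2⟩ := x3_last l₀ t (e, []) j
    rcases hct : c.trees with _ | ⟨r1, _ | ⟨r2, L2⟩⟩
    · -- no child
      have hc0 : c = .nil := by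
        cases c with
        | nil => rfl
        | node d c s => simp [Fd.trees] at hct
      subst hc0
      rw [h1] at h
      exact ⟨P, .com e, (P.map Prod.snd).flatten ++ s, Gad.leaf d s e h, by omega, by omega,
        fun r hr => x3_sides h1 hr⟩
    · -- one child
      have hs : c.size = r1.2.size + 1 := by
        rw [Fd.size_eq, hct]; simp
      obtain ⟨e1, c1⟩ := r1
      simp only at hs
      have h3 : Spine (l₀ ++ [t] ++ List.replicate j (e, []) ++ [(e, [])]) p (e1, c1) :=
        spine_snoc h (by rw [hct])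
      by_cases he : e1 = e
      · subst he
        have h4 : l₀ ++ [t] ++ List.replicate j (e1, []) ++ [(e1, [])] =
            l₀ ++ [t] ++ List.replicate (j + 1) (e1, ([] : List (Bool × Fd))) := by
          rw [List.replicate_succ']; simp
        rw [h4] at h3
        obtain ⟨l, k, J, g1, g2, g3, g4⟩ := ih c1 (by omega) l₀ t (j + 1) e1 hL (by omega) h3
        refine ⟨l, k, J, g1, g2, g3.trans ?_, g4⟩
        have : Nat.log 2 c1.size ≤ Nat.log 2 c.size := Nat.log_mono_right (by omega)
        gcongr
      · have he' : e1 = !e := by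
          cases e <;> cases e1 <;> simp_all
        subst he'
        rw [h1] at h3
        have h5 : P ++ [(d, s)] ++ [(e, [])] = P ++ [(d, s), (e, ([] : List (Bool × Fd)))] := by simp
        rw [h5] at h3
        refine ⟨P, .com e, (P.map Prod.snd).flatten ++ s ++ c1.trees, Gad.turn d s e c1 h3, by omega, by omega, ?_⟩
        intro r hr
        exact List.mem_append_left _ (x3_sides h1 hr)
    · -- two children
      obtain ⟨r, s', hr1, hr2⟩ := x3_small hct
      obtain ⟨e1, c1⟩ := r
      simp only at hr2
      have h3 : Spine (l₀ ++ [t] ++ List.replicate j (e, []) ++ [(e, s')]) p (e1, c1) := spine_snoc h hr1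
      have h4 : l₀ ++ [t] ++ List.replicate j (e, []) ++ [(e, s')] =
          l₀ ++ [t] ++ List.replicate j (e, []) ++ [(e, s')] ++
            List.replicate 0 (e1, ([] : List (Bool × Fd))) := by simp
      rw [h4] at h3
      obtain ⟨l, k, J, g1, g2, g3, g4⟩ := ih c1 (by omega) (l₀ ++ [t] ++ List.replicate j (e, [])) (e, s') 0 e1
        (by simp; omega) (by omega) h3
      refine ⟨l, k, J, g1, g2, g3.trans ?_, ?_⟩
      · have h6 : Nat.log 2 c1.size + 1 ≤ Nat.log 2 c.size := by
          calc Nat.log 2 c1.size + 1 ≤ Nat.log 2 (c1.size + 1) + 1 := by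
                have := Nat.log_mono_right (b := 2) (Nat.le_succ c1.size)
                simpa using this
            _ = Nat.log 2 ((c1.size + 1) * 2) := (Nat.log_mul_base (by norm_num) (by omega)).symm
            _ ≤ Nat.log 2 c.size := Nat.log_mono_right (by omega)
        have h7 : (L + 4) * (Nat.log 2 c1.size + 1) + (L + 4) ≤ (L + 4) * (Nat.log 2 c.size + 1) := by
          calc (L + 4) * (Nat.log 2 c1.size + 1) + (L + 4) = (L + 4) * (Nat.log 2 c1.size + 1 + 1) := by ring
            _ ≤ (L + 4) * (Nat.log 2 c.size + 1) := by gcongr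
        simp only [List.length_append, List.length_cons, List.length_nil, List.length_replicate]
        omega
      · intro r hr
        apply g4
        apply List.mem_append_left
        simp only [List.map_append, List.flatten_append, List.mem_append, List.map_cons, List.map_nil,
          List.flatten_cons, List.flatten_nil, List.append_nil] at hr ⊢
        rcases hr with hr | hr
        · exact Or.inl (Or.inl hr)
        · exact Or.inl (Or.inr hr)

/-- along the path: the state is as in `x3_walk`, `rest` is the rest of the path -/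
theorem x3_scan {L : ℕ} {p q : Bool × Fd} (i : ℕ) : ∀ (l₀ : List (Bool × List (Bool × Fd)))
    (t : Bool × List (Bool × Fd)) (j : ℕ) (e : Bool) (c : Fd) (rest : List (Bool × List (Bool × Fd))),
    j + i = L + 3 → L ≤ l₀.length → Spine (l₀ ++ [t] ++ List.replicate j (e, [])) p (e, c) → Spine rest (e, c) q →
    i + 2 ≤ rest.length →
    ∃ (l : List (Bool × List (Bool × Fd))) (k : Kind) (J : List (Bool × Fd)) (q' : Bool × Fd)
      (l₂ l₃ : List (Bool × List (Bool × Fd))), Gad L p l k J ∧ L ≤ l.length ∧
      l.length ≤ l₀.length + (L + 4) * (Nat.log 2 p.2.size + 2) ∧ q' ∈ J ∧ Spine l₂ q' q ∧ Spine l₃ p q' ∧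
      rest.length ≤ l₂.length + (i + 2) := by
  induction i with
  | zero =>
    intro l₀ t j e c rest hji hL h hrest hlen
    have hj : j = L + 3 := by omega
    subst hj
    cases hrest with
    | nil => simp at hlen
    | cons _ _ s' r' _ rest' hperm h' =>
      have h3 := spine_snoc h hperm
      refine ⟨l₀, .dir, (l₀.map Prod.snd).flatten ++ t.2 ++ c.trees, r', rest', _, Gad.dir t.1 t.2 e c h, hL,
        Nat.le_add_right _ _, ?_, h', h3, by simp only [List.length_cons]; omega⟩
      apply List.mem_append_right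
      rw [hperm.mem_iff]
      exact List.mem_cons_self
  | succ i ih =>
    intro l₀ t j e c rest hji hL h hrest hlen
    cases hrest with
    | nil => simp at hlen
    | cons _ _ s' r' _ rest' hperm h' =>
      simp only [List.length_cons] at hlen
      have h3 : Spine (l₀ ++ [t] ++ List.replicate j (e, []) ++ [(e, s')]) p r' := spine_snoc h hperm
      obtain ⟨P, d, s, h1, h2⟩ := x3_last l₀ t (e, []) j
      rcases s' with _ | ⟨D, s''⟩
      · obtain ⟨e1, c1⟩ := r'
        by_cases he : e1 = e
        · subst he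
          have h4 : l₀ ++ [t] ++ List.replicate j (e1, []) ++ [(e1, [])] =
              l₀ ++ [t] ++ List.replicate (j + 1) (e1, ([] : List (Bool × Fd))) := by
            rw [List.replicate_succ']; simp
          rw [h4] at h3
          obtain ⟨l, k, J, q', l₂, l₃, g1, g2, g3, g4, g5, g6, g7⟩ :=
            ih l₀ t (j + 1) e1 c1 rest' (by omega) hL h3 h' (by omega)
          exact ⟨l, k, J, q', l₂, l₃, g1, g2, g3, g4, g5, g6, by simp only [List.length_cons]; omega⟩
        · have he' : e1 = !e := by
            cases e <;> cases e1 <;> simp_all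
          subst he'
          cases h' with
          | nil => simp at hlen
          | cons _ _ s2 r2 _ rest2 hperm2 h2' =>
            have h6 := spine_snoc h3 hperm2
            rw [h1] at h3
            have h5 : P ++ [(d, s)] ++ [(e, [])] = P ++ [(d, s), (e, ([] : List (Bool × Fd)))] := by simp
            rw [h5] at h3
            refine ⟨P, .com e, (P.map Prod.snd).flatten ++ s ++ c1.trees, r2, rest2, _, Gad.turn d s e c1 h3,
              by omega, ?_, ?_, h2', h6, ?_⟩
            · have : (L + 4) * 1 ≤ (L + 4) * (Nat.log 2 p.2.size + 2) := by gcongr; omega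
              omega
            · apply List.mem_append_right
              rw [hperm2.mem_iff]
              exact List.mem_cons_self
            · simp only [List.length_cons]; omega
      · -- a side tree
        have hperm2 : c.trees.Perm (D :: r' :: s'') := hperm.trans (List.Perm.swap _ _ _)
        have h6 : Spine (l₀ ++ [t] ++ List.replicate j (e, []) ++ [(e, r' :: s'')]) p D := spine_snoc h hperm2
        obtain ⟨e1, c1⟩ := D
        have hsz := spine_size h6
        simp only at hsz
        have h4 : l₀ ++ [t] ++ List.replicate j (e, []) ++ [(e, r' :: s'')] =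
            l₀ ++ [t] ++ List.replicate j (e, []) ++ [(e, r' :: s'')] ++
              List.replicate 0 (e1, ([] : List (Bool × Fd))) := by simp
        rw [h4] at h6
        obtain ⟨l, k, J, g1, g2, g3, g4⟩ := x3_walk (L := L) c1.size c1 le_rfl (l₀ ++ [t] ++ List.replicate j (e, []))
          (e, r' :: s'') 0 e1 (by simp; omega) (by omega) h6
        refine ⟨l, k, J, r', rest', _, g1, g2, ?_, ?_, h', h3, by simp only [List.length_cons]; omega⟩
        · simp only [List.length_append, List.length_cons, List.length_nil, List.length_replicate] at g3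
          have h7 : Nat.log 2 c1.size ≤ Nat.log 2 p.2.size := Nat.log_mono_right (by omega)
          have h8 : (L + 4) * (Nat.log 2 c1.size + 1) + (L + 4) ≤ (L + 4) * (Nat.log 2 p.2.size + 2) := by
            calc (L + 4) * (Nat.log 2 c1.size + 1) + (L + 4) = (L + 4) * (Nat.log 2 c1.size + 2) := by ring
              _ ≤ (L + 4) * (Nat.log 2 p.2.size + 2) := by gcongr
          omega
        · apply g4
          apply List.mem_append_right
          exact List.mem_cons_self

/-- one hole -/
theorem x3_step {L : ℕ} {p q : Bool × Fd} {l : List (Bool × List (Bool × Fd))} (h : Spine l p q)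
    (hl : 2 * L + 6 ≤ l.length) :
    ∃ (l₁ : List (Bool × List (Bool × Fd))) (k : Kind) (J : List (Bool × Fd)) (q' : Bool × Fd)
      (l₂ l₃ : List (Bool × List (Bool × Fd))), Gad L p l₁ k J ∧ L ≤ l₁.length ∧
      l₁.length ≤ L + (L + 4) * (Nat.log 2 p.2.size + 2) ∧ q' ∈ J ∧ Spine l₂ q' q ∧ Spine l₃ p q' ∧
      l.length ≤ l₂.length + (2 * L + 6) := by
  have h1 : l = l.take L ++ ([l[L]'(by omega)] ++ l.drop (L + 1)) := by
    rw [List.singleton_append, ← List.drop_eq_getElem_cons (by omega), List.take_append_drop]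
  have h2 : l = (l.take L ++ [l[L]'(by omega)]) ++ l.drop (L + 1) := by
    rw [List.append_assoc]; exact h1
  have h3 : Spine ((l.take L ++ [l[L]'(by omega)]) ++ l.drop (L + 1)) p q := by
    rw [← h2]; exact h
  obtain ⟨⟨e, c⟩, h4, h5⟩ := x3_split h3
  have h6 : l.take L ++ [l[L]'(by omega)] = l.take L ++ [l[L]'(by omega)] ++
      List.replicate 0 (e, ([] : List (Bool × Fd))) := by simp
  rw [h6] at h4
  have htake : (l.take L).length = L := by simp; omega
  obtain ⟨l₁, k, J, q', l₂, l₃, g1, g2, g3, g4, g5, g6, g7⟩ := x3_scan (L := L) (L + 3) (l.take L) _ 0 e c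
    (l.drop (L + 1)) (by omega) (by omega) h4 h5 (by simp; omega)
  refine ⟨l₁, k, J, q', l₂, l₃, g1, g2, by omega, g4, g5, g6, ?_⟩
  simp only [List.length_drop] at g7
  omega

theorem x3_main (L N : ℕ) (n : ℕ) : ∀ (p q : Bool × Fd) (l : List (Bool × List (Bool × Fd))) (ts : List (Bool × Fd)),
    p ∈ ts → p.2.size ≤ N → Spine l p q → (2 * L + 6) * n ≤ l.length → ∃ (fin : List (Bool × Fd)) (q' : Bool × Fd)
      (l' : List (Bool × List (Bool × Fd))), Xp L (L + (L + 4) * (Nat.log 2 N + 2)) n ts fin ∧ q' ∈ fin ∧
        Spine l' q' q := by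
  induction n with
  | zero => exact fun p q l ts hp _ h _ => ⟨ts, p, l, Xp.nil ts, hp, h⟩
  | succ n ih =>
    intro p q l ts hp hN h hl
    rw [Nat.mul_succ] at hl
    obtain ⟨l₁, k, J, q', l₂, l₃, g1, g2, g3, g4, g5, g6, g7⟩ := x3_step (L := L) h (by omega)
    have hsz := spine_size g6
    obtain ⟨fin, q'', l', f1, f2, f3⟩ := ih q' q l₂ (J ++ ts.erase p) (List.mem_append_left _ g4) (by omega) g5
      (by omega)
    refine ⟨fin, q'', l', Xp.step n p l₁ k J ts (ts.erase p) fin (List.perm_cons_erase hp) g1 g2 (g3.trans ?_) f1,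
      f2, f3⟩
    have : Nat.log 2 p.2.size ≤ Nat.log 2 N := Nat.log_mono_right hN
    gcongr

theorem x3_mono {L Λ Λ' n : ℕ} {ts fin : List (Bool × Fd)} (h : Xp L Λ n ts fin) (hΛ : Λ ≤ Λ') :
    Xp L Λ' n ts fin := by
  induction h with
  | nil ts => exact Xp.nil ts
  | step n p l k J ts ts' fin h1 h2 h3 h4 _ ih => exact Xp.step n p l k J ts ts' fin h1 h2 h3 (h4.trans hΛ) ih

theorem xp_path (b L : ℕ) (hb : 1 ≤ b) : ∃ K : ℕ, ∀ (n : ℕ) (p q : Bool × Fd) (l : List (Bool × List (Bool × Fd))),
    p.2.len ≤ b → p.2.Deg b → Spine l p q → K * (n + 1) ≤ l.length → ∃ (fin : List (Bool × Fd)) (q' : Bool × Fd)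
      (l' : List (Bool × List (Bool × Fd))), Xp L (K * (Nat.log 2 p.2.size + 1)) n [p] fin ∧ q' ∈ fin ∧ Spine l' q' q := by
  refine ⟨3 * L + 8, fun n p q l _ _ h hl => ?_⟩
  obtain ⟨fin, q', l', h1, h2, h3⟩ := x3_main L p.2.size n p q l [p] (by simp) le_rfl h (by
    have : (2 * L + 6) * n ≤ (3 * L + 8) * (n + 1) := Nat.mul_le_mul (by omega) (by omega)
    omega)
  refine ⟨fin, q', l', x3_mono h1 ?_, h2, h3⟩
  nlinarith [Nat.zero_le (Nat.log 2 p.2.size), Nat.zero_le (L * Nat.log 2 p.2.size)]

end AESP
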