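import Pool.Agent.AESP.BB
import Pool.Agent.AESP.Absorb

/-!
# Spanning trees in expanding tournaments: the last tree
-/

set_option autoImplicit false

namespace AESP

open Finset AE15 AED AELT AEX AESK
open scoped Classical

theorem finish (b : ℕ) (hb : 1 ≤ b) {θ : ℝ} (hθ : 0 < θ) (hθ1 : θ ≤ 1) (ℓ J : ℕ) : ∃ K₀ C₀ : ℕ,
    ∀ {V : Type} {R : V → V → Prop}, AE32.Tour R → ∀ {X U S Z : Finset V} {I : List (V × (Bool × Fd))} {z : V}
      {p : Bool × Fd} {M : ℕ} {k : Kind} {D : ℕ → Dat V}, HI R (fun i : ℕ => Cnd R k (D i)) I Z (range M) [(z, p)] →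
      p.2.len ≤ b → p.2.Deg b → RichS R X k J K₀ M D → (∀ i < M, Okd R k (D i) ∧ yv (D i) ∈ U) →
      Set.InjOn (fun i => yv (D i)) (range M : Set ℕ) → U ⊆ X → Z ⊆ U → (∀ i < M, yv (D i) ∉ Z) → S ⊆ U → Disjoint S Z →
      (∀ i < M, yv (D i) ∉ S) → (∃ y ∈ nb R p.1 U z, y ∉ Z ∧ y ∉ S ∧ ∀ i < M, yv (D i) ≠ y) →
      U.card = Z.card + M + (p.2.size + 1) → C₀ ≤ p.2.size → (p.2.size + 1 : ℝ) / 4 ≤ S.card →
      Str R X S ℓ (θ - 2 * er X.card) (θ / 4 + 2 * er X.card) (θ ^ 2 / 100 - 2 * er X.card) → EmbI R I U := by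
  obtain ⟨C, hC⟩ := bb b hb hθ hθ1 ℓ
  refine ⟨J * (b * C + 1), b * C + 1, ?_⟩
  intro V R hT X U S Z I z p M k D hI hpl hpd hR hD hy hUX hZU hyZ hSU hSZ hyS hex hcard hC₀ hS4 hStr
  obtain ⟨ys, hys⟩ : ∃ ys, ys = (range M).image (fun i => yv (D i)) := ⟨_, rfl⟩
  have hysm : ∀ {u}, u ∈ ys ↔ ∃ i < M, yv (D i) = u := by
    intro u
    rw [hys, mem_image]
    simp only [mem_range]
  have hysc : ys.card = M := by rw [hys, card_image_of_injOn hy, card_range]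
  obtain ⟨Xb, hXb⟩ : ∃ Xb, Xb = U \ (Z ∪ ys) := ⟨_, rfl⟩
  have hXbm : ∀ {u}, u ∈ Xb ↔ u ∈ U ∧ u ∉ Z ∧ u ∉ ys := by
    intro u
    rw [hXb, mem_sdiff, mem_union, not_or]
  have hysU : ys ⊆ U := by
    intro u hu
    obtain ⟨i, hi, rfl⟩ := hysm.1 hu
    exact (hD i hi).2
  have hZys : Disjoint Z ys := by
    rw [disjoint_left]
    intro u hu hu'
    obtain ⟨i, hi, rfl⟩ := hysm.1 hu'
    exact hyZ i hi hu
  have hXbc : Xb.card = p.2.size + 1 := by
    have h1 : (U \ (Z ∪ ys)).card = U.card - (Z ∪ ys).card := card_sdiff_of_subset (union_subset hZU hysU)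
    rw [card_union_of_disjoint hZys] at h1
    rw [hXb]
    omega
  obtain ⟨w, hw, hwZ, hwS, hwy⟩ := hex
  rw [mem_nb] at hw
  have hwys : w ∉ ys := by
    intro h
    obtain ⟨i, hi, h⟩ := hysm.1 h
    exact hwy i hi h
  have hwXb : w ∈ Xb := hXbm.2 ⟨hw.1, hwZ, hwys⟩
  obtain ⟨p₀, c', e1, e2, e3, e4, e5, e6, e7, e8⟩ := branch b C p.2 hpl hpd (by omega)
  have hSXb : S ⊆ Xb := by
    intro u hu
    refine hXbm.2 ⟨hSU hu, disjoint_left.1 hSZ hu, fun h => ?_⟩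
    obtain ⟨i, hi, rfl⟩ := hysm.1 h
    exact hyS i hi hu
  have hXbX : Xb ⊆ X := fun u hu => hUX (hXbm.1 hu).1
  obtain ⟨A, hA, hwA, hEA⟩ := hC hT X Xb S w c' e2 e3 hXbX hSXb hwXb hwS (by
    rw [hXbc]
    push_cast
    exact hS4) hStr (by omega)
  obtain ⟨u, hu, hu'⟩ := e8 hEA hwA
  have hAc : A.card = c'.size := by
    have h1 := (emb_iff c' w A).1 hEA
    exact h1.card.trans (Fd.size_eq c').symm
  have hwA' : insert w A ⊆ Xb := insert_subset hwXb hA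
  obtain ⟨U₀, hU₀⟩ : ∃ U₀, U₀ = Xb \ insert w A := ⟨_, rfl⟩
  have hU₀c : U₀.card = p₀.2.size + 1 := by
    rw [hU₀, card_sdiff_of_subset hwA', card_insert_of_notMem hwA, hXbc, hAc]
    omega
  have hU₀X : U₀ ⊆ Xb := by rw [hU₀]; exact sdiff_subset
  have huXb : u ∈ Xb := hwA' hu
  obtain ⟨A', g, a1, a2, a3, a4, a5⟩ := absorb hR (fun i hi => ⟨(hD i hi).1, hUX (hD i hi).2⟩) hy p₀
    (Nat.mul_le_mul_left _ (by omega)) (hXbX huXb) (fun i hi h => (hXbm.1 huXb).2.2 (hysm.2 ⟨i, hi, h⟩))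
    (hU₀X.trans hXbX) hU₀c (by rw [hU₀, mem_sdiff, not_and, not_not]; exact fun _ => hu)
    (fun i hi h => (hXbm.1 (hU₀X h)).2.2 (hysm.2 ⟨i, hi, rfl⟩))
  rw [← hys] at a5
  have hU₀m : ∀ {t}, t ∈ U₀ → t ∈ U ∧ t ∉ Z ∧ t ∉ ys ∧ t ≠ w ∧ t ∉ A := by
    intro t ht
    have h1 := hXbm.1 (hU₀X ht)
    rw [hU₀, mem_sdiff, mem_insert, not_or] at ht
    exact ⟨h1.1, h1.2.1, h1.2.2, ht.2⟩
  have hall : ∀ t, t ∈ A' ∨ t ∈ (range M).image g ↔ t ∈ U₀ ∨ t ∈ ys := by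
    intro t
    rw [← mem_union, ← mem_union, a5]
  have hAm : ∀ {t}, t ∈ A → t ∈ U ∧ t ∉ Z ∧ t ∉ ys := fun {t} ht => hXbm.1 (hA ht)
  have hdis : ∀ {t}, t ∈ U₀ ∨ t ∈ ys → t ∉ Z ∧ t ≠ w ∧ t ∉ A := by
    intro t ht
    rcases ht with ht | ht
    · exact ⟨(hU₀m ht).2.1, (hU₀m ht).2.2.2⟩
    · refine ⟨fun h => disjoint_left.1 hZys h ht, ?_, fun h => (hAm h).2.2 ht⟩
      rintro rfl
      exact hwys ht
  have hA'd : Disjoint A' (insert w A) := by
    rw [disjoint_left]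
    intro t ht ht'
    have h1 := hdis ((hall t).1 (Or.inl ht))
    rw [mem_insert] at ht'
    rcases ht' with h | h
    · exact h1.2.1 h
    · exact h1.2.2 h
  have hE := hu' A' hA'd a1
  have hwn : w ∉ A ∪ A' := by
    rw [mem_union, not_or]
    exact ⟨hwA, fun h => (disjoint_left.1 hA'd h) (mem_insert_self _ _)⟩
  have hEI : EmbI R [(z, p)] (insert w (A ∪ A')) := by
    rw [EmbI.single]
    exact ⟨insert w (A ∪ A'), ∅, disjoint_empty_right _, (union_empty _).symm, ⟨w, A ∪ A', hw.2, hwn, rfl, hE⟩, rfl⟩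
  have hgZ : Disjoint Z ((range M).image g) := by
    rw [disjoint_left]
    intro t ht ht'
    exact (hdis ((hall t).1 (Or.inr ht'))).1 ht
  have hfin := hI g (fun i hi => a2 i (mem_range.1 hi)) a3 hgZ (insert w (A ∪ A')) (by
    rw [disjoint_left]
    intro t ht ht'
    rw [mem_insert, mem_union] at ht'
    rw [mem_union] at ht
    rcases ht with ht | ht
    · rcases ht' with rfl | h | h
      · exact hwZ ht
      · exact (hAm h).2.1 ht
      · exact (hdis ((hall t).1 (Or.inl h))).1 ht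
    · rcases ht' with rfl | h | h
      · exact (hdis ((hall t).1 (Or.inr ht))).2.1 rfl
      · exact (hdis ((hall t).1 (Or.inr ht))).2.2 h
      · exact disjoint_left.1 a4 h ht) hEI
  have hEq : Z ∪ (range M).image g ∪ insert w (A ∪ A') = U := by
    ext t
    simp only [mem_union, mem_insert]
    constructor
    · rintro ((h | h) | rfl | h | h)
      · exact hZU h
      · rcases (hall t).1 (Or.inr h) with h' | h'
        · exact (hU₀m h').1
        · exact hysU h'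
      · exact hw.1
      · exact (hAm h).1
      · rcases (hall t).1 (Or.inl h) with h' | h'
        · exact (hU₀m h').1
        · exact hysU h'
    · intro h
      by_cases h1 : t ∈ Z
      · exact Or.inl (Or.inl h1)
      by_cases h2 : t = w
      · exact Or.inr (Or.inl h2)
      by_cases h3 : t ∈ A
      · exact Or.inr (Or.inr (Or.inl h3))
      have h4 : t ∈ U₀ ∨ t ∈ ys := by
        by_cases h5 : t ∈ ys
        · exact Or.inr h5
        · refine Or.inl ?_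
          rw [hU₀, mem_sdiff, mem_insert, not_or]
          exact ⟨hXbm.2 ⟨h, h1, h5⟩, h2, h3⟩
      rcases (hall t).2 h4 with h5 | h5
      · exact Or.inr (Or.inr (Or.inr h5))
      · exact Or.inl (Or.inr h5)
  rwa [hEq] at hfin

end AESP
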