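import Pool.Agent.AESP.Defs

/-!
# Every large tree has a place for a hole near its root
-/

set_option autoImplicit false

namespace AESP

open Finset AE15 AED AELT AEX AESK
open scoped Classical

theorem gad_split (l : List (Bool × List (Bool × Fd))) (d : Bool) (s : List (Bool × Fd)) (e : Bool) (j : ℕ) :
    ∃ (l₁ : List (Bool × List (Bool × Fd))) (d₁ : Bool) (s₁ : List (Bool × Fd)),
      l ++ [(d, s)] ++ List.replicate j (e, []) = l₁ ++ [(d₁, s₁)] ∧ l₁.length = l.length + j ∧
        (l₁.map Prod.snd).flatten ++ s₁ = (l.map Prod.snd).flatten ++ s := by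
  cases j with
  | zero => exact ⟨l, d, s, by simp, by simp, rfl⟩
  | succ i =>
    refine ⟨l ++ [(d, s)] ++ List.replicate i (e, []), e, [], ?_, ?_, ?_⟩
    · rw [List.replicate_succ', ← List.append_assoc]
    · simp only [List.length_append, List.length_replicate, List.length_cons, List.length_nil]
      omega
    · simp

/-- the smaller one of the first two trees -/
theorem small_child {c : Fd} {x y : Bool × Fd} {t : List (Bool × Fd)} (h : c.trees = x :: y :: t) :
    ∃ (r : Bool × Fd) (s : List (Bool × Fd)), c.trees.Perm (r :: s) ∧ 2 * (r.2.size + 1) ≤ c.size := by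
  have h1 : c.size = (x.2.size + 1) + ((y.2.size + 1) + tsz t) := by
    rw [Fd.size_eq, h]
    rfl
  rcases le_total x.2.size y.2.size with h2 | h2
  · exact ⟨x, y :: t, by rw [h], by omega⟩
  · exact ⟨y, x :: t, by rw [h]; exact List.Perm.swap _ _ _, by omega⟩

theorem log_small {r q : ℕ} (h : 2 * (r + 1) ≤ q) : Nat.log 2 r + 1 ≤ Nat.log 2 q := by
  calc Nat.log 2 r + 1 ≤ Nat.log 2 (r + 1) + 1 := by
        have := Nat.log_mono_right (b := 2) (Nat.le_succ r)
        exact Nat.succ_le_succ this
    _ = Nat.log 2 ((r + 1) * 2) := (Nat.log_mul_base (by norm_num) (by omega)).symm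
    _ ≤ Nat.log 2 q := Nat.log_mono_right (by omega)

theorem walk_aux (L : ℕ) {p : Bool × Fd} (N : ℕ) : ∀ (q : Bool × Fd) (l : List (Bool × List (Bool × Fd))) (d : Bool)
    (s : List (Bool × Fd)) (j : ℕ), q.2.size ≤ N → j ≤ L + 3 →
    Spine (l ++ [(d, s)] ++ List.replicate j (q.1, [])) p q →
    ∃ (l' : List (Bool × List (Bool × Fd))) (k : Kind) (J : List (Bool × Fd)), Gad L p l' k J ∧
      l.length ≤ l'.length ∧ l'.length ≤ l.length + (L + 4) * (Nat.log 2 q.2.size + 1) ∧
      ((l.map Prod.snd).flatten ++ s) <+: J := by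
  induction N with
  | zero =>
    intro q l d s j hN hj hS
    obtain ⟨l₁, d₁, s₁, e1, e2, e3⟩ := gad_split l d s q.1 j
    rw [e1] at hS
    have hq : q.2 = .nil := by
      cases hq : q.2 with
      | nil => rfl
      | node a b c => rw [hq, Fd.size] at hN; omega
    have hq' : q = (q.1, Fd.nil) := by rw [← hq]
    rw [hq'] at hS
    refine ⟨l₁, _, _, Gad.leaf d₁ s₁ q.1 hS, by omega, ?_, ?_⟩
    · rw [e2]
      have : L + 4 ≤ (L + 4) * (Nat.log 2 q.2.size + 1) := Nat.le_mul_of_pos_right _ (by omega)
      omega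
    · rw [e3]
  | succ N ih =>
    intro q l d s j hN hj hS
    have hlog : L + 4 ≤ (L + 4) * (Nat.log 2 q.2.size + 1) := Nat.le_mul_of_pos_right _ (by omega)
    rcases Nat.lt_or_ge j (L + 3) with hj' | hj'
    swap
    · obtain rfl : j = L + 3 := by omega
      refine ⟨l, _, _, Gad.dir d s q.1 q.2 hS, le_rfl, by omega, List.prefix_append _ _⟩
    obtain ⟨l₁, d₁, s₁, e1, e2, e3⟩ := gad_split l d s q.1 j
    rw [e1] at hS
    match htr : q.2.trees with
    | [] =>
      have hq : q.2 = .nil := by
        cases hq : q.2 with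
        | nil => rfl
        | node a b c => rw [hq] at htr; simp [Fd.trees] at htr
      have hq' : q = (q.1, Fd.nil) := by rw [← hq]
      rw [hq'] at hS
      refine ⟨l₁, _, _, Gad.leaf d₁ s₁ q.1 hS, by omega, by omega, ?_⟩
      rw [e3]
    | [r] =>
      have hperm : q.2.trees.Perm (r :: []) := by rw [htr]
      have hsz : q.2.size = r.2.size + 1 := by
        rw [Fd.size_eq, htr]
        simp
      have hS' := spine_snoc hS hperm
      by_cases hr : r.1 = q.1
      · have hS2 : Spine (l ++ [(d, s)] ++ List.replicate (j + 1) (r.1, [])) p r := by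
          rw [List.replicate_succ', ← List.append_assoc, hr, e1]
          exact hS'
        obtain ⟨l', k, J, h1, h2, h3, h4⟩ := ih r l d s (j + 1) (by omega) (by omega) hS2
        refine ⟨l', k, J, h1, h2, h3.trans ?_, h4⟩
        have : Nat.log 2 r.2.size ≤ Nat.log 2 q.2.size := Nat.log_mono_right (by omega)
        exact Nat.add_le_add_left (Nat.mul_le_mul_left _ (by omega)) _
      · have hr' : r = (!q.1, r.2) := by
          have : r.1 = !q.1 := by
            revert hr
            cases r.1 <;> cases q.1 <;> simp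
          rw [← this]
        rw [hr', List.append_assoc] at hS'
        refine ⟨l₁, _, _, Gad.turn d₁ s₁ q.1 r.2 hS', by omega, by omega, ?_⟩
        rw [e3]
        exact List.prefix_append _ _
    | x :: y :: t =>
      obtain ⟨r, s', hperm, hsz⟩ := small_child htr
      have hS' := spine_snoc hS hperm
      have hS2 : Spine ((l₁ ++ [(d₁, s₁)]) ++ [(q.1, s')] ++ List.replicate 0 (r.1, [])) p r := by
        simpa using hS'
      obtain ⟨l', k, J, h1, h2, h3, h4⟩ := ih r (l₁ ++ [(d₁, s₁)]) q.1 s' 0 (by omega) (by omega) hS2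
      rw [List.length_append, List.length_singleton, e2] at h2 h3
      have h5 := log_small hsz
      have h6 : (L + 4) * (Nat.log 2 r.2.size + 1) ≤ (L + 4) * Nat.log 2 q.2.size := Nat.mul_le_mul_left _ h5
      have h7 : (L + 4) * (Nat.log 2 q.2.size + 1) = (L + 4) * Nat.log 2 q.2.size + (L + 4) := by ring
      refine ⟨l', k, J, h1, by omega, by omega, ?_⟩
      refine List.IsPrefix.trans ?_ h4
      rw [← e3]
      simp only [List.map_append, List.map_cons, List.map_nil, List.flatten_append, List.flatten_cons,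
        List.flatten_nil, List.append_nil, List.append_assoc]
      exact List.prefix_append_right_inj _ |>.2 (List.prefix_append _ _)

/-- **the walk**: from the end of a path (with at least one vertex) into the tree behind it, to a place for a hole; the side trees of
the path stay whole -/
theorem walk (L : ℕ) {p q : Bool × Fd} {l : List (Bool × List (Bool × Fd))} (hl : l ≠ []) (h : Spine l p q) :
    ∃ (l' : List (Bool × List (Bool × Fd))) (k : Kind) (J : List (Bool × Fd)), Gad L p l' k J ∧
      l.length ≤ l'.length + 1 ∧ l'.length + 1 ≤ l.length + (L + 4) * (Nat.log 2 q.2.size + 1) ∧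
      (l.map Prod.snd).flatten <+: J := by
  obtain ⟨l₀, t, rfl⟩ : ∃ l₀ t, l = l₀ ++ [t] := ⟨l.dropLast, l.getLast hl, (List.dropLast_append_getLast hl).symm⟩
  obtain ⟨d, s⟩ := t
  obtain ⟨l', k, J, h1, h2, h3, h4⟩ := walk_aux L (p := p) q.2.size q l₀ d s 0 le_rfl (by omega) (by simpa using h)
  refine ⟨l', k, J, h1, ?_, ?_, ?_⟩
  · rw [List.length_append, List.length_singleton]
    omega
  · rw [List.length_append, List.length_singleton]
    omega
  · simpa using h4

theorem exists_gad (b L : ℕ) (hb : 1 ≤ b) : ∃ K : ℕ, ∀ p : Bool × Fd, p.2.len ≤ b → p.2.Deg b → K ≤ p.2.size →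
    ∃ (l : List (Bool × List (Bool × Fd))) (k : Kind) (J : List (Bool × Fd)), Gad L p l k J ∧ L ≤ l.length ∧
      l.length ≤ K * (Nat.log 2 p.2.size + 1) := by
  refine ⟨(b + 1) ^ (L + 1 + 1) + 2 * L + 4, fun p hp hd hK => ?_⟩
  obtain ⟨l, q, h1, h2, -, -, -, -, -⟩ := exists_spine b (L + 1) hb p.1 p.2 hp hd (by omega)
  have hne : l ≠ [] := by
    rintro rfl
    simp at h2
  have hsz := spine_size h1
  simp only at hsz
  obtain ⟨l', k, J, h3, h4, h5, -⟩ := walk L (p := p) hne h1
  refine ⟨l', k, J, h3, by omega, ?_⟩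
  have h6 : Nat.log 2 q.2.size ≤ Nat.log 2 p.2.size := Nat.log_mono_right (by omega)
  have h7 : (L + 4) * (Nat.log 2 q.2.size + 1) ≤ (L + 4) * (Nat.log 2 p.2.size + 1) :=
    Nat.mul_le_mul_left _ (by omega)
  have h8 : L ≤ L * (Nat.log 2 p.2.size + 1) := Nat.le_mul_of_pos_right _ (by omega)
  have h9 : ((b + 1) ^ (L + 1 + 1) + 2 * L + 4) * (Nat.log 2 p.2.size + 1) =
      (b + 1) ^ (L + 1 + 1) * (Nat.log 2 p.2.size + 1) + L * (Nat.log 2 p.2.size + 1) +
        (L + 4) * (Nat.log 2 p.2.size + 1) := by ring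
  omega

end AESP
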