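import Pool.Agent.AEX.Final33

/-!
# Spanning trees in expanding tournaments: the statement for graphs

A tree with fewer vertices than the tournament is extended by a path which hangs on the root.
-/

set_option autoImplicit false

namespace AESP

open Finset AE15 AED AELT AEX
open scoped Classical

/-- the children forest of the first vertex of a path with `m + 1` vertices -/
private def gpth : ℕ → Fd
  | 0 => .nil
  | m + 1 => .node true (gpth m) .nil

private theorem gpth_size (m : ℕ) : (gpth m).size = m := by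
  induction m with
  | zero => rfl
  | succ m ih =>
    show (gpth m).size + Fd.nil.size + 1 = m + 1
    rw [ih]
    rfl

private theorem gpth_len (m : ℕ) : (gpth m).len ≤ 1 := by
  cases m with
  | zero => exact Nat.zero_le _
  | succ m => exact le_rfl

private theorem gpth_deg {b : ℕ} (hb : 1 ≤ b) (m : ℕ) : (gpth m).Deg b := by
  induction m with
  | zero => trivial
  | succ m ih => exact ⟨(gpth_len m).trans hb, ih, trivial⟩

private theorem gdeg_mono {b b' : ℕ} (h : b ≤ b') (c : Fd) (hc : c.Deg b) : c.Deg b' := by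
  induction c with
  | nil => trivial
  | node d c s ihc ihs => exact ⟨hc.1.trans h, ihc hc.2.1, ihs hc.2.2⟩

theorem final_span (hS : ∀ b : ℕ, 1 ≤ b → ∀ {θ : ℝ}, 0 < θ → θ ≤ 1 → ∃ n₀ : ℕ, ∀ {V : Type} {R : V → V → Prop},
    AE32.Tour R → ∀ X : Finset V, n₀ ≤ X.card → Ex R (θ * X.card) X → ∀ v ∈ X, ∀ c : Fd, c.len ≤ b → c.Deg b →
      c.size + 1 = X.card → Emb R c v (X.erase v)) (Δ : ℕ) (θ : ℝ) (hθ : 0 < θ) : ∃ n₀ : ℕ, ∀ k n : ℕ, n₀ ≤ n → k + 1 ≤ n →
    ∀ R : Fin n → Fin n → Prop,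
    (∀ a, ¬ R a a) → (∀ a b, a ≠ b → R a b ∨ R b a) → (∀ a b, R a b → ¬ R b a) →
    (∀ S : Set (Fin n), θ * n * (min S.ncard Sᶜ.ncard : ℕ) ≤
      ({p : Fin n × Fin n | p.1 ∈ S ∧ p.2 ∉ S ∧ R p.1 p.2}.ncard : ℝ)) →
    ∀ E : Fin (k + 1) → Fin (k + 1) → Prop,
      (∀ a b, E a b → ¬ E b a) →
      (SimpleGraph.fromRel E).IsTree →
      (∀ v, ((SimpleGraph.fromRel E).neighborSet v).ncard ≤ Δ) →
      ∀ (r : Fin (k + 1)) (v : Fin n),
        ∃ f : Fin (k + 1) → Fin n, Function.Injective f ∧ (∀ a b, E a b → R (f a) (f b)) ∧ f r = v := by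
  obtain ⟨n₀, hn₀⟩ := hS (Δ + 2) (by omega) (lt_min hθ one_pos) (min_le_right θ 1)
  refine ⟨n₀, ?_⟩
  intro k n hn hk R h1 h2 h3 hX E h4 h5 h6 r v
  have h6' : ∀ v, {w | E v w ∨ E w v}.ncard ≤ Δ + 1 := by
    intro v
    refine le_trans (le_of_eq ?_) ((h6 v).trans (Nat.le_succ Δ))
    congr 1
    ext w
    simp only [Set.mem_ofPred_eq, SimpleGraph.mem_neighborSet, SimpleGraph.fromRel_adj]
    constructor
    · intro h
      refine ⟨?_, h⟩
      rintro rfl
      rcases h with h | h <;> exact h4 _ _ h h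
    · exact fun h => h.2
  obtain ⟨c, c1, ⟨c2, c3, -⟩, c4⟩ := AEB.glueB (l := k + 1) h4 h5 h6' r (fun f hf =>
    no_long_run (fun x => (SimpleGraph.fromRel E).dist r x) f (fun i hi => (hf i hi).2))
  have hcard : (univ : Finset (Fin n)).card = n := by rw [card_univ, Fintype.card_fin]
  have key : ∃ S ⊆ (univ : Finset (Fin n)), v ∉ S ∧ Emb R c v S := by
    have h7 : ∀ c' : Fd, c'.len ≤ Δ + 2 → c'.Deg (Δ + 2) → c'.size + 1 = n →
        ∃ S : Finset (Fin n), v ∉ S ∧ Emb R c' v S := by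
      intro c' e1 e2 e3
      have h8 := hn₀ (R := R) ⟨h1, h2, h3⟩ univ (by rw [hcard]; exact hn)
        (ex_of_ncard (min_le_left θ 1) hX) v (mem_univ v) c' e1 e2 (by rw [hcard]; exact e3)
      refine ⟨_, ?_, h8⟩
      simp
    obtain ⟨m, hm⟩ : ∃ m, n = k + 1 + m := ⟨n - (k + 1), by omega⟩
    cases m with
    | zero =>
      obtain ⟨S, t1, t2⟩ := h7 c (c2.trans (by omega)) (gdeg_mono (by omega) c c3) (by omega)
      exact ⟨S, subset_univ _, t1, t2⟩
    | succ m =>
      obtain ⟨S, t1, x, A, B, -, -, -, -, hAB, -, hB⟩ := h7 (.node true (gpth m) c)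
        (by show c.len + 1 ≤ Δ + 2; omega)
        ⟨(gpth_len m).trans (by omega), gpth_deg (by omega) m, gdeg_mono (by omega) c c3⟩
        (by
          show (gpth m).size + c.size + 1 + 1 = n
          rw [gpth_size]
          omega)
      refine ⟨B, subset_univ _, fun hv => t1 ?_, hB⟩
      rw [hAB]
      simp [hv]
  obtain ⟨S, s1, s2, s3⟩ := key
  obtain ⟨f, f1, -, f3, f4⟩ := c4 (R := R) (N := fun x => x = v) (X := univ) ⟨v, mem_univ v, S, s1, s2, rfl, s3⟩
  exact ⟨f, f1, f4, f3⟩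

end AESP
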