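import Pool.Agent.AESP.Defs

/-!
# Rules for embeddings with holes
-/

set_option autoImplicit false

namespace AESP

open Finset AE15 AED AELT AEX AESK
open scoped Classical

variable {V : Type} {R : V → V → Prop}

theorem HI.refl {ι : Type} (C : ι → V → Prop) (I : List (V × (Bool × Fd))) : HI R C I ∅ ∅ I := by
  intro g _ _ _ A _ hA
  simpa using hA

theorem HI.perm {ι : Type} {C : ι → V → Prop} {I I' J J' : List (V × (Bool × Fd))} {Z : Finset V} {H : Finset ι}
    (h : HI R C I Z H J) (hI : I.Perm I') (hJ : J.Perm J') : HI R C I' Z H J' :=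
  fun g hg hi hd A hA hE => EmbI.perm hI (h g hg hi hd A hA (EmbI.perm hJ.symm hE))

theorem HI.frame {ι : Type} {C : ι → V → Prop} {I J K : List (V × (Bool × Fd))} {Z : Finset V} {H : Finset ι}
    (h : HI R C I Z H J) : HI R C (I ++ K) Z H (J ++ K) := by
  intro g hg hi hd A hA hE
  obtain ⟨A₁, A₂, h12, rfl, hJ, hK⟩ := EmbI.append_iff.1 hE
  rw [disjoint_union_right] at hA
  refine EmbI.append_iff.2 ⟨Z ∪ H.image g ∪ A₁, A₂, ?_, (union_assoc _ _ _).symm, h g hg hi hd A₁ hA.1 hJ, hK⟩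
  exact disjoint_union_left.2 ⟨hA.2, h12⟩

theorem HI.comp {ι : Type} {C : ι → V → Prop} {I J K J' : List (V × (Bool × Fd))} {Z Z' : Finset V} {H H' : Finset ι}
    (h : HI R C I Z H (J ++ K)) (h' : HI R C J Z' H' J') (hZ : Disjoint Z Z') (hH : Disjoint H H') :
    HI R C I (Z ∪ Z') (H ∪ H') (J' ++ K) := by
  intro g hg hi hd A hA hE
  obtain ⟨A₁, A₂, h12, rfl, hJ, hK⟩ := EmbI.append_iff.1 hE
  rw [image_union] at hd hA
  simp only [disjoint_union_left, disjoint_union_right] at hd hA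
  obtain ⟨⟨d1, d2⟩, ⟨d3, d4⟩⟩ := hd
  obtain ⟨⟨⟨a1, a2⟩, ⟨a3, a4⟩⟩, ⟨⟨a5, a6⟩, ⟨a7, a8⟩⟩⟩ := hA
  have hii : Disjoint (H.image g) (H'.image g) := by
    rw [disjoint_left]
    intro x hx hx'
    obtain ⟨i, hi1, rfl⟩ := mem_image.1 hx
    obtain ⟨j, hj1, hj2⟩ := mem_image.1 hx'
    have : i = j := hi (mem_coe.2 (mem_union_left _ hi1)) (mem_coe.2 (mem_union_right _ hj1)) hj2.symm
    subst this
    exact disjoint_left.1 hH hi1 hj1
  have e1 : EmbI R J (Z' ∪ H'.image g ∪ A₁) :=
    h' g (fun i hi' => hg i (mem_union_right _ hi')) (hi.mono (by simp)) (by assumption) A₁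
      (disjoint_union_left.2 ⟨by assumption, by assumption⟩) hJ
  have e2 : EmbI R (J ++ K) (Z' ∪ H'.image g ∪ A₁ ∪ A₂) := by
    refine EmbI.append_iff.2 ⟨_, A₂, ?_, rfl, e1, hK⟩
    simp only [disjoint_union_left]
    exact ⟨⟨by assumption, by assumption⟩, h12⟩
  have e3 := h g (fun i hi' => hg i (mem_union_left _ hi')) (hi.mono (by simp)) (by assumption)
    (Z' ∪ H'.image g ∪ A₁ ∪ A₂) (by
      simp only [disjoint_union_left, disjoint_union_right]
      exact ⟨⟨⟨⟨hZ, d2.symm⟩, d3, hii⟩, a1, a3⟩, a5, a7⟩) e2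
  have e4 : Z ∪ Z' ∪ (H ∪ H').image g ∪ (A₁ ∪ A₂) = Z ∪ H.image g ∪ (Z' ∪ H'.image g ∪ A₁ ∪ A₂) := by
    rw [image_union]
    ext x
    simp only [mem_union]
    tauto
  rw [e4]
  exact e3

theorem HI.items {ι : Type} {C : ι → V → Prop} {I J K : List (V × (Bool × Fd))} {Z A : Finset V} {H : Finset ι}
    (h : HI R C I Z H (J ++ K)) (hA : EmbI R J A) (hZ : Disjoint Z A) : HI R C I (Z ∪ A) H K := by
  intro g hg hi hd B hB hE
  simp only [disjoint_union_left] at hd hB
  obtain ⟨d1, d2⟩ := hd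
  obtain ⟨⟨b1, b2⟩, b3⟩ := hB
  have e2 : EmbI R (J ++ K) (A ∪ B) := EmbI.append_iff.2 ⟨A, B, b2, rfl, hA, hE⟩
  have e3 := h g hg hi d1 (A ∪ B) (by
    simp only [disjoint_union_left, disjoint_union_right]
    exact ⟨⟨hZ, d2.symm⟩, b1, b3⟩) e2
  have e4 : Z ∪ A ∪ H.image g ∪ B = Z ∪ H.image g ∪ (A ∪ B) := by
    ext x
    simp only [mem_union]
    tauto
  rw [e4]
  exact e3

/-- some holes are filled for good -/
theorem HI.fill {ι : Type} {C : ι → V → Prop} {I J : List (V × (Bool × Fd))} {Z : Finset V} {H H' : Finset ι}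
    (h : HI R C I Z (H ∪ H') J) (hH : Disjoint H H') (g : ι → V) (hg : ∀ i ∈ H', C i (g i))
    (hi : Set.InjOn g (H' : Set ι)) (hZ : Disjoint Z (H'.image g)) : HI R C I (Z ∪ H'.image g) H J := by
  intro g' hg' hi' hd B hB hE
  simp only [disjoint_union_left] at hd hB
  obtain ⟨d1, d2⟩ := hd
  obtain ⟨⟨b1, b2⟩, b3⟩ := hB
  have hGH : ∀ i ∈ H, (if i ∈ H' then g i else g' i) = g' i := fun i hi1 => by
    rw [if_neg (disjoint_left.1 hH hi1)]
  have hGH' : ∀ i ∈ H', (if i ∈ H' then g i else g' i) = g i := fun i hi1 => by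
    rw [if_pos hi1]
  have im1 : H.image (fun i => if i ∈ H' then g i else g' i) = H.image g' := image_congr fun i hi1 => hGH i hi1
  have im2 : H'.image (fun i => if i ∈ H' then g i else g' i) = H'.image g := image_congr fun i hi1 => hGH' i hi1
  have e4 : Z ∪ (H ∪ H').image (fun i => if i ∈ H' then g i else g' i) = Z ∪ H'.image g ∪ H.image g' := by
    rw [image_union, im1, im2]
    ext x
    simp only [mem_union]
    tauto
  have e3 := h (fun i => if i ∈ H' then g i else g' i) (fun i hi1 => by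
      rcases mem_union.1 hi1 with h1 | h1
      · show C i (if i ∈ H' then g i else g' i)
        rw [hGH i h1]
        exact hg' i h1
      · show C i (if i ∈ H' then g i else g' i)
        rw [hGH' i h1]
        exact hg i h1) (by
      intro i hi1 j hj1 hij
      have hij' : (if i ∈ H' then g i else g' i) = (if j ∈ H' then g j else g' j) := hij
      rcases mem_union.1 (mem_coe.1 hi1) with h1 | h1 <;> rcases mem_union.1 (mem_coe.1 hj1) with h2 | h2
      · rw [hGH i h1, hGH j h2] at hij'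
        exact hi' h1 h2 hij'
      · rw [hGH i h1, hGH' j h2] at hij'
        exact (disjoint_left.1 d2 (mem_image_of_mem g h2) (hij' ▸ mem_image_of_mem g' h1)).elim
      · rw [hGH' i h1, hGH j h2] at hij'
        exact (disjoint_left.1 d2 (mem_image_of_mem g h1) (hij' ▸ mem_image_of_mem g' h2)).elim
      · rw [hGH' i h1, hGH' j h2] at hij'
        exact hi h1 h2 hij') (by
      rw [image_union, im1, im2]
      exact disjoint_union_right.2 ⟨d1, hZ⟩) B (by
      rw [e4]
      simp only [disjoint_union_left]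
      exact ⟨⟨b1, b2⟩, b3⟩) hE
  rw [e4] at e3
  exact e3

/-- conditions of the holes may be strengthened, indices renamed -/
theorem HI.map {ι κ : Type} {C : ι → V → Prop} {C' : κ → V → Prop} {I J : List (V × (Bool × Fd))} {Z : Finset V}
    {H : Finset ι} (h : HI R C I Z H J) (f : ι → κ) (hf : Set.InjOn f (H : Set ι)) (hC : ∀ i ∈ H, ∀ x, C' (f i) x → C i x) :
    HI R C' I Z (H.image f) J := by
  intro g hg hi hd A hA hE
  have im : (H.image f).image g = H.image (g ∘ f) := image_image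
  rw [im] at hd hA ⊢
  refine h (g ∘ f) (fun i hi1 => hC i hi1 _ (hg _ (mem_image_of_mem f hi1))) ?_ hd A hA hE
  intro i hi1 j hj1 hij
  exact hf hi1 hj1 (hi (mem_coe.2 (mem_image_of_mem f hi1)) (mem_coe.2 (mem_image_of_mem f hj1)) hij)

end AESP
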