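import Pool.Agent.AESP.Defs
import Pool.Agent.AELT.Core

/-!
# Levels by common neighbours in an expanding tournament
-/

set_option autoImplicit false

namespace AESP

open Finset AE15 AED AELT AEX AESK
open scoped Classical

variable {V : Type} {R : V → V → Prop}

namespace Lev

/-- the number of the common in-neighbours -/
noncomputable def cn (R : V → V → Prop) (X : Finset V) (x y : V) : ℝ := ((nI R X x ∩ nI R X y).card : ℝ)

/-- the next level set -/
noncomputable def nx (R : V → V → Prop) (X : Finset V) (t : ℝ) (A : Finset V) : Finset V :=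
  A ∪ X.filter (fun x => t ≤ ((A.filter (fun y => t ≤ cn R X x y)).card : ℝ))

theorem sum_le_of_few {A : Finset V} {f : V → ℝ} {t n : ℝ} (ht : 0 ≤ t) (hn : 0 ≤ n) (hA : (A.card : ℝ) ≤ n)
    (hf : ∀ y ∈ A, f y ≤ n) (hfew : ((A.filter (fun y => t ≤ f y)).card : ℝ) ≤ t) :
    ∑ y ∈ A, f y ≤ 2 * t * n := by
  have h1 : ∀ y ∈ A, f y ≤ (if t ≤ f y then n else 0) + t := by
    intro y hy
    by_cases h : t ≤ f y
    · rw [if_pos h]
      linarith [hf y hy]
    · rw [if_neg h]
      linarith [not_le.1 h]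
  refine (sum_le_sum h1).trans ?_
  rw [sum_add_distrib, ← sum_filter, sum_const, sum_const, nsmul_eq_mul, nsmul_eq_mul]
  have h2 := mul_le_mul_of_nonneg_right hfew hn
  have h3 := mul_le_mul_of_nonneg_right hA ht
  nlinarith

theorem cn_le (X : Finset V) (x y : V) : cn R X x y ≤ (X.card : ℝ) := by
  unfold cn
  exact_mod_cast card_le_card (inter_subset_left.trans (filter_subset _ _))

theorem cn_eq (X : Finset V) (x y : V) :
    cn R X x y = ∑ u ∈ X, (if R u x then (1 : ℝ) else 0) * (if R u y then (1 : ℝ) else 0) := by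
  have h1 : nI R X x ∩ nI R X y = X.filter (fun u => R u x ∧ R u y) := by
    ext u
    simp only [mem_inter, mem_nI, mem_filter]
    tauto
  unfold cn
  rw [h1, card_filter]
  push_cast
  refine sum_congr rfl fun u _ => ?_
  by_cases hx : R u x <;> by_cases hy : R u y <;> simp [hx, hy]

theorem nO_card (B : Finset V) (u : V) : ((nO R B u).card : ℝ) = ∑ x ∈ B, (if R u x then (1 : ℝ) else 0) := by
  unfold nO
  rw [card_filter]
  push_cast
  rfl

/-- double counting of the common in-neighbours -/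
theorem sum_cn (B A X : Finset V) : ∑ x ∈ B, ∑ y ∈ A, cn R X x y =
    ∑ u ∈ X, ((nO R B u).card : ℝ) * ((nO R A u).card : ℝ) := by
  simp only [cn_eq, nO_card, sum_mul_sum]
  exact (sum_congr rfl fun x _ => sum_comm).trans sum_comm

theorem sum_cn_one (A X : Finset V) (x : V) :
    ∑ y ∈ A, cn R X x y = ∑ u ∈ nI R X x, ((nO R A u).card : ℝ) := by
  have h1 : ∀ y, nI R X x ∩ nI R X y = nI R (nI R X x) y := by
    intro y
    ext u
    simp only [mem_inter, mem_nI]
    tauto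
  have h2 := sum_nO_eq_sum_nI (R := R) (nI R X x) A
  unfold cn
  simp only [h1]
  exact_mod_cast h2.symm

/-- the vertices outside the next level set have few common in-neighbours with the level set -/
theorem sum_out {X A : Finset V} {t : ℝ} (ht : 0 ≤ t) (hA : A ⊆ X) {x : V} (hx : x ∈ X) (hx' : x ∉ nx R X t A) :
    ∑ y ∈ A, cn R X x y ≤ 2 * t * X.card := by
  refine sum_le_of_few ht (by positivity) (by exact_mod_cast card_le_card hA) (fun y _ => cn_le X x y) ?_
  by_contra h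
  refine hx' (mem_union_right _ (mem_filter.2 ⟨hx, ?_⟩))
  exact (not_le.1 h).le

theorem nx_sub {X A : Finset V} {t : ℝ} (hA : A ⊆ X) : nx R X t A ⊆ X :=
  union_subset hA (filter_subset _ _)

theorem low_card (hT : AE32.Tour R) (B : Finset V) {m : ℝ} (hm : 0 ≤ m) :
    ((B.filter (fun v => ((nO R B v).card : ℝ) ≤ m)).card : ℝ) ≤ 2 * m + 1 := by
  have h1 : B.filter (fun v => ((nO R B v).card : ℝ) ≤ m) ⊆ B.filter (fun v => (nO R B v).card ≤ ⌊m⌋₊) := by
    intro v hv
    rw [mem_filter] at hv ⊢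
    exact ⟨hv.1, Nat.le_floor hv.2⟩
  have h2 := (card_le_card h1).trans (card_low hT B ⌊m⌋₊)
  have h3 : ((B.filter (fun v => ((nO R B v).card : ℝ) ≤ m)).card : ℝ) ≤ ((2 * ⌊m⌋₊ + 1 : ℕ) : ℝ) := by
    exact_mod_cast h2
  have h4 := Nat.floor_le hm
  push_cast at h3
  linarith

/-- few arcs between the complement of the next level set and the level set -/
theorem ar_out (hT : AE32.Tour R) {X A : Finset V} {μ : ℝ} (hμ : 0 < μ) (hX : 0 < X.card) (hA : A ⊆ X) :
    (ar R (X \ nx R X (μ ^ 3 / 2 * X.card) A) A : ℝ) ≤ (4 * (μ * X.card) + 1) * X.card := by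
  set n : ℝ := (X.card : ℝ) with hn
  have hn0 : 0 < n := by rw [hn]; exact_mod_cast hX
  set t : ℝ := μ ^ 3 / 2 * n with ht
  set m : ℝ := μ * n with hm
  have hm0 : 0 < m := mul_pos hμ hn0
  have ht0 : 0 ≤ t := by positivity
  set B := X \ nx R X t A with hB
  have hBX : B ⊆ X := sdiff_subset
  have hBn : (B.card : ℝ) ≤ n := by rw [hn]; exact_mod_cast card_le_card hBX
  have hAn : (A.card : ℝ) ≤ n := by rw [hn]; exact_mod_cast card_le_card hA
  set Bad := X.filter (fun u => m < ((nO R B u).card : ℝ) ∧ m < ((nO R A u).card : ℝ)) with hBad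
  have hbad : (Bad.card : ℝ) ≤ m := by
    have h1 : (Bad.card : ℝ) * (m * m) ≤ ∑ u ∈ X, ((nO R B u).card : ℝ) * ((nO R A u).card : ℝ) := by
      have h2 : (Bad.card : ℝ) * (m * m) = ∑ _u ∈ Bad, m * m := by rw [sum_const, nsmul_eq_mul]
      rw [h2]
      refine (sum_le_sum (g := fun u => ((nO R B u).card : ℝ) * ((nO R A u).card : ℝ)) ?_).trans
        (sum_le_sum_of_subset_of_nonneg (filter_subset _ _) (fun u _ _ => by positivity))
      intro u hu
      rw [hBad, mem_filter] at hu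
      exact mul_le_mul hu.2.1.le hu.2.2.le hm0.le (by positivity)
    have h3 : ∑ x ∈ B, ∑ y ∈ A, cn R X x y ≤ (B.card : ℝ) * (2 * t * n) := by
      have h4 : (B.card : ℝ) * (2 * t * n) = ∑ _x ∈ B, 2 * t * n := by rw [sum_const, nsmul_eq_mul]
      rw [h4]
      refine sum_le_sum fun x hx => ?_
      rw [hB, mem_sdiff] at hx
      exact sum_out ht0 hA hx.1 hx.2
    rw [sum_cn] at h3
    have h5 : (B.card : ℝ) * (2 * t * n) ≤ n * (2 * t * n) :=
      mul_le_mul_of_nonneg_right hBn (by positivity)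
    have h6 : n * (2 * t * n) = m * (m * m) := by rw [ht, hm]; ring
    have h7 : (Bad.card : ℝ) * (m * m) ≤ m * (m * m) := by linarith
    exact le_of_mul_le_mul_right h7 (by positivity)
  set Low := B.filter (fun v => ((nO R B v).card : ℝ) ≤ m) with hLow
  have hlow : (Low.card : ℝ) ≤ 2 * m + 1 := low_card hT B hm0.le
  have h1 : (ar R B A : ℝ) = ∑ u ∈ B, ((nO R A u).card : ℝ) := by
    unfold ar; push_cast; rfl
  have h2 : ∀ u ∈ B, ((nO R A u).card : ℝ) ≤ m + ((if u ∈ Bad then n else 0) + (if u ∈ Low then n else 0)) := by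
    intro u hu
    have h3 : ((nO R A u).card : ℝ) ≤ n := by
      refine le_trans ?_ hAn
      exact_mod_cast card_le_card (filter_subset _ _)
    have hs1 : (0 : ℝ) ≤ if u ∈ Bad then n else 0 := by split_ifs <;> linarith
    have hs2 : (0 : ℝ) ≤ if u ∈ Low then n else 0 := by split_ifs <;> linarith
    by_cases h : ((nO R A u).card : ℝ) ≤ m
    · linarith
    · by_cases h' : ((nO R B u).card : ℝ) ≤ m
      · have h4 : u ∈ Low := mem_filter.2 ⟨hu, h'⟩
        rw [if_pos h4]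
        linarith
      · have h4 : u ∈ Bad := mem_filter.2 ⟨hBX hu, not_le.1 h', not_le.1 h⟩
        rw [if_pos h4]
        linarith
  rw [h1]
  refine (sum_le_sum h2).trans ?_
  rw [sum_add_distrib, sum_add_distrib, sum_const, nsmul_eq_mul, ← sum_filter, ← sum_filter, sum_const, sum_const,
    nsmul_eq_mul, nsmul_eq_mul]
  have h5 : ((B.filter (fun u => u ∈ Bad)).card : ℝ) ≤ m := by
    refine le_trans ?_ hbad
    exact_mod_cast card_le_card (fun u hu => (mem_filter.1 hu).2)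
  have h6 : ((B.filter (fun u => u ∈ Low)).card : ℝ) ≤ 2 * m + 1 := by
    refine le_trans ?_ hlow
    exact_mod_cast card_le_card (fun u hu => (mem_filter.1 hu).2)
  have h7 := mul_le_mul_of_nonneg_right hBn hm0.le
  have h8 := mul_le_mul_of_nonneg_right h5 hn0.le
  have h9 := mul_le_mul_of_nonneg_right h6 hn0.le
  nlinarith

/-- growth of the level sets -/
theorem nx_step (hT : AE32.Tour R) {θ : ℝ} (hθ : 0 < θ) {X A : Finset V} (hX : 16 ≤ θ ^ 2 * X.card)
    (hE : Ex R (θ * X.card) X) (hA : A ⊆ X) (hAc : θ / 2 * X.card ≤ (A.card : ℝ))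
    (hB : θ / 4 * X.card ≤ ((X \ nx R X ((θ ^ 2 / 64) ^ 3 / 2 * X.card) A).card : ℝ)) :
    (A.card : ℝ) + θ ^ 2 / 8 * X.card ≤ ((nx R X ((θ ^ 2 / 64) ^ 3 / 2 * X.card) A).card : ℝ) := by
  set n : ℝ := (X.card : ℝ) with hn
  have hX0 : 0 < X.card := by
    rcases Nat.eq_zero_or_pos X.card with h | h
    · rw [hn, h] at hX
      norm_num at hX
    · exact h
  have hn0 : 0 < n := by rw [hn]; exact_mod_cast hX0
  have h1 := ar_out hT (μ := θ ^ 2 / 64) (by positivity) hX0 hA
  rw [← hn] at h1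
  set A' := nx R X ((θ ^ 2 / 64) ^ 3 / 2 * n) A with hA'
  have hAA' : A ⊆ A' := subset_union_left
  have hA'X : A' ⊆ X := nx_sub hA
  set B := X \ A' with hBdef
  have h2 := hE B sdiff_subset
  have h3 : X \ B = A' := Finset.sdiff_sdiff_eq_self hA'X
  rw [h3] at h2
  have h4 : θ / 4 * n ≤ ((min B.card A'.card : ℕ) : ℝ) := by
    rw [Nat.cast_min]
    refine le_min hB ?_
    have h5 : (A.card : ℝ) ≤ A'.card := by exact_mod_cast card_le_card hAA'
    have h6 : 0 < θ * n := mul_pos hθ hn0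
    linarith
  have h5 : ar R B A' = ar R B A + ar R B (A' \ A) := by
    have h6 : A' = A ∪ (A' \ A) := (union_sdiff_of_subset hAA').symm
    conv_lhs => rw [h6]
    exact ar_union_right disjoint_sdiff
  have h6 : (ar R B (A' \ A) : ℝ) ≤ n * ((A' \ A).card : ℝ) := by
    have h7 : (ar R B (A' \ A) : ℝ) ≤ (B.card : ℝ) * ((A' \ A).card : ℝ) := by exact_mod_cast ar_le
    have h8 : (B.card : ℝ) ≤ n := by rw [hn]; exact_mod_cast card_le_card sdiff_subset
    exact h7.trans (mul_le_mul_of_nonneg_right h8 (by positivity))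
  have h7 : θ * n * (θ / 4 * n) ≤ θ * n * ((min B.card A'.card : ℕ) : ℝ) :=
    mul_le_mul_of_nonneg_left h4 (by positivity)
  have h8 : (ar R B A' : ℝ) = ar R B A + ar R B (A' \ A) := by exact_mod_cast h5
  have h9 : ((A' \ A).card : ℝ) = A'.card - A.card := by
    have h10 := card_sdiff_add_card_eq_card hAA'
    have h11 : ((A' \ A).card : ℝ) + A.card = A'.card := by exact_mod_cast h10
    linarith
  rw [h9] at h6
  -- θ² n² / 4 ≤ (θ² n / 16 + 1) n + n (|A'| - |A|)
  have h10 : θ * n * (θ / 4 * n) ≤ (4 * (θ ^ 2 / 64 * n) + 1) * n + n * ((A'.card : ℝ) - A.card) := by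
    linarith
  have h11 : n * (θ ^ 2 / 4 * n) ≤ n * ((4 * (θ ^ 2 / 64 * n) + 1) + ((A'.card : ℝ) - A.card)) := by
    nlinarith
  have h12 := le_of_mul_le_mul_left h11 hn0
  nlinarith

/-- a level set with a small complement is followed by everything -/
theorem nx_full {θ : ℝ} (hθ : 0 < θ) (hθ1 : θ ≤ 1) {X A : Finset V} (hX : 2 ≤ X.card)
    (hE : Ex R (θ * X.card) X) (hA : A ⊆ X) (hAc : ((X \ A).card : ℝ) < θ / 4 * X.card) :
    nx R X ((θ ^ 2 / 64) ^ 3 / 2 * X.card) A = X := by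
  set n : ℝ := (X.card : ℝ) with hn
  have hn0 : 0 < n := by rw [hn]; exact_mod_cast (by omega : 0 < X.card)
  refine Subset.antisymm (nx_sub hA) ?_
  intro x hx
  by_contra hx'
  have h1 := sum_out (by positivity) hA hx hx'
  rw [← hn, sum_cn_one] at h1
  have h2 : ∀ u ∈ nI R X x, 3 / 4 * θ * n ≤ ((nO R A u).card : ℝ) := by
    intro u hu
    have huX : u ∈ X := (mem_nI.1 hu).1
    have h3 := deg_of_ex hE hX huX true
    have h4 : nb R true X u = nO R X u := by
      ext w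
      simp [nb, nO, Adj]
    rw [h4] at h3
    have h5 : nO R X u ⊆ nO R A u ∪ (X \ A) := by
      intro w hw
      rw [mem_nO] at hw
      by_cases hwA : w ∈ A
      · exact mem_union_left _ (mem_nO.2 ⟨hwA, hw.2⟩)
      · exact mem_union_right _ (mem_sdiff.2 ⟨hw.1, hwA⟩)
    have h6 : ((nO R X u).card : ℝ) ≤ (nO R A u).card + (X \ A).card := by
      exact_mod_cast (card_le_card h5).trans (card_union_le _ _)
    linarith
  have h3 : ((nI R X x).card : ℝ) * (3 / 4 * θ * n) ≤ ∑ u ∈ nI R X x, ((nO R A u).card : ℝ) := by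
    have h4 : ((nI R X x).card : ℝ) * (3 / 4 * θ * n) = ∑ _u ∈ nI R X x, 3 / 4 * θ * n := by
      rw [sum_const, nsmul_eq_mul]
    rw [h4]
    exact sum_le_sum h2
  have h4 : θ * n ≤ ((nI R X x).card : ℝ) := by
    have h5 := deg_of_ex hE hX hx false
    have h6 : nb R false X x = nI R X x := by
      ext w
      simp [nb, nI, Adj]
    rwa [h6] at h5
  have h5 : θ * n * (3 / 4 * θ * n) ≤ ((nI R X x).card : ℝ) * (3 / 4 * θ * n) :=
    mul_le_mul_of_nonneg_right h4 (by positivity)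
  have h6 : θ * n * (3 / 4 * θ * n) ≤ 2 * ((θ ^ 2 / 64) ^ 3 / 2 * n) * n := by linarith
  have h7 : (θ ^ 2 / 64) ^ 3 ≤ θ ^ 2 / 64 := by
    have h8 : θ ^ 2 / 64 ≤ 1 := by nlinarith
    have h9 : 0 ≤ θ ^ 2 / 64 := by positivity
    calc (θ ^ 2 / 64) ^ 3 = (θ ^ 2 / 64) * (θ ^ 2 / 64) ^ 2 := by ring
      _ ≤ (θ ^ 2 / 64) * 1 := mul_le_mul_of_nonneg_left (pow_le_one₀ h9 h8) h9
      _ = θ ^ 2 / 64 := mul_one _
  have h8 : 0 < n * n := by positivity
  have h9 : (θ ^ 2 / 64) ^ 3 * (n * n) ≤ θ ^ 2 / 64 * (n * n) := mul_le_mul_of_nonneg_right h7 h8.le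
  have h10 : 0 < θ ^ 2 * (n * n) := by positivity
  nlinarith

end Lev

open Lev in
/-- the levels, for one orientation -/
theorem lev_core {θ : ℝ} (hθ : 0 < θ) (hθ1 : θ ≤ 1) (hT : AE32.Tour R) {X : Finset V}
    (hX : 16 ≤ θ ^ 2 * X.card) (hX2 : 2 ≤ X.card) (hE : Ex R (θ * X.card) X) {G : Finset V} (hG : G ⊆ X)
    (hGc : θ / 2 * X.card ≤ (G.card : ℝ)) {J : ℕ} (hJ : 8 < θ ^ 2 * J) :
    ∃ lev : V → ℕ, (∀ x, lev x ≤ J + 1) ∧ (∀ x ∈ X, lev x = 0 → x ∈ G) ∧
      ∀ x ∈ X, 0 < lev x → (θ ^ 2 / 64) ^ 3 / 2 * X.card ≤ ((X.filter (fun y => lev y < lev x ∧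
          (θ ^ 2 / 64) ^ 3 / 2 * X.card ≤ ((nI R X x ∩ nI R X y).card : ℝ))).card : ℝ) := by
  set n : ℝ := (X.card : ℝ) with hn
  have hn0 : 0 < n := by rw [hn]; exact_mod_cast (by omega : 0 < X.card)
  set t : ℝ := (θ ^ 2 / 64) ^ 3 / 2 * n with ht
  set A : ℕ → Finset V := fun j => (nx R X t)^[j] G with hA
  have hA0 : A 0 = G := rfl
  have hAs : ∀ j, A (j + 1) = nx R X t (A j) := fun j => by
    rw [hA]
    exact Function.iterate_succ_apply' _ _ _
  have hAX : ∀ j, A j ⊆ X := by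
    intro j
    induction j with
    | zero => exact hG
    | succ j ih => rw [hAs]; exact nx_sub ih
  have hAm : ∀ j, A j ⊆ A (j + 1) := fun j => by rw [hAs]; exact subset_union_left
  have hmono : Monotone A := monotone_nat_of_le_succ hAm
  -- some complement is small
  have hsmall : ∃ j ≤ J, ((X \ A j).card : ℝ) < θ / 4 * n := by
    by_contra hcon
    push Not at hcon
    have hgrow : ∀ j ≤ J, θ / 2 * n ≤ ((A j).card : ℝ) ∧ (j : ℝ) * (θ ^ 2 / 8 * n) ≤ ((A j).card : ℝ) := by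
      intro j
      induction j with
      | zero =>
        intro _
        refine ⟨hGc, ?_⟩
        push_cast
        rw [zero_mul]
        positivity
      | succ j ih =>
        intro hj
        obtain ⟨i1, i2⟩ := ih (by omega)
        have h1 := nx_step hT hθ hX hE (hAX j) i1 (by
          have h2 := hcon (j + 1) hj
          rw [hAs] at h2
          exact h2)
        rw [← hn, ← ht, ← hAs] at h1
        have h3 : 0 ≤ θ ^ 2 / 8 * n := by positivity
        refine ⟨by linarith, ?_⟩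
        push_cast
        linarith
    have h1 := (hgrow J le_rfl).2
    have h2 : ((A J).card : ℝ) ≤ n := by rw [hn]; exact_mod_cast card_le_card (hAX J)
    have h3 : n < (J : ℝ) * (θ ^ 2 / 8 * n) := by
      have h4 : 8 * n < (θ ^ 2 * J) * n := mul_lt_mul_of_pos_right hJ hn0
      nlinarith
    linarith
  obtain ⟨j₀, hj₀, hs⟩ := hsmall
  have hfull : A (J + 1) = X := by
    have h1 : A (j₀ + 1) = X := by
      rw [hAs]
      exact nx_full hθ hθ1 hX2 hE (hAX j₀) hs
    refine Subset.antisymm (hAX _) ?_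
    rw [← h1]
    exact hmono (by omega)
  -- the levels
  refine ⟨fun x => sInf {j | x ∈ A j}, ?_, ?_, ?_⟩
  · intro x
    by_cases hx : x ∈ X
    · exact Nat.sInf_le (by rw [Set.mem_ofPred_eq, hfull]; exact hx)
    · have h1 : {j | x ∈ A j} = ∅ := by
        ext j
        simp only [Set.mem_ofPred_eq, Set.mem_empty_iff_false, iff_false]
        exact fun h => hx (hAX j h)
      show sInf {j | x ∈ A j} ≤ J + 1
      rw [h1]
      simp
  · intro x hx h0
    have hne : {j | x ∈ A j}.Nonempty := ⟨J + 1, by rw [Set.mem_ofPred_eq, hfull]; exact hx⟩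
    have h1 := Nat.sInf_mem hne
    have h0' : sInf {j | x ∈ A j} = 0 := h0
    rw [h0'] at h1
    exact h1
  · intro x hx h0
    have hne : {j | x ∈ A j}.Nonempty := ⟨J + 1, by rw [Set.mem_ofPred_eq, hfull]; exact hx⟩
    have h0' : 0 < sInf {j | x ∈ A j} := h0
    obtain ⟨j, hj⟩ : ∃ j, sInf {j | x ∈ A j} = j + 1 := ⟨sInf {j | x ∈ A j} - 1, by omega⟩
    have h1 : x ∈ A (j + 1) := by
      have h2 := Nat.sInf_mem hne
      rwa [hj] at h2
    have h2 : x ∉ A j := by
      intro h3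
      have h4 : sInf {j | x ∈ A j} ≤ j := Nat.sInf_le h3
      omega
    rw [hAs] at h1
    have h3 : t ≤ (((A j).filter (fun y => t ≤ cn R X x y)).card : ℝ) := by
      rcases mem_union.1 h1 with h4 | h4
      · exact absurd h4 h2
      · exact (mem_filter.1 h4).2
    refine h3.trans ?_
    have h5 : (A j).filter (fun y => t ≤ cn R X x y) ⊆ X.filter (fun y => sInf {j | y ∈ A j} < sInf {j | x ∈ A j} ∧
        t ≤ ((nI R X x ∩ nI R X y).card : ℝ)) := by
      intro y hy
      rw [mem_filter] at hy ⊢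
      refine ⟨hAX j hy.1, ?_, hy.2⟩
      have h6 : sInf {j | y ∈ A j} ≤ j := Nat.sInf_le hy.1
      omega
    exact_mod_cast card_le_card h5

/-- **levels by common neighbours** -/
theorem ex_levels {θ : ℝ} (hθ : 0 < θ) (hθ1 : θ ≤ 1) : ∃ (J n₁ : ℕ) (δ : ℝ), 0 < δ ∧ ∀ {V : Type} {R : V → V → Prop},
    AE32.Tour R → ∀ X : Finset V, n₁ ≤ X.card → Ex R (θ * X.card) X → ∀ (e : Bool) (G : Finset V), G ⊆ X →
      θ / 2 * X.card ≤ G.card → ∃ lev : V → ℕ, (∀ x, lev x ≤ J) ∧ (∀ x ∈ X, lev x = 0 → x ∈ G) ∧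
        ∀ x ∈ X, 0 < lev x → δ * X.card ≤ ((X.filter (fun y => lev y < lev x ∧
          δ * X.card ≤ ((nb R (!e) X x ∩ nb R (!e) X y).card : ℝ))).card : ℝ) := by
  obtain ⟨J, hJ⟩ := exists_nat_gt (8 / θ ^ 2)
  obtain ⟨n₁, hn₁⟩ := exists_nat_gt (16 / θ ^ 2)
  have hθ2 : 0 < θ ^ 2 := by positivity
  rw [div_lt_iff₀ hθ2] at hJ hn₁
  refine ⟨J + 1, max n₁ 2, (θ ^ 2 / 64) ^ 3 / 2, by positivity, ?_⟩
  intro V R hT X hX hE e G hG hGc
  have hX1 : n₁ ≤ X.card := (le_max_left _ _).trans hX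
  have hX2 : 2 ≤ X.card := (le_max_right _ _).trans hX
  have h16 : 16 ≤ θ ^ 2 * X.card := by
    have h1 : (n₁ : ℝ) ≤ X.card := by exact_mod_cast hX1
    nlinarith
  have h8 : 8 < θ ^ 2 * J := by linarith
  obtain ⟨lev, l1, l2, l3⟩ := lev_core hθ hθ1 (tour_adj hT e) h16 hX2 (hE.adj e) hG hGc h8
  refine ⟨lev, l1, l2, ?_⟩
  intro x hx h0
  have h1 : ∀ y, nb R (!e) X y = nI (Adj R e) X y := by
    intro y
    ext u
    cases e <;> simp [nb, nI, Adj]
  simp only [h1]
  exact l3 x hx h0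

end AESP
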