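import Pool.Agent.AESP.Defs

/-!
# One hole on a directed path
-/

set_option autoImplicit false

namespace AESP

open Finset AE15 AED AELT AEX AESK
open scoped Classical

variable {V : Type} {R : V → V → Prop}

namespace PD

theorem wk_append (y : V) (l₁ l₂ : List (Bool × V)) (d : Bool) (v : V) :
    Wk R y (l₁ ++ (d, v) :: l₂) ↔ Wk R y (l₁ ++ [(d, v)]) ∧ Wk R v l₂ := by
  induction l₁ generalizing y with
  | nil => simp [Wk]
  | cons t l₁ ih => simp only [List.cons_append, Wk, ih, and_assoc]

theorem nodup_of_card (l : List V) (h : l.toFinset.card = l.length) : l.Nodup := by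
  have h1 : (Multiset.toFinset (l : Multiset V)).card = Multiset.card (l : Multiset V) := by
    simpa using h
  have h2 := (Multiset.toFinset_card_eq_card_iff_nodup (m := (l : Multiset V))).1 h1
  simpa using h2

/-- the items on the path -/
def its (l : List (Bool × List (Bool × Fd))) (hs : List V) : List (V × (Bool × Fd)) :=
  (l.zip hs).flatMap (fun t => t.1.2.map (fun r => (t.2, r)))

theorem its_cons (t : Bool × List (Bool × Fd)) (l : List (Bool × List (Bool × Fd))) (v : V) (hs : List V) :
    its (t :: l) (v :: hs) = t.2.map (fun r => (v, r)) ++ its l hs := rfl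

theorem its_append (l l' : List (Bool × List (Bool × Fd))) (hs hs' : List V) (h : l.length = hs.length) :
    its (l ++ l') (hs ++ hs') = its l hs ++ its l' hs' := by
  unfold its
  rw [List.zip_append h, List.flatMap_append]

theorem its_bare (n : ℕ) (e : Bool) (hs : List V) :
    its (List.replicate n (e, [])) hs = [] := by
  induction n generalizing hs with
  | zero => rfl
  | succ n ih =>
    cases hs with
    | nil => rfl
    | cons v hs =>
      rw [List.replicate_succ, its_cons, ih]
      rfl

theorem its_snd (l : List (Bool × List (Bool × Fd))) (hs : List V) (h : hs.length = l.length) :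
    (its l hs).map Prod.snd = (l.map Prod.snd).flatten := by
  induction l generalizing hs with
  | nil => rfl
  | cons t l ih =>
    cases hs with
    | nil => simp at h
    | cons v hs =>
      rw [its_cons, List.map_append, ih hs (by simpa using h), List.map_cons, List.flatten_cons,
        List.map_map]
      congr 1
      exact List.map_id' _

theorem its_fst (l : List (Bool × List (Bool × Fd))) (hs : List V) : ∀ t ∈ its l hs, t.1 ∈ hs := by
  intro t ht
  unfold its at ht
  rw [List.mem_flatMap] at ht
  obtain ⟨u, hu, ht⟩ := ht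
  rw [List.mem_map] at ht
  obtain ⟨r, -, rfl⟩ := ht
  exact (List.of_mem_zip hu).2

/-- the walk of a path with hosts -/
def wl (l : List (Bool × List (Bool × Fd))) (hs : List V) : List (Bool × V) :=
  (l.map Prod.fst).zip hs

/-- the tree `p` behind `y`, from the hosts of a path and the items on it -/
theorem spine_items {l : List (Bool × List (Bool × Fd))} {p q : Bool × Fd} (h : Spine l p q) :
    ∀ (y z : V) (hs : List V), hs.length = l.length → Wk R y (wl l hs ++ [(q.1, z)]) →
      (hs ++ [z]).Nodup → ∀ A : Finset V, Disjoint (hs ++ [z]).toFinset A →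
      EmbI R (its l hs ++ q.2.trees.map (fun r => (z, r))) A →
      EmbL R y [p] ((hs ++ [z]).toFinset ∪ A) := by
  induction h with
  | nil p =>
    intro y z hs hlen hw hnd A hA hI
    obtain rfl : hs = [] := List.length_eq_zero_iff.1 hlen
    simp only [List.nil_append, List.toFinset_cons, List.toFinset_nil, insert_empty_eq] at hA ⊢
    have h1 : EmbI R (p.2.trees.map (fun r => (z, r))) A := hI
    have h2 : Emb R p.2 z A := (emb_iff _ _ _).2 (EmbL.items.2 h1)
    have h3 : Adj R p.1 y z := hw.1
    have hz : z ∉ A := disjoint_singleton_left.1 hA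
    refine ⟨insert z A, ∅, disjoint_empty_right _, ?_, ⟨z, A, h3, hz, rfl, h2⟩, rfl⟩
    rw [union_empty]
    rfl
  | cons d c s p q l hperm _ ih =>
    intro y z hs hlen hw hnd A hA hI
    obtain _ | ⟨x, hs⟩ := hs
    · simp at hlen
    simp only [List.length_cons, Nat.add_right_cancel_iff] at hlen
    simp only [wl, List.map_cons, List.zip_cons_cons, List.cons_append, Wk] at hw
    rw [List.cons_append, List.nodup_cons] at hnd
    rw [its_cons, List.append_assoc, EmbI.append_iff] at hI
    obtain ⟨A₁, A₂, hd, rfl, hI1, hI2⟩ := hI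
    simp only at hI1
    rw [List.cons_append, List.toFinset_cons, disjoint_insert_left, mem_union, not_or,
      disjoint_union_right] at hA
    obtain ⟨⟨hx1, hx2⟩, hA1, hA2⟩ := hA
    have hS := ih x z hs hlen hw.2 hnd.2 A₂ hA2 hI2
    have hx1' : EmbL R x s A₁ := EmbL.items.2 hI1
    set U := (hs ++ [z]).toFinset with hU
    have hxU : x ∉ U := by rw [hU, List.mem_toFinset]; exact hnd.1
    obtain ⟨S₁, S₂, f1, f2, f3, f4⟩ := hS
    obtain rfl : S₂ = ∅ := f4
    rw [union_empty] at f2
    have hdd : Disjoint (U ∪ A₂) A₁ := disjoint_union_left.2 ⟨hA1, hd.symm⟩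
    have hx : EmbL R x (p :: s) ((U ∪ A₂) ∪ A₁) := ⟨U ∪ A₂, A₁, hdd, rfl, by rw [f2]; exact f3, hx1'⟩
    have hx' : Emb R c x ((U ∪ A₂) ∪ A₁) := (emb_iff c x _).2 (hx.perm hperm.symm)
    refine ⟨insert x ((U ∪ A₂) ∪ A₁), ∅, disjoint_empty_right _, ?_, ⟨x, _, hw.1, ?_, rfl, hx'⟩, rfl⟩
    · rw [List.cons_append, List.toFinset_cons]
      ext u
      simp only [mem_union, mem_insert, notMem_empty, or_false]
      tauto
    · rw [mem_union, mem_union, not_or, not_or]
      exact ⟨⟨hxU, hx2⟩, hx1⟩

/-- a connection: the first hosts greedily, the last `L` ones by `Conn` -/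
theorem conn_path {L w₀ : ℕ} {X Q : Finset V} (hQ : Q ⊆ X) (hconn : Conn R X Q L w₀)
    (hdeg : ∀ v ∈ X, ∀ d : Bool, w₀ ≤ (nb R d Q v).card) {a : V} (ha : a ∈ X) (d : Bool) :
    ∀ (ds : List Bool), L ≤ ds.length → ∀ (z : V), z ∈ X → ∀ (W : Finset V),
      (W ∩ Q).card + ds.length ≤ w₀ →
      ∃ hl : List V, hl.length = ds.length ∧ Wk R z (ds.zip hl ++ [(d, a)]) ∧ hl.Nodup ∧
        ∀ v ∈ hl, v ∈ Q ∧ v ∉ W := by
  intro ds
  induction ds with
  | nil =>
    intro hL z hz W hW
    have hL0 : L = 0 := by simpa using hL
    obtain ⟨l, h1, h2, h3, h4⟩ := hconn z hz a ha [] (by simp [hL0]) d W (by simpa using hW)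
    have hl : l = [] := by simpa using h1
    subst hl
    exact ⟨[], rfl, by simpa using h2, List.nodup_nil, by simp⟩
  | cons e ds ih =>
    intro hL z hz W hW
    rcases Nat.lt_or_ge ds.length L with hlt | hge
    · have hLe : (e :: ds).length = L := by
        have := hL
        simp only [List.length_cons] at this ⊢
        omega
      obtain ⟨l, h1, h2, h3, h4⟩ := hconn z hz a ha (e :: ds) hLe d W (by omega)
      refine ⟨l.map Prod.snd, ?_, ?_, h3, ?_⟩
      · rw [List.length_map, ← h1, List.length_map]
      · have : (e :: ds).zip (l.map Prod.snd) = l := by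
          rw [← h1]
          have h5 := List.zip_unzip l
          rw [List.unzip_eq_map] at h5
          exact h5
        rw [this]
        exact h2
      · intro v hv
        rw [List.mem_map] at hv
        obtain ⟨u, hu, rfl⟩ := hv
        exact h4 u hu
    · have hcard : (W ∩ Q).card < (nb R e Q z).card := by
        have := hdeg z hz e
        simp only [List.length_cons] at hW
        omega
      obtain ⟨v, hv, hvW⟩ := Finset.exists_mem_notMem_of_card_lt_card hcard
      have hv' := hv
      unfold nb at hv'
      rw [Finset.mem_filter] at hv'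
      have hvW' : v ∉ W := fun h => hvW (Finset.mem_inter.2 ⟨h, hv'.1⟩)
      obtain ⟨hl, h1, h2, h3, h4⟩ := ih hge v (hQ hv'.1) (insert v W) (by
        have : (insert v W ∩ Q).card ≤ (W ∩ Q).card + 1 := by
          rw [Finset.insert_inter_of_mem hv'.1]
          exact Finset.card_insert_le _ _
        simp only [List.length_cons] at hW
        omega)
      refine ⟨v :: hl, by simp [h1], ?_, ?_, ?_⟩
      · simp only [List.zip_cons_cons, List.cons_append, Wk]
        exact ⟨hv'.2, h2⟩
      · rw [List.nodup_cons]
        exact ⟨fun h => (h4 v h).2 (Finset.mem_insert_self _ _), h3⟩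
      · intro u hu
        rcases List.mem_cons.1 hu with rfl | hu
        · exact ⟨hv'.1, hvW'⟩
        · exact ⟨(h4 u hu).1, fun h => (h4 u hu).2 (Finset.mem_insert_of_mem h)⟩

theorem wl_append (l l' : List (Bool × List (Bool × Fd))) (hs hs' : List V)
    (h : l.length = hs.length) : wl (l ++ l') (hs ++ hs') = wl l hs ++ wl l' hs' := by
  unfold wl
  rw [List.map_append, List.zip_append (by simpa using h)]

theorem wl_cons (t : Bool × List (Bool × Fd)) (l : List (Bool × List (Bool × Fd))) (v : V)
    (hs : List V) : wl (t :: l) (v :: hs) = (t.1, v) :: wl l hs := rfl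

/-- a walk with constant signs -/
theorem wl_rep (e : Bool) (hs : List V) :
    wl (List.replicate hs.length (e, ([] : List (Bool × Fd)))) hs = hs.map (fun v => (e, v)) := by
  induction hs with
  | nil => rfl
  | cons v hs ih =>
    rw [List.length_cons, List.replicate_succ, wl_cons, ih]
    rfl

theorem map_sign (e : Bool) (w : List (Bool × V)) (h : w.map Prod.fst = List.replicate w.length e) :
    w = (w.map Prod.snd).map (fun v => (e, v)) := by
  induction w with
  | nil => rfl
  | cons t w ih =>
    rw [List.map_cons, List.length_cons, List.replicate_succ, List.cons.injEq] at h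
    rw [List.map_cons, List.map_cons, ← ih h.2]
    congr 1
    exact Prod.ext h.1 rfl

end PD

open PD in
/-- one hole on a directed path -/
theorem place_dir {b L w₀ : ℕ} {X Q : Finset V} (hQ : Q ⊆ X) (hconn : Conn R X Q L w₀)
    (hdeg : ∀ v ∈ X, ∀ d : Bool, w₀ ≤ (nb R d Q v).card) {z : V} (hz : z ∈ X)
    {p : Bool × Fd} (hp : p.2.len ≤ b) (hpd : p.2.Deg b) {l : List (Bool × List (Bool × Fd))}
    (d : Bool) (s : List (Bool × Fd)) (e : Bool) (c : Fd)
    (hs : Spine (l ++ [(d, s)] ++ List.replicate (L + 3) (e, [])) p (e, c))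
    (hl : L ≤ l.length) {D : Dat V} (hD : Okd R .dir D) (hDX : supp D ⊆ X)
    (hDQ : Disjoint (supp D) Q) {W : Finset V} (hzW : z ∈ W) (hWD : Disjoint W (supp D))
    (hW : W.card + l.length + 2 * L + 5 ≤ w₀) {ι : Type} (C : ι → V → Prop) (i : ι)
    (hC : ∀ x, C i x → Cnd R .dir D x) :
    ∃ (Z : Finset V) (I : List (V × (Bool × Fd))), HI R C [(z, p)] Z {i} I ∧
      I.map Prod.snd = (l.map Prod.snd).flatten ++ s ++ c.trees ∧
      Z ⊆ Q ∪ (supp D).erase (yv D) ∧ Disjoint Z W ∧ Z.card ≤ l.length + L + 5 ∧
      Z.card + 1 + tsz ((l.map Prod.snd).flatten ++ s ++ c.trees) = p.2.size + 1 ∧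
      (∀ t ∈ I, t.1 ∈ Z) ∧
      ∀ t ∈ (l.map Prod.snd).flatten ++ s ++ c.trees, t.2.len ≤ b ∧ t.2.Deg b := by
  obtain ⟨D1, D2, y, G1, G2⟩ := D
  simp only [Okd] at hD
  obtain ⟨hcard, hac, hg1y, hyg2, hg12⟩ := hD
  simp only [yv] at hg1y hyg2 ⊢
  simp only [Cnd, yv] at hC
  -- the data in the order of the path
  obtain ⟨a, c', g1, g2, hset, r1, r2, r3, r4, r5⟩ : ∃ a c' g1 g2 : V,
      ({a, c', y, g1, g2} : Finset V) = supp (D1, D2, y, G1, G2) ∧ Adj R e a c' ∧ Adj R e g1 y ∧
        Adj R e y g2 ∧ Adj R e g1 g2 ∧
        ∀ x, C i x → x = y ∨ (Adj R e a x ∧ Adj R e x c') := by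
    cases e with
    | true =>
      refine ⟨D1, D2, G1, G2, rfl, hac, hg1y, hyg2, hg12, ?_⟩
      intro x hx
      exact hC x hx
    | false =>
      refine ⟨D2, D1, G2, G1, ?_, hac, hyg2, hg1y, hg12, ?_⟩
      · simp only [supp]
        ext u
        simp only [mem_insert, mem_singleton]
        tauto
      · intro x hx
        rcases hC x hx with h | ⟨h1, h2⟩
        · exact Or.inl h
        · exact Or.inr ⟨h2, h1⟩
  set S5 : Finset V := supp (D1, D2, y, G1, G2) with hS5
  have hmem : ∀ u, u = a ∨ u = c' ∨ u = y ∨ u = g1 ∨ u = g2 → u ∈ S5 := by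
    intro u hu
    rw [← hset]
    simp only [mem_insert, mem_singleton]
    exact hu
  have hS4 : S5.erase y = {a, c', g1, g2} := by
    have h5 : ([a, c', y, g1, g2] : List V).Nodup := by
      apply nodup_of_card
      have : ([a, c', y, g1, g2] : List V).toFinset = S5 := by
        rw [← hset]
        simp [List.toFinset_cons]
      rw [this, hcard]
      rfl
    simp only [List.nodup_cons, List.mem_cons, List.not_mem_nil, not_or, or_false,
      List.nodup_nil, and_true, not_false_eq_true] at h5
    rw [← hset]
    ext u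
    simp only [mem_erase, mem_insert, mem_singleton]
    constructor
    · rintro ⟨h1, h2⟩
      tauto
    · intro h
      refine ⟨?_, by tauto⟩
      rintro rfl
      rcases h with h | h | h | h
      · exact h5.1.2.1 h.symm
      · exact h5.2.1.1 h.symm
      · exact h5.2.2.1.1 h
      · exact h5.2.2.1.2 h
  have hS4c : ({a, c', g1, g2} : Finset V).card = 4 := by
    rw [← hS4, card_erase_of_mem (hmem y (by tauto)), hcard]
  -- the hosts of the first part
  have hWQ : (W ∩ Q).card ≤ W.card := card_le_card inter_subset_left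
  obtain ⟨hl1, a1, a2, a3, a4⟩ := conn_path hQ hconn hdeg (hDX (hmem a (by tauto))) d
    (l.map Prod.fst) (by simpa using hl) z hz W (by rw [List.length_map]; omega)
  rw [List.length_map] at a1
  -- the connection from `c'` to `g1`
  obtain ⟨w, b1, b2, b3, b4⟩ := hconn c' (hDX (hmem c' (by tauto))) g1
    (hDX (hmem g1 (by tauto))) (List.replicate L e) (by simp) e (W ∪ hl1.toFinset) (by
      have h1 : ((W ∪ hl1.toFinset) ∩ Q).card ≤ (W ∪ hl1.toFinset).card :=
        card_le_card inter_subset_left
      have h2 := card_union_le W hl1.toFinset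
      have h3 := List.toFinset_card_le hl1
      omega)
  have bL : w.length = L := by
    have := congrArg List.length b1
    simpa using this
  set ws : List V := w.map Prod.snd with hws
  have bws : w = ws.map (fun v => (e, v)) := map_sign e w (by rw [b1, bL])
  have wsL : ws.length = L := by rw [hws, List.length_map, bL]
  have ws4 : ∀ v ∈ ws, v ∈ Q ∧ v ∉ W ∧ v ∉ hl1 := by
    intro v hv
    rw [hws, List.mem_map] at hv
    obtain ⟨u, hu, rfl⟩ := hv
    have := b4 u hu
    rw [mem_union, not_or, List.mem_toFinset] at this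
    exact ⟨this.1, this.2.1, this.2.2⟩
  have hQD : ∀ v ∈ Q, v ∉ S5 := fun v hv h => disjoint_left.1 hDQ h hv
  -- the set
  set Z : Finset V := (hl1.toFinset ∪ ws.toFinset) ∪ {a, c', g1, g2} with hZ
  have hd1 : Disjoint hl1.toFinset ws.toFinset := by
    rw [disjoint_left]
    intro v hv hv'
    rw [List.mem_toFinset] at hv hv'
    exact (ws4 v hv').2.2 hv
  have hQsub : hl1.toFinset ∪ ws.toFinset ⊆ Q := by
    intro v hv
    rw [mem_union, List.mem_toFinset, List.mem_toFinset] at hv
    rcases hv with h | h
    · exact (a4 v h).1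
    · exact (ws4 v h).1
  have h4sub : ({a, c', g1, g2} : Finset V) ⊆ S5 := by
    rw [← hS4]; exact erase_subset _ _
  have hd2 : Disjoint (hl1.toFinset ∪ ws.toFinset) ({a, c', g1, g2} : Finset V) := by
    rw [disjoint_left]
    intro v hv hv'
    exact hQD v (hQsub hv) (h4sub hv')
  have hZc : Z.card = l.length + L + 4 := by
    rw [hZ, card_union_of_disjoint hd2, card_union_of_disjoint hd1,
      List.toFinset_card_of_nodup a3, List.toFinset_card_of_nodup b3, hS4c, a1, wsL]
  have hZsub : Z ⊆ Q ∪ S5.erase y := by
    rw [hZ, hS4]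
    exact union_subset_union_left hQsub
  have hZW : Disjoint Z W := by
    rw [hZ, disjoint_union_left, disjoint_union_left]
    refine ⟨⟨?_, ?_⟩, ?_⟩
    · rw [disjoint_left]
      intro v hv
      exact (a4 v (List.mem_toFinset.1 hv)).2
    · rw [disjoint_left]
      intro v hv
      exact (ws4 v (List.mem_toFinset.1 hv)).2.1
    · exact (hWD.mono_right h4sub).symm
  -- the items
  set I : List (V × (Bool × Fd)) := its l hl1 ++ s.map (fun r => (a, r)) ++
    c.trees.map (fun r => (g2, r)) with hI
  have hIsnd : I.map Prod.snd = (l.map Prod.snd).flatten ++ s ++ c.trees := by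
    rw [hI, List.map_append, List.map_append, its_snd l hl1 a1, List.map_map, List.map_map]
    congr 1
    · congr 1
      exact List.map_id' _
    · exact List.map_id' _
  -- the embedding, for a list of hosts of the directed path
  have hWkc : Wk R c' (ws.map (fun v => (e, v)) ++ [(e, g1)]) := by rw [← bws]; exact b2
  have main : ∀ hp' : List V, hp'.length = L + 3 →
      Wk R a (hp'.map (fun v => (e, v)) ++ [(e, g2)]) → ∀ x : V,
      (hl1 ++ [a] ++ hp' ++ [g2]).toFinset = Z ∪ {x} → x ∉ Z → ∀ A : Finset V,
      Disjoint (Z ∪ {x}) A → EmbI R I A → EmbI R [(z, p)] (Z ∪ {x} ∪ A) := by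
    intro hp' hlen hwk x hset' hxZ A hA hE
    have hnd : (hl1 ++ [a] ++ hp' ++ [g2]).Nodup := by
      apply nodup_of_card
      rw [hset', card_union_of_disjoint (disjoint_singleton_right.2 hxZ), card_singleton, hZc]
      simp only [List.length_append, List.length_cons, List.length_nil, a1, hlen]
      omega
    rw [EmbI.single, ← hset']
    refine spine_items hs z g2 (hl1 ++ [a] ++ hp') ?_ ?_ hnd A (by rw [hset']; exact hA) ?_
    · simp only [List.length_append, List.length_cons, List.length_nil, List.length_replicate,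
        a1, hlen]
    · rw [wl_append _ _ _ _ (by simp [a1]), wl_append _ _ _ _ a1.symm]
      have e1 : wl (List.replicate (L + 3) (e, ([] : List (Bool × Fd)))) hp' =
          hp'.map (fun v => (e, v)) := by
        rw [← hlen]
        exact wl_rep e hp'
      rw [e1]
      have e2 : wl l hl1 ++ wl [(d, s)] [a] ++ hp'.map (fun v => (e, v)) ++ [((e, c).1, g2)] =
          wl l hl1 ++ (d, a) :: (hp'.map (fun v => (e, v)) ++ [(e, g2)]) := by
        simp [wl]
      rw [e2, wk_append]
      exact ⟨a2, hwk⟩
    · rw [its_append _ _ _ _ (by simp [a1]), its_append _ _ _ _ a1.symm, its_bare, List.append_nil,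
        its_cons]
      have e3 : its ([] : List (Bool × List (Bool × Fd))) ([] : List V) = [] := rfl
      rw [e3, List.append_nil]
      exact hE
  refine ⟨Z, I, ?_, hIsnd, hZsub, hZW, by omega, ?_, ?_, ?_⟩
  · intro g hg hgi hZg A hA hE
    rw [image_singleton] at hZg hA ⊢
    have hxZ : g i ∉ Z := disjoint_singleton_right.1 hZg
    have hgC := r5 (g i) (hg i (mem_singleton_self i))
    rcases hgC with hgy | ⟨h1, h2⟩
    · -- the vertex `y` stays at its place
      refine main (c' :: (ws ++ [g1, y])) ?_ ?_ (g i) ?_ hxZ A hA hE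
      · simp [wsL]
      · simp only [List.map_cons, List.map_append, List.map_nil, List.cons_append,
          List.append_assoc, List.nil_append, Wk]
        refine ⟨r1, ?_⟩
        rw [wk_append]
        refine ⟨hWkc, ?_⟩
        exact ⟨r2, r3, trivial⟩
      · rw [hgy, hZ]
        ext u
        simp only [List.toFinset_append, List.toFinset_cons, List.toFinset_nil, mem_union,
          mem_insert, mem_singleton, List.mem_toFinset, notMem_empty, or_false]
        tauto
    · -- a new vertex between `a` and `c'`
      refine main (g i :: c' :: (ws ++ [g1])) ?_ ?_ (g i) ?_ hxZ A hA hE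
      · simp [wsL]
      · simp only [List.map_cons, List.map_append, List.map_nil, List.cons_append,
          List.append_assoc, List.nil_append, Wk]
        refine ⟨h1, h2, ?_⟩
        rw [wk_append]
        refine ⟨hWkc, ?_⟩
        exact ⟨r4, trivial⟩
      · rw [hZ]
        ext u
        simp only [List.toFinset_append, List.toFinset_cons, List.toFinset_nil, mem_union,
          mem_insert, mem_singleton, List.mem_toFinset, notMem_empty, or_false]
        tauto
  · have h1 := spine_size hs
    simp only [psz_append] at h1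
    have h2 : psz l = l.length + tsz (l.map Prod.snd).flatten := by
      clear_value Z I
      clear * -
      induction l with
      | nil => rfl
      | cons t l ih =>
        rw [psz_cons, ih, List.map_cons, List.flatten_cons, tsz_append, List.length_cons]
        ring
    have h3 : psz [(d, s)] = 1 + tsz s := by rw [psz_cons, psz_nil]; rfl
    have h4 : psz (List.replicate (L + 3) (e, ([] : List (Bool × Fd)))) = L + 3 := by
      clear * -
      generalize L + 3 = n
      induction n with
      | zero => rfl
      | succ n ih =>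
        rw [List.replicate_succ, psz_cons, ih, tsz_nil]
        ring
    have h5 : c.size = tsz c.trees := Fd.size_eq c
    rw [tsz_append, tsz_append]
    omega
  · intro t ht
    rw [hI, List.mem_append, List.mem_append] at ht
    rw [hZ]
    rcases ht with (ht | ht) | ht
    · have := its_fst l hl1 t ht
      exact mem_union_left _ (mem_union_left _ (List.mem_toFinset.2 this))
    · rw [List.mem_map] at ht
      obtain ⟨r, -, rfl⟩ := ht
      exact mem_union_right _ (by simp)
    · rw [List.mem_map] at ht
      obtain ⟨r, -, rfl⟩ := ht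
      exact mem_union_right _ (by simp)
  · obtain ⟨q1, q2, q3⟩ := spine_deg hs hp hpd
    intro t ht
    rw [List.mem_append, List.mem_append] at ht
    rcases ht with (ht | ht) | ht
    · rw [List.mem_flatten] at ht
      obtain ⟨L', hL', ht⟩ := ht
      rw [List.mem_map] at hL'
      obtain ⟨u, hu, rfl⟩ := hL'
      exact (q3 u (by simp [hu])).2 t ht
    · exact (q3 (d, s) (by simp)).2 t ht
    · exact (Fd.deg_iff b c).1 q2 t ht

end AESP
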