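import Pool.Agent.AESP.Place7
import Pool.Agent.AESP.PlaceDir

/-!
# One hole
-/

set_option autoImplicit false

namespace AESP

open Finset AE15 AED AELT AEX AESK
open scoped Classical

variable {V : Type} {R : V → V → Prop}

theorem place {b L w₀ : ℕ} {X Q : Finset V} (hQ : Q ⊆ X) (hconn : Conn R X Q L w₀)
    (hdeg : ∀ v ∈ X, ∀ d : Bool, w₀ ≤ (nb R d Q v).card) {z : V} (hz : z ∈ X)
    {p : Bool × Fd} (hp : p.2.len ≤ b) (hpd : p.2.Deg b) {l : List (Bool × List (Bool × Fd))} {k : Kind}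
    {J : List (Bool × Fd)} (hG : Gad L p l k J) (hl : L ≤ l.length) {D : Dat V} (hD : Okd R k D) (hDX : supp D ⊆ X)
    (hDQ : Disjoint (supp D) Q) {W : Finset V} (hzW : z ∈ W) (hWD : Disjoint W (supp D))
    (hW : W.card + l.length + 2 * L + 5 ≤ w₀) {ι : Type} (C : ι → V → Prop) (i : ι)
    (hC : ∀ x, C i x → Cnd R k D x) :
    ∃ (Z : Finset V) (I : List (V × (Bool × Fd))), HI R C [(z, p)] Z {i} I ∧ I.map Prod.snd = J ∧
      Z ⊆ Q ∪ (supp D).erase (yv D) ∧ Disjoint Z W ∧ Z.card ≤ l.length + L + 5 ∧ Z.card + 1 + tsz J = p.2.size + 1 ∧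
      (∀ t ∈ I, t.1 ∈ Z) ∧ ∀ t ∈ J, t.2.len ≤ b ∧ t.2.Deg b := by
  cases hG with
  | leaf d s e hs => exact place_leaf hQ hconn hdeg hz hp hpd hs hl hD hDX hDQ hzW hWD hW C i hC
  | turn d s e c hs => exact place_turn hQ hconn hdeg hz hp hpd hs hl hD hDX hDQ hzW hWD hW C i hC
  | dir d s e c hs => exact place_dir hQ hconn hdeg hz hp hpd d s e c hs hl hD hDX hDQ hzW hWD hW C i hC

end AESP
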