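import Pool.Agent.AESP.HI0
import Pool.Agent.AESP.Place

/-!
# All holes
-/

set_option autoImplicit false

namespace AESP

open Finset AE15 AED AELT AEX AESK
open scoped Classical

variable {V : Type} {R : V → V → Prop}

/-- a preimage of the first element of a permuted image can be moved to the front -/
theorem Run.perm_pick {α β : Type} (f : α → β) {L : List α} {a : β} {m : List β} (h : (L.map f).Perm (a :: m)) :
    ∃ (x : α) (L' : List α), L.Perm (x :: L') ∧ f x = a ∧ (L'.map f).Perm m := by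
  have ha : a ∈ L.map f := h.symm.subset (by simp)
  obtain ⟨x, hx, rfl⟩ := List.mem_map.1 ha
  have h1 : L.Perm (x :: L.erase x) := List.perm_cons_erase hx
  refine ⟨x, L.erase x, h1, rfl, ?_⟩
  have h2 : (f x :: (L.erase x).map f).Perm (f x :: m) := ((h1.map f).symm.trans h)
  exact List.Perm.cons_inv h2

theorem Run.tsz_perm {I J : List (Bool × Fd)} (h : I.Perm J) : tsz I = tsz J := by
  unfold tsz
  exact (h.map _).sum_eq

theorem Run.yv_mem (D : Dat V) : yv D ∈ supp D := by
  simp [yv, supp]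

theorem Run.congr {ι : Type} {C : ι → V → Prop} {I J : List (V × (Bool × Fd))} {Z : Finset V} {H H' : Finset ι}
    (h : HI R C I Z H J) (hH : ∀ q, q ∈ H ↔ q ∈ H') : HI R C I Z H' J := by
  have h1 : H = H' := Finset.ext hH
  exact h1 ▸ h

theorem Run.comp' {ι : Type} {C : ι → V → Prop} {I J J' : List (V × (Bool × Fd))} {Z Z' : Finset V}
    {H H' H'' : Finset ι} (h : HI R C I Z H J) (h' : HI R C J Z' H' J') (hZ : Disjoint Z Z')
    (hH : Disjoint H H') (hs : ∀ q, q ∈ H'' ↔ q ∈ H ∨ q ∈ H') : HI R C I (Z ∪ Z') H'' J' := by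
  rw [← List.append_nil J] at h
  have h2 := h.comp h' hZ hH
  rw [List.append_nil] at h2
  exact Run.congr h2 (fun q => by rw [Finset.mem_union, hs])

theorem Run.fill' {ι : Type} {C : ι → V → Prop} {I J : List (V × (Bool × Fd))} {Z : Finset V} {H H' H'' : Finset ι}
    (h : HI R C I Z H'' J) (hs : ∀ q, q ∈ H'' ↔ q ∈ H ∨ q ∈ H') (hH : Disjoint H H') (g : ι → V)
    (hg : ∀ i ∈ H', C i (g i)) (hi : Set.InjOn g (H' : Set ι)) (hZ : Disjoint Z (H'.image g)) :
    HI R C I (Z ∪ H'.image g) H J :=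
  HI.fill (Run.congr h (fun q => by rw [Finset.mem_union, hs])) hH g hg hi hZ

theorem Run.map' {ι κ : Type} {C : ι → V → Prop} {C' : κ → V → Prop} {I J : List (V × (Bool × Fd))} {Z : Finset V}
    {H : Finset ι} {H'' : Finset κ} (h : HI R C I Z H J) (f : ι → κ) (hf : Set.InjOn f (H : Set ι))
    (hC : ∀ i ∈ H, ∀ x, C' (f i) x → C i x) (hs : ∀ j, j ∈ H'' ↔ ∃ i ∈ H, f i = j) : HI R C' I Z H'' J :=
  Run.congr (h.map f hf hC) (fun q => by rw [Finset.mem_image, hs])

/-- the conditions of the holes -/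
def Run.CC (R : V → V → Prop) (D : Kind → ℕ → Dat V) : Kind × ℕ → V → Prop := fun q => Cnd R q.1 (D q.1 q.2)

/-- the induction -/
theorem Run.aux {b L Λ w₀ N : ℕ} {X Q : Finset V} (hQ : Q ⊆ X) (hconn : Conn R X Q L w₀)
    (hdeg : ∀ v ∈ X, ∀ d : Bool, w₀ ≤ (nb R d Q v).card) (D : Kind → ℕ → Dat V)
    (hD : ∀ k, ∀ i < N, Okd R k (D k i) ∧ supp (D k i) ⊆ X ∧ Disjoint (supp (D k i)) Q)
    (hDD : ∀ k k' i i', i < N → i' < N → (k, i) ≠ (k', i') → Disjoint (supp (D k i)) (supp (D k' i')))
    {n : ℕ} {ts fin : List (Bool × Fd)} (hx : Xp L Λ n ts fin) : ∀ (I : List (V × (Bool × Fd))),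
    (I.map Prod.snd).Perm ts → (∀ t ∈ I, t.1 ∈ X) → (∀ t ∈ I, t.2.2.len ≤ b ∧ t.2.2.Deg b) →
    ∀ (W : Finset V) (c : Kind → ℕ), (∀ t ∈ I, t.1 ∈ W) → (∀ k, c k + n ≤ N) →
    (∀ k i, c k ≤ i → i < N → Disjoint W (supp (D k i))) → W.card + n * (Λ + L + 5) + Λ + 2 * L + 5 ≤ w₀ →
    ∃ (c' : Kind → ℕ) (H : Finset (Kind × ℕ)) (Z : Finset V) (J : List (V × (Bool × Fd))),
      (∀ k, c k ≤ c' k ∧ c' k ≤ N) ∧ (∀ k i, (k, i) ∈ H ↔ c k ≤ i ∧ i < c' k) ∧ H.card = n ∧
      HI R (Run.CC R D) I Z H J ∧ (J.map Prod.snd).Perm fin ∧ Z.card ≤ n * (Λ + L + 5) ∧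
      Z.card + n + tsz fin = tsz ts ∧ (∀ t ∈ J, t.2.2.len ≤ b ∧ t.2.2.Deg b) ∧ (∀ t ∈ J, t.1 ∈ Z ∨ t ∈ I) ∧
      (∀ u ∈ Z, u ∈ Q ∨ ∃ q ∈ H, u ∈ (supp (D q.1 q.2)).erase (yv (D q.1 q.2))) ∧ Disjoint Z W := by
  induction hx with
  | nil ts =>
    intro I hI hIX hIb W c hIW hc hW hw
    refine ⟨c, ∅, ∅, I, fun k => ⟨le_rfl, by simpa using hc k⟩, fun k i => ?_, rfl, HI.refl _ I, hI, by simp, by simp,
      hIb, fun t ht => Or.inr ht, by simp, by simp⟩
    simp
  | step n p l k J ts ts' fin hperm hG hl1 hl2 _ ih =>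
    intro I hI hIX hIb W c hIW hc hW hw
    obtain ⟨t0, I', hIp, ht0, hI'⟩ := Run.perm_pick Prod.snd (hI.trans hperm)
    obtain ⟨z, p'⟩ := t0
    obtain rfl : p' = p := ht0
    have ht0m : (z, p') ∈ I := hIp.symm.subset (by simp)
    have hI'm : ∀ t ∈ I', t ∈ I := fun t ht => hIp.symm.subset (by simp [ht])
    have hcN : c k < N := by have := hc k; omega
    have hmul : (n + 1) * (Λ + L + 5) = n * (Λ + L + 5) + (Λ + L + 5) := by ring
    obtain ⟨Z1, I1, hHI1, hI1, hZ1, hZ1W, hZ1c, hZ1t, hI1Z, hJb⟩ := place (b := b) hQ hconn hdeg (z := z)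
      (hIX _ ht0m) (p := p') (hIb _ ht0m).1 (hIb _ ht0m).2 hG hl1 (hD k (c k) hcN).1 (hD k (c k) hcN).2.1
      (hD k (c k) hcN).2.2 (W := W) (hIW _ ht0m) (hW k (c k) le_rfl hcN) (by omega) (Run.CC R D) (k, c k)
      (fun x hx => hx)
    have hZ1X : Z1 ⊆ X := by
      intro u hu
      rcases Finset.mem_union.1 (hZ1 hu) with h | h
      · exact hQ h
      · exact (hD k (c k) hcN).2.1 (Finset.mem_of_mem_erase h)
    have hZ1s : ∀ k' i, i < N → (k', i) ≠ (k, c k) → Disjoint Z1 (supp (D k' i)) := by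
      intro k' i hi hne
      rw [Finset.disjoint_left]
      intro u hu hu'
      rcases Finset.mem_union.1 (hZ1 hu) with h | h
      · exact Finset.disjoint_left.1 (hD k' i hi).2.2 hu' h
      · exact Finset.disjoint_left.1 (hDD k' k i (c k) hi hcN hne) hu' (Finset.mem_of_mem_erase h)
    obtain ⟨c2, H2, Z2, J2, hc2, hH2, hH2c, hHI2, hJ2, hZ2c, hZ2t, hJ2b, hJ2I, hZ2Q, hZ2W⟩ := ih (I1 ++ I') (by
        rw [List.map_append, hI1]
        exact List.Perm.append (List.Perm.refl J) hI') (by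
        intro t ht
        rcases List.mem_append.1 ht with h | h
        · exact hZ1X (hI1Z t h)
        · exact hIX t (hI'm t h)) (by
        intro t ht
        rcases List.mem_append.1 ht with h | h
        · exact hJb t.2 (hI1 ▸ List.mem_map_of_mem h)
        · exact hIb t (hI'm t h)) (W ∪ Z1) (Function.update c k (c k + 1)) (by
        intro t ht
        rcases List.mem_append.1 ht with h | h
        · exact Finset.mem_union_right _ (hI1Z t h)
        · exact Finset.mem_union_left _ (hIW t (hI'm t h))) (by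
        intro k'
        by_cases hk : k' = k
        · subst hk
          rw [Function.update_self]
          have := hc k'
          omega
        · rw [Function.update_of_ne hk]
          have := hc k'
          omega) (by
        intro k' i hi1 hi2
        rw [Finset.disjoint_union_left]
        by_cases hk : k' = k
        · subst hk
          rw [Function.update_self] at hi1
          exact ⟨hW k' i (by omega) hi2, hZ1s k' i hi2 (fun h => by
            have := (Prod.mk.inj h).2
            omega)⟩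
        · rw [Function.update_of_ne hk] at hi1
          exact ⟨hW k' i hi1 hi2, hZ1s k' i hi2 (fun h => hk (Prod.mk.inj h).1)⟩) (by
        have := Finset.card_union_le W Z1
        omega)
    have hkH : (k, c k) ∉ H2 := by
      intro h
      have := ((hH2 _ _).1 h).1
      rw [Function.update_self] at this
      omega
    have hk2 : c k + 1 ≤ c2 k := by
      have := (hc2 k).1
      rwa [Function.update_self] at this
    have hZ12 : Disjoint Z1 Z2 := (Finset.disjoint_of_subset_right Finset.subset_union_right hZ2W).symm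
    refine ⟨c2, insert (k, c k) H2, Z1 ∪ Z2, J2, ?_, ?_, ?_, ?_, hJ2, ?_, ?_, hJ2b, ?_, ?_, ?_⟩
    · intro k'
      refine ⟨?_, (hc2 k').2⟩
      have := (hc2 k').1
      by_cases hk : k' = k
      · subst hk
        omega
      · rwa [Function.update_of_ne hk] at this
    · intro k' i
      rw [Finset.mem_insert, hH2]
      by_cases hk : k' = k
      · subst hk
        rw [Function.update_self]
        constructor
        · rintro (h | h)
          · have := (Prod.mk.inj h).2
            omega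
          · omega
        · intro h
          by_cases hi : i = c k'
          · left
            rw [hi]
          · right
            omega
      · rw [Function.update_of_ne hk]
        constructor
        · rintro (h | h)
          · exact absurd (Prod.mk.inj h).1 hk
          · exact h
        · exact fun h => Or.inr h
    · rw [Finset.card_insert_of_notMem hkH, hH2c]
    · exact Run.comp' ((hHI1.frame (K := I')).perm hIp.symm (List.Perm.refl _)) hHI2 hZ12
        (Finset.disjoint_singleton_left.2 hkH) (fun q => by rw [Finset.mem_singleton, Finset.mem_insert])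
    · have := Finset.card_union_le Z1 Z2
      omega
    · rw [Finset.card_union_of_disjoint hZ12, Run.tsz_perm hperm, tsz_cons]
      rw [tsz_append] at hZ2t
      omega
    · intro t ht
      rcases hJ2I t ht with h | h
      · exact Or.inl (Finset.mem_union_right _ h)
      · rcases List.mem_append.1 h with h | h
        · exact Or.inl (Finset.mem_union_left _ (hI1Z t h))
        · exact Or.inr (hI'm t h)
    · intro u hu
      rcases Finset.mem_union.1 hu with h | h
      · rcases Finset.mem_union.1 (hZ1 h) with h | h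
        · exact Or.inl h
        · exact Or.inr ⟨(k, c k), Finset.mem_insert_self _ _, h⟩
      · rcases hZ2Q u h with h | ⟨q, hq, h⟩
        · exact Or.inl h
        · exact Or.inr ⟨q, Finset.mem_insert_of_mem hq, h⟩
    · rw [Finset.disjoint_union_left]
      exact ⟨hZ1W, Finset.disjoint_of_subset_right Finset.subset_union_left hZ2W⟩

theorem Run.cnd_yv {k : Kind} {D : Dat V} (h : Okd R k D) : Cnd R k D (yv D) := by
  cases k with
  | com e => exact ⟨h.2.1, h.2.2⟩
  | dir => exact Or.inl rfl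

theorem run {b L Λ w₀ M : ℕ} {X Q : Finset V} (hQ : Q ⊆ X) (hconn : Conn R X Q L w₀)
    (hdeg : ∀ v ∈ X, ∀ d : Bool, w₀ ≤ (nb R d Q v).card) {ts fin : List (Bool × Fd)}
    (hx : Xp L Λ (3 * M) ts fin) (I : List (V × (Bool × Fd))) (hI : (I.map Prod.snd).Perm ts)
    (hIX : ∀ t ∈ I, t.1 ∈ X ∧ t.1 ∉ Q) (hIb : ∀ t ∈ I, t.2.2.len ≤ b ∧ t.2.2.Deg b) (D : Kind → ℕ → Dat V)
    (hD : ∀ k, ∀ i < 3 * M, Okd R k (D k i) ∧ supp (D k i) ⊆ X ∧ Disjoint (supp (D k i)) Q ∧ ∀ t ∈ I, t.1 ∉ supp (D k i))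
    (hDD : ∀ k k' i i', i < 3 * M → i' < 3 * M → (k, i) ≠ (k', i') → Disjoint (supp (D k i)) (supp (D k' i')))
    (h1 : I.length + 3 * M * (Λ + L + 6) + Λ + 2 * L + 5 ≤ w₀) :
    ∃ (k : Kind) (Z : Finset V) (J : List (V × (Bool × Fd))), HI R (fun i : ℕ => Cnd R k (D k i)) I Z (range M) J ∧
      (J.map Prod.snd).Perm fin ∧ Z.card ≤ 3 * M * (Λ + L + 6) ∧ Z.card + M + tsz fin = tsz ts ∧
      (∀ t ∈ J, t.2.2.len ≤ b ∧ t.2.2.Deg b) ∧ (∀ t ∈ J, t.1 ∈ Z ∨ t ∈ I) ∧
      (∀ u ∈ Z, u ∈ Q ∨ ∃ k', ∃ i < 3 * M, u ∈ supp (D k' i)) ∧ ∀ i < M, yv (D k i) ∉ Z := by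
  have hWc : ((I.map Prod.fst).toFinset).card ≤ I.length := by
    have := List.toFinset_card_le (I.map Prod.fst)
    rwa [List.length_map] at this
  have hmul : 3 * M * (Λ + L + 6) = 3 * M * (Λ + L + 5) + 3 * M := by ring
  obtain ⟨c, H, Z, J, hc, hH, hHc, hHI, hJ, hZc, hZt, hJb, hJI, hZQ, -⟩ := Run.aux (b := b) hQ hconn hdeg D
    (fun k i hi => ⟨(hD k i hi).1, (hD k i hi).2.1, (hD k i hi).2.2.1⟩) hDD hx I hI (fun t ht => (hIX t ht).1) hIb
    (I.map Prod.fst).toFinset (fun _ => 0) (fun t ht => by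
      rw [List.mem_toFinset]
      exact List.mem_map_of_mem ht) (fun k => by omega) (fun k i _ hi => by
      rw [Finset.disjoint_left]
      intro u hu
      rw [List.mem_toFinset, List.mem_map] at hu
      obtain ⟨t, ht, rfl⟩ := hu
      exact (hD k i hi).2.2.2 t ht) (by omega)
  have hH' : ∀ q ∈ H, q.2 < 3 * M := by
    intro q hq
    have := ((hH q.1 q.2).1 hq).2
    have h2 := (hc q.1).2
    omega
  -- pigeonhole
  obtain ⟨k, hk⟩ : ∃ k, M ≤ c k := by
    by_contra hcon
    push Not at hcon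
    have hsub : H ⊆ (({Kind.com true, Kind.com false, Kind.dir} : Finset Kind) ×ˢ range (M - 1)) := by
      intro q hq
      have h2 := ((hH q.1 q.2).1 hq).2
      have h3 := hcon q.1
      rw [Finset.mem_product, Finset.mem_range]
      refine ⟨?_, by omega⟩
      rcases q.1 with e | _
      · rcases e <;> simp
      · simp
    have h4 := Finset.card_le_card hsub
    have h5 : ({Kind.com true, Kind.com false, Kind.dir} : Finset Kind).card ≤ 3 := Finset.card_le_three
    rw [Finset.card_product, Finset.card_range, hHc] at h4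
    have h6 := hcon Kind.dir
    have h7 : ({Kind.com true, Kind.com false, Kind.dir} : Finset Kind).card * (M - 1) ≤ 3 * (M - 1) :=
      Nat.mul_le_mul_right _ h5
    omega
  set H1 : Finset (Kind × ℕ) := (range M).image (fun i => (k, i)) with hH1
  have hH1H : H1 ⊆ H := by
    intro q hq
    rw [hH1, Finset.mem_image] at hq
    obtain ⟨i, hi, rfl⟩ := hq
    rw [Finset.mem_range] at hi
    exact (hH k i).2 ⟨Nat.zero_le _, by omega⟩
  have hH1c : H1.card = M := by
    rw [hH1, Finset.card_image_of_injective _ (fun a b h => (Prod.mk.inj h).2), Finset.card_range]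
  set g : Kind × ℕ → V := fun q => yv (D q.1 q.2) with hg
  have hginj : Set.InjOn g (H : Set (Kind × ℕ)) := by
    intro q hq q' hq' h
    by_contra hne
    have h2 := hDD q.1 q'.1 q.2 q'.2 (hH' q hq) (hH' q' hq') (fun h => hne (Prod.ext (Prod.mk.inj h).1 (Prod.mk.inj h).2))
    have h3 : yv (D q.1 q.2) = yv (D q'.1 q'.2) := h
    exact Finset.disjoint_left.1 h2 (Run.yv_mem _) (h3 ▸ Run.yv_mem _)
  have hgZ : ∀ q ∈ H, g q ∉ Z := by
    intro q hq hqZ
    rcases hZQ _ hqZ with h | ⟨q', hq', h⟩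
    · exact Finset.disjoint_left.1 (hD q.1 q.2 (hH' q hq)).2.2.1 (Run.yv_mem _) h
    · by_cases hqq : q = q'
      · subst hqq
        exact absurd rfl (Finset.ne_of_mem_erase h)
      · exact Finset.disjoint_left.1 (hDD q.1 q'.1 q.2 q'.2 (hH' q hq) (hH' q' hq')
          (fun h => hqq (Prod.ext (Prod.mk.inj h).1 (Prod.mk.inj h).2))) (Run.yv_mem _) (Finset.mem_of_mem_erase h)
  have hH2H : H \ H1 ⊆ H := Finset.sdiff_subset
  have himg : ((H \ H1).image g).card = 2 * M := by
    rw [Finset.card_image_of_injOn (hginj.mono (by exact_mod_cast hH2H)), Finset.card_sdiff_of_subset hH1H, hHc, hH1c]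
    omega
  have hdis : Disjoint Z ((H \ H1).image g) := by
    rw [Finset.disjoint_right]
    intro u hu
    obtain ⟨q, hq, rfl⟩ := Finset.mem_image.1 hu
    exact hgZ q (hH2H hq)
  have hfill : HI R (Run.CC R D) I (Z ∪ (H \ H1).image g) H1 J := by
    refine Run.fill' (H' := H \ H1) hHI ?_ Finset.disjoint_sdiff g ?_ (hginj.mono (by exact_mod_cast hH2H)) hdis
    · intro q
      rw [Finset.mem_sdiff]
      constructor
      · intro hq
        by_cases hq1 : q ∈ H1
        · exact Or.inl hq1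
        · exact Or.inr ⟨hq, hq1⟩
      · rintro (hq | hq)
        · exact hH1H hq
        · exact hq.1
    · intro q hq
      exact Run.cnd_yv (hD q.1 q.2 (hH' q (hH2H hq))).1
  refine ⟨k, Z ∪ (H \ H1).image g, J, ?_, hJ, ?_, ?_, hJb, ?_, ?_, ?_⟩
  · refine Run.map' (C' := fun i : ℕ => Cnd R k (D k i)) hfill Prod.snd (by
      intro q hq q' hq' h
      rw [Finset.mem_coe, hH1, Finset.mem_image] at hq hq'
      obtain ⟨i, -, rfl⟩ := hq
      obtain ⟨i', -, rfl⟩ := hq'
      have h3 : i = i' := h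
      rw [h3]) (by
      intro q hq x hx
      rw [hH1, Finset.mem_image] at hq
      obtain ⟨i, -, rfl⟩ := hq
      exact hx) (fun i => ?_)
    rw [Finset.mem_range]
    constructor
    · intro hi
      refine ⟨(k, i), ?_, rfl⟩
      rw [hH1, Finset.mem_image]
      exact ⟨i, Finset.mem_range.2 hi, rfl⟩
    · rintro ⟨q, hq, rfl⟩
      rw [hH1, Finset.mem_image] at hq
      obtain ⟨i, hi, rfl⟩ := hq
      exact Finset.mem_range.1 hi
  · have := Finset.card_union_le Z ((H \ H1).image g)
    omega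
  · rw [Finset.card_union_of_disjoint hdis, himg]
    omega
  · intro t ht
    rcases hJI t ht with h | h
    · exact Or.inl (Finset.mem_union_left _ h)
    · exact Or.inr h
  · intro u hu
    rcases Finset.mem_union.1 hu with h | h
    · rcases hZQ u h with h | ⟨q, hq, h⟩
      · exact Or.inl h
      · exact Or.inr ⟨q.1, q.2, hH' q hq, Finset.mem_of_mem_erase h⟩
    · obtain ⟨q, hq, rfl⟩ := Finset.mem_image.1 h
      exact Or.inr ⟨q.1, q.2, hH' q (hH2H hq), Run.yv_mem _⟩
  · intro i hi h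
    have hkH1 : (k, i) ∈ H1 := by
      rw [hH1, Finset.mem_image]
      exact ⟨i, Finset.mem_range.2 hi, rfl⟩
    rcases Finset.mem_union.1 h with h | h
    · exact hgZ (k, i) (hH1H hkH1) h
    · obtain ⟨q, hq, hq2⟩ := Finset.mem_image.1 h
      have h3 := hginj (hH2H hq) (hH1H hkH1) hq2
      rw [h3] at hq
      exact (Finset.mem_sdiff.1 hq).2 hkH1

end AESP
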