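import Pool.Agent.AESP.HI0
import Pool.Agent.AESP.Run
import Pool.Agent.AESP.Crude
import Pool.Agent.AESP.Finish

/-!
# Holes, small items and the last tree together
-/

set_option autoImplicit false

namespace AESP

open Finset AE15 AED AELT AEX AESK
open scoped Classical

variable {V : Type} {R : V → V → Prop}

/-- a preimage of the first element of a permuted image can be moved to the front -/
theorem Mid.perm_pick {α β : Type} (f : α → β) {L : List α} {a : β} {m : List β} (h : (L.map f).Perm (a :: m)) :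
    ∃ (x : α) (L' : List α), L.Perm (x :: L') ∧ f x = a ∧ (L'.map f).Perm m := by
  have ha : a ∈ L.map f := h.symm.subset (by simp)
  obtain ⟨x, hx, rfl⟩ := List.mem_map.1 ha
  have h1 : L.Perm (x :: L.erase x) := List.perm_cons_erase hx
  refine ⟨x, L.erase x, h1, rfl, ?_⟩
  have h2 : (f x :: (L.erase x).map f).Perm (f x :: m) := ((h1.map f).symm.trans h)
  exact List.Perm.cons_inv h2

theorem Mid.tsz_perm {I J : List (Bool × Fd)} (h : I.Perm J) : tsz I = tsz J := by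
  unfold tsz
  exact (h.map _).sum_eq

theorem Mid.yv_mem (D : Dat V) : yv D ∈ supp D := by
  simp [yv, supp]

theorem mid (b : ℕ) (hb : 1 ≤ b) {θ : ℝ} (hθ : 0 < θ) (hθ1 : θ ≤ 1) (ℓ J : ℕ) : ∃ K₀ C₀ : ℕ,
    ∀ {V : Type} {R : V → V → Prop}, AE32.Tour R → ∀ {X U S Q : Finset V} {ts fin rest : List (Bool × Fd)} {q : Bool × Fd}
      {M Λ w₀ : ℕ}, U ⊆ X → Q ⊆ U → S ⊆ U → Disjoint S Q → Conn R X Q (ℓ + 1) w₀ →
      (∀ v ∈ X, ∀ d : Bool, w₀ ≤ (nb R d Q v).card) → Xp (ℓ + 1) Λ (3 * M) ts fin → fin.Perm (q :: rest) →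
      ∀ (I : List (V × (Bool × Fd))), (I.map Prod.snd).Perm ts → (∀ t ∈ I, t.1 ∈ X ∧ t.1 ∉ U) →
      (∀ t ∈ I, t.2.2.len ≤ b ∧ t.2.2.Deg b) → ∀ (D : Kind → ℕ → Dat V),
      (∀ k, ∀ i < 3 * M, Okd R k (D k i) ∧ supp (D k i) ⊆ U ∧ Disjoint (supp (D k i)) Q ∧ Disjoint (supp (D k i)) S) →
      (∀ k k' i i', i < 3 * M → i' < 3 * M → (k, i) ≠ (k', i') → Disjoint (supp (D k i)) (supp (D k' i'))) →
      (∀ k, RichS R X k J K₀ M (D k)) →
      I.length + 4 * tsz rest + 2 * (3 * M * (Λ + ℓ + 7)) + Λ + 2 * ℓ + 50 ≤ w₀ → U.card = tsz ts → C₀ ≤ q.2.size →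
      (q.2.size + 1 : ℝ) / 4 ≤ S.card →
      Str R X S ℓ (θ - 2 * er X.card) (θ / 4 + 2 * er X.card) (θ ^ 2 / 100 - 2 * er X.card) → EmbI R I U := by
  obtain ⟨K₀, C₀, hF⟩ := finish b hb hθ hθ1 ℓ J
  refine ⟨K₀, C₀, ?_⟩
  intro V R hT X U S Q ts fin rest q M Λ w₀ hUX hQU hSU hSQ hconn hdeg hx hfin I hI hIX hIb D hD hDD hR hw hUc hq hS hStr
  have hw' : I.length + 3 * M * (Λ + (ℓ + 1) + 6) + Λ + 2 * (ℓ + 1) + 5 ≤ w₀ := by
    have h1 : Λ + (ℓ + 1) + 6 = Λ + ℓ + 7 := by ring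
    rw [h1]
    omega
  obtain ⟨k, Z, Jl, hHI, hJf, hZc, hZM, hJb, hJI, hZQ, hyZ⟩ := run (b := b) (hQU.trans hUX) hconn hdeg hx I hI
    (fun t ht => ⟨(hIX t ht).1, fun h => (hIX t ht).2 (hQU h)⟩) hIb D
    (fun k i hi => ⟨(hD k i hi).1, (hD k i hi).2.1.trans hUX, (hD k i hi).2.2.1, fun t ht h =>
      (hIX t ht).2 ((hD k i hi).2.1 h)⟩) hDD hw'
  have h67 : Λ + (ℓ + 1) + 6 = Λ + ℓ + 7 := by ring
  rw [h67] at hZc
  obtain ⟨t0, J', hJp, ht0, hJ'⟩ := Mid.perm_pick Prod.snd (hJf.trans hfin)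
  have hM3 : ∀ i, i < M → i < 3 * M := fun i hi => by omega
  have hZU : Z ⊆ U := by
    intro u hu
    rcases hZQ u hu with h | ⟨k', i, hi, h⟩
    · exact hQU h
    · exact (hD k' i hi).2.1 h
  have hZS : Disjoint S Z := by
    rw [Finset.disjoint_left]
    intro u huS hu
    rcases hZQ u hu with h | ⟨k', i, hi, h⟩
    · exact Finset.disjoint_left.1 hSQ huS h
    · exact Finset.disjoint_left.1 (hD k' i hi).2.2.2 h huS
  have hhost : ∀ t ∈ Jl, t.1 ∈ X := by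
    intro t ht
    rcases hJI t ht with h | h
    · exact hUX (hZU h)
    · exact (hIX t h).1
  have ht0m : t0 ∈ Jl := hJp.symm.subset (by simp)
  have hJ'm : ∀ t ∈ J', t ∈ Jl := fun t ht => hJp.symm.subset (by simp [ht])
  -- the vertex which is kept for the first step of the last tree
  obtain ⟨w, hw1, hw2⟩ : ∃ w ∈ nb R q.1 Q t0.1, w ∉ Z := by
    by_contra hcon
    push Not at hcon
    have h1 : (nb R q.1 Q t0.1).card ≤ Z.card := Finset.card_le_card hcon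
    have h2 := hdeg t0.1 (hhost t0 ht0m) q.1
    omega
  have hwQ : w ∈ Q := nb_sub hw1
  have hrest : tsz (J'.map Prod.snd) = tsz rest := Mid.tsz_perm hJ'
  obtain ⟨A, hAQ, hAW, hAE⟩ := crude_items (b := b) (r := w₀) hT (Q := Q) J' (fun t ht =>
    ⟨(hJb t (hJ'm t ht)).1, (hJb t (hJ'm t ht)).2, hdeg t.1 (hhost t (hJ'm t ht)) _⟩) (insert w Z) (by
      rw [hrest]
      have := Finset.card_insert_le w Z
      omega)
  rw [Finset.disjoint_insert_right] at hAW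
  have hHI2 : HI R (fun i : ℕ => Cnd R k (D k i)) I (Z ∪ A) (range M) [t0] := by
    refine HI.items (J := J') ?_ hAE hAW.2.symm
    exact hHI.perm (List.Perm.refl _) (hJp.trans (List.perm_append_singleton t0 J').symm)
  have hcardA : A.card = tsz rest := by
    rw [hAE.card, hrest]
  have hfin' : tsz fin = q.2.size + 1 + tsz rest := by
    rw [Mid.tsz_perm hfin, tsz_cons]
  obtain ⟨z, q'⟩ := t0
  obtain rfl : q' = q := ht0
  have hyQ : ∀ i < M, yv (D k i) ∉ Q := fun i hi h =>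
    Finset.disjoint_left.1 (hD k i (hM3 i hi)).2.2.1 (Mid.yv_mem _) h
  refine hF hT (Z := Z ∪ A) hHI2 (hJb _ ht0m).1 (hJb _ ht0m).2 (hR k) (fun i hi => ⟨(hD k i (hM3 i hi)).1,
    (hD k i (hM3 i hi)).2.1 (Mid.yv_mem _)⟩) ?_ hUX (Finset.union_subset hZU (hAQ.trans hQU)) ?_ hSU ?_ ?_ ?_ ?_ hq hS hStr
  · intro i hi i' hi' h
    by_contra hne
    have h1 := hDD k k i i' (hM3 i (by simpa using hi)) (hM3 i' (by simpa using hi')) (fun h => hne (Prod.mk.inj h).2)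
    have h2 : yv (D k i) = yv (D k i') := h
    exact Finset.disjoint_left.1 h1 (Mid.yv_mem _) (h2 ▸ Mid.yv_mem _)
  · intro i hi h
    rcases Finset.mem_union.1 h with h | h
    · exact hyZ i hi h
    · exact hyQ i hi (hAQ h)
  · rw [Finset.disjoint_union_right]
    exact ⟨hZS, Finset.disjoint_of_subset_right hAQ hSQ⟩
  · intro i hi h
    exact Finset.disjoint_left.1 (hD k i (hM3 i hi)).2.2.2 (Mid.yv_mem _) h
  · refine ⟨w, ?_, ?_, ?_, ?_⟩
    · exact nb_mono hQU _ hw1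
    · rw [Finset.mem_union, not_or]
      exact ⟨hw2, hAW.1⟩
    · exact fun h => Finset.disjoint_left.1 hSQ h hwQ
    · intro i hi h
      exact hyQ i hi (h ▸ hwQ)
  · rw [Finset.card_union_of_disjoint hAW.2.symm, hcardA]
    omega

end AESP
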