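import Pool.Agent.AESP.Defs

/-!
# SPANNING: numbers
-/

set_option autoImplicit false

namespace AESP

open Finset AE15 AED AELT AEX AESK
open scoped Classical

theorem num_a (A : ℕ) {δ : ℝ} (hδ : 0 < δ) : ∃ n₀ : ℕ, ∀ N M : ℕ, n₀ ≤ N → M ^ 8 ≤ N →
    A * (M + 1) * (Nat.log 2 N + 1) ≤ Nat.sqrt N ∧ (A * Nat.sqrt N + A : ℝ) ≤ δ * N ∧ (A * M + A) ^ 2 ≤ N ∧
      ((A * (M + 1) : ℕ) * (A * (Nat.sqrt N + 2)) : ℝ) ≤ δ * N := by
  obtain ⟨a, ha⟩ : ∃ a : ℝ, a = (A : ℝ) := ⟨_, rfl⟩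
  have ha0 : 0 ≤ a := by rw [ha]; positivity
  obtain ⟨X₀, hX₀⟩ : ∃ X₀ : ℝ, X₀ = 1 + 26 * a + 2 * a / δ + 4 * a ^ 2 + 6 * a ^ 2 / δ := ⟨_, rfl⟩
  have k1 : 0 ≤ 2 * a / δ := by positivity
  have k2 : 0 ≤ 4 * a ^ 2 := by positivity
  have k3 : 0 ≤ 6 * a ^ 2 / δ := by positivity
  obtain ⟨n₀, hn₀⟩ := exists_nat_ge (X₀ ^ 8)
  refine ⟨n₀, ?_⟩
  intro N M hN hM
  obtain ⟨x, hx⟩ : ∃ x : ℝ, x = Real.sqrt (Real.sqrt (Real.sqrt N)) := ⟨_, rfl⟩
  have hx0 : 0 ≤ x := by rw [hx]; exact Real.sqrt_nonneg _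
  have hx8 : x ^ 8 = N := by
    have h1 : x ^ 2 = Real.sqrt (Real.sqrt N) := by rw [hx]; exact Real.sq_sqrt (Real.sqrt_nonneg _)
    have h2 : x ^ 4 = Real.sqrt N := by
      rw [show x ^ 4 = (x ^ 2) ^ 2 by ring, h1]
      exact Real.sq_sqrt (Real.sqrt_nonneg _)
    rw [show x ^ 8 = (x ^ 4) ^ 2 by ring, h2]
    exact Real.sq_sqrt (Nat.cast_nonneg _)
  have hXx : X₀ ≤ x := by
    have h1 : X₀ ^ 8 ≤ x ^ 8 := by
      rw [hx8]
      exact hn₀.trans (by exact_mod_cast hN)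
    exact le_of_pow_le_pow_left₀ (by norm_num) hx0 h1
  have hx1 : 1 ≤ x := by linarith
  have hMx : (M : ℝ) ≤ x := by
    refine le_of_pow_le_pow_left₀ (n := 8) (by norm_num) hx0 ?_
    rw [hx8]
    exact_mod_cast hM
  obtain ⟨s, hs⟩ : ∃ s : ℕ, s = Nat.sqrt N := ⟨_, rfl⟩
  have hs1 : (s : ℝ) ≤ x ^ 4 := by
    refine le_of_pow_le_pow_left₀ (n := 2) (by norm_num) (by positivity) ?_
    rw [show (x ^ 4) ^ 2 = x ^ 8 by ring, hx8]
    have : s ^ 2 ≤ N := by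
      rw [hs, sq]
      exact Nat.sqrt_le N
    exact_mod_cast this
  have hs2 : x ^ 4 ≤ s + 1 := by
    refine le_of_pow_le_pow_left₀ (n := 2) (by norm_num) (by positivity) ?_
    rw [show (x ^ 4) ^ 2 = x ^ 8 by ring, hx8]
    have : N ≤ (s + 1) ^ 2 := by
      rw [hs, sq]
      exact (Nat.lt_succ_sqrt N).le
    exact_mod_cast this
  have hNpos : N ≠ 0 := by
    rintro rfl
    have : (1 : ℝ) ≤ x ^ 8 := one_le_pow₀ hx1
    rw [hx8] at this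
    norm_num at this
  have hL : (Nat.log 2 N : ℝ) ≤ 12 * x := by
    have h1 : (2 : ℝ) ^ (Nat.log 2 N) ≤ x ^ 8 := by
      rw [hx8]
      exact_mod_cast Nat.pow_log_le_self 2 hNpos
    have h2 := Real.log_le_log (by positivity) h1
    rw [Real.log_pow, Real.log_pow] at h2
    have h3 : Real.log x ≤ x - 1 := Real.log_le_sub_one_of_pos (by linarith)
    have h4 := Real.log_two_gt_d9
    have h5 : (0 : ℝ) ≤ (Nat.log 2 N : ℝ) := Nat.cast_nonneg _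
    push_cast at h2
    nlinarith
  rw [← hs]
  have hx2 : 1 + 26 * a ≤ x := by linarith
  have hxx : x ≤ x ^ 2 := by nlinarith
  have hx24 : x ^ 2 ≤ x ^ 4 := pow_le_pow_right₀ hx1 (by norm_num)
  have hx14 : x ≤ x ^ 4 := hxx.trans hx24
  have h14 : 1 ≤ x ^ 4 := hx1.trans hx14
  refine ⟨?_, ?_, ?_, ?_⟩
  · have h1 : (A : ℝ) * (M + 1) * (Nat.log 2 N + 1) ≤ s := by
      rw [← ha]
      have e1 : (M : ℝ) + 1 ≤ 2 * x := by linarith
      have e2 : (Nat.log 2 N : ℝ) + 1 ≤ 13 * x := by linarith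
      have e3 : a * ((M : ℝ) + 1) ≤ a * (2 * x) := mul_le_mul_of_nonneg_left e1 ha0
      have e4 : a * ((M : ℝ) + 1) * (Nat.log 2 N + 1) ≤ a * (2 * x) * (13 * x) :=
        mul_le_mul e3 e2 (by positivity) (by positivity)
      have e5 : a * (2 * x) * (13 * x) = 26 * a * x ^ 2 := by ring
      have e6 : 26 * a * x ^ 2 ≤ (x ^ 2 - 1) * x ^ 2 := mul_le_mul_of_nonneg_right (by linarith) (by positivity)
      have e7 : (x ^ 2 - 1) * x ^ 2 = x ^ 4 - x ^ 2 := by ring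
      linarith
    exact_mod_cast h1
  · rw [← ha, ← hx8]
    have e1 : 2 * a ≤ δ * x ^ 4 := by
      have h1 : 2 * a / δ ≤ x ^ 4 := by linarith
      rw [div_le_iff₀ hδ] at h1
      linarith
    have e2 : a * s ≤ a * x ^ 4 := mul_le_mul_of_nonneg_left hs1 ha0
    have e3 : a * 1 ≤ a * x ^ 4 := mul_le_mul_of_nonneg_left h14 ha0
    have e4 : 2 * a * x ^ 4 ≤ δ * x ^ 4 * x ^ 4 := mul_le_mul_of_nonneg_right e1 (by positivity)
    have e5 : δ * x ^ 4 * x ^ 4 = δ * x ^ 8 := by ring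
    linarith
  · have h1 : ((A : ℝ) * M + A) ^ 2 ≤ N := by
      rw [← ha, ← hx8]
      have e1 : a * M + a ≤ 2 * a * x := by nlinarith
      have e2 : (a * M + a) ^ 2 ≤ (2 * a * x) ^ 2 := pow_le_pow_left₀ (by positivity) e1 2
      have e3 : 4 * a ^ 2 * x ^ 2 ≤ x ^ 4 * x ^ 2 := mul_le_mul_of_nonneg_right (by linarith) (by positivity)
      have e4 : x ^ 4 * x ^ 2 ≤ x ^ 8 := by
        rw [← pow_add]
        exact pow_le_pow_right₀ hx1 (by norm_num)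
      nlinarith
    exact_mod_cast h1
  · push_cast
    rw [← ha, ← hx8]
    have e1 : a * ((M : ℝ) + 1) ≤ a * (2 * x) := mul_le_mul_of_nonneg_left (by linarith) ha0
    have e2 : a * ((s : ℝ) + 2) ≤ a * (3 * x ^ 4) := mul_le_mul_of_nonneg_left (by linarith) ha0
    have e3 : a * ((M : ℝ) + 1) * (a * ((s : ℝ) + 2)) ≤ a * (2 * x) * (a * (3 * x ^ 4)) :=
      mul_le_mul e1 e2 (by positivity) (by positivity)
    have e4 : a * (2 * x) * (a * (3 * x ^ 4)) = 6 * a ^ 2 * x ^ 5 := by ring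
    have e5 : 6 * a ^ 2 ≤ δ * x := by
      have h1 : 6 * a ^ 2 / δ ≤ x := by linarith
      rw [div_le_iff₀ hδ] at h1
      linarith
    have e6 : 6 * a ^ 2 * x ^ 5 ≤ δ * x * x ^ 5 := mul_le_mul_of_nonneg_right e5 (by positivity)
    have e7 : δ * x * x ^ 5 ≤ δ * x ^ 8 := by
      rw [mul_assoc]
      refine mul_le_mul_of_nonneg_left ?_ hδ.le
      rw [← pow_succ']
      exact pow_le_pow_right₀ hx1 (by norm_num)
    linarith

theorem exists_root8 (N : ℕ) : ∃ M : ℕ, M ^ 8 ≤ N ∧ N ≤ (M + 1) ^ 8 := by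
  refine ⟨Nat.findGreatest (fun m => m ^ 8 ≤ N) N, ?_, ?_⟩
  · exact Nat.findGreatest_spec (P := fun m => m ^ 8 ≤ N) (Nat.zero_le N) (by simp)
  · by_contra h
    push Not at h
    obtain ⟨M, hM⟩ : ∃ M : ℕ, M = Nat.findGreatest (fun m => m ^ 8 ≤ N) N := ⟨_, rfl⟩
    rw [← hM] at h
    have h1 : M + 1 ≤ N := (Nat.le_self_pow (by norm_num) _).trans h.le
    have h2 := Nat.le_findGreatest (P := fun m => m ^ 8 ≤ N) h1 h.le
    omega

end AESP
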