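import Pool.Agent.AESP.HI0

/-!
# A path with pending side trees, embedded on a walk
-/

set_option autoImplicit false

namespace AESP

open Finset AE15 AED AELT AEX AESK
open scoped Classical

variable {V : Type} {R : V → V → Prop}

/-- the side trees of the path `l` as items at the hosts of the walk `xs` -/
def pnd : List (Bool × List (Bool × Fd)) → List (Bool × V) → List (V × (Bool × Fd))
  | [], _ => []
  | _ :: _, [] => []
  | t :: l, x :: xs => t.2.map (fun r => (x.2, r)) ++ pnd l xs

theorem pnd_append {l l' : List (Bool × List (Bool × Fd))} {xs xs' : List (Bool × V)} (h : xs.length = l.length) :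
    pnd (l ++ l') (xs ++ xs') = pnd l xs ++ pnd l' xs' := by
  induction l generalizing xs with
  | nil =>
    obtain rfl : xs = [] := List.length_eq_zero_iff.1 h
    simp [pnd]
  | cons t l ih =>
    obtain _ | ⟨x, xs⟩ := xs
    · simp at h
    · simp only [List.length_cons, Nat.add_right_cancel_iff] at h
      simp only [List.cons_append, pnd, ih h, List.append_assoc]

theorem pnd_snd {l : List (Bool × List (Bool × Fd))} {xs : List (Bool × V)} (h : xs.length = l.length) :
    (pnd l xs).map Prod.snd = (l.map Prod.snd).flatten := by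
  induction l generalizing xs with
  | nil =>
    obtain rfl : xs = [] := List.length_eq_zero_iff.1 h
    simp [pnd]
  | cons t l ih =>
    obtain _ | ⟨x, xs⟩ := xs
    · simp at h
    · simp only [List.length_cons, Nat.add_right_cancel_iff] at h
      simp only [pnd, List.map_append, ih h, List.map_map, List.map_cons, List.flatten_cons]
      congr 1
      rw [show (Prod.snd ∘ fun r : Bool × Fd => (x.2, r)) = id from rfl, List.map_id]

theorem pnd_mem {l : List (Bool × List (Bool × Fd))} {xs : List (Bool × V)} {t : V × (Bool × Fd)} (h : t ∈ pnd l xs) :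
    t.1 ∈ xs.map Prod.snd := by
  induction l generalizing xs with
  | nil => simp [pnd] at h
  | cons s l ih =>
    obtain _ | ⟨x, xs⟩ := xs
    · simp [pnd] at h
    · simp only [pnd, List.mem_append, List.mem_map] at h
      rcases h with ⟨r, -, rfl⟩ | h
      · simp
      · exact List.mem_cons_of_mem _ (ih h)

theorem pnd_replicate (n : ℕ) (e : Bool) (xs : List (Bool × V)) : pnd (List.replicate n (e, [])) xs = [] := by
  induction n generalizing xs with
  | zero => rfl
  | succ n ih =>
    obtain _ | ⟨x, xs⟩ := xs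
    · rfl
    · rw [List.replicate_succ]
      simp [pnd, ih]

theorem wk_append {y a : V} {d : Bool} {xs ys : List (Bool × V)} :
    Wk R y (xs ++ [(d, a)] ++ ys) ↔ Wk R y (xs ++ [(d, a)]) ∧ Wk R a ys := by
  induction xs generalizing y with
  | nil => simp [Wk]
  | cons x xs ih =>
    simp only [List.cons_append, Wk]
    rw [ih, and_assoc]

/-- **the path `l` from `p` to `q` is embedded on the walk `xs`, `z'`, the side trees and the children of `q` being items** -/
theorem spine_items {l : List (Bool × List (Bool × Fd))} {p q : Bool × Fd} (h : Spine l p q) (y z' : V)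
    (xs : List (Bool × V)) (A : Finset V) (hx : xs.map Prod.fst = l.map Prod.fst) (hw : Wk R y (xs ++ [(q.1, z')]))
    (hn : (xs.map Prod.snd ++ [z']).Nodup) (hA : ∀ x ∈ xs.map Prod.snd ++ [z'], x ∉ A)
    (hE : EmbI R (pnd l xs ++ q.2.trees.map (fun r => (z', r))) A) :
    EmbI R [(y, p)] ((xs.map Prod.snd ++ [z']).toFinset ∪ A) := by
  induction h generalizing y xs A with
  | nil p =>
    obtain rfl : xs = [] := by simpa using hx
    simp only [pnd, List.nil_append] at hE
    simp only [List.nil_append, Wk, and_true] at hw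
    simp only [List.map_nil, List.nil_append, List.mem_singleton, forall_eq] at hA
    have h1 : Emb R p.2 z' A := (emb_iff _ _ _).2 (EmbL.items.2 hE)
    rw [EmbI.single]
    refine ⟨insert z' A, ∅, disjoint_empty_right _, ?_, ⟨z', A, hw, hA, rfl, h1⟩, rfl⟩
    ext u
    simp
  | cons d c s p q l hperm _ ih =>
    obtain _ | ⟨x, xs⟩ := xs
    · simp at hx
    simp only [List.map_cons, List.cons.injEq] at hx
    obtain ⟨hx1, hx2⟩ := hx
    simp only [List.cons_append, Wk] at hw
    simp only [List.map_cons, List.cons_append, List.nodup_cons] at hn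
    simp only [List.map_cons, List.cons_append, List.mem_cons, forall_eq_or_imp] at hA
    simp only [pnd, List.append_assoc] at hE
    obtain ⟨A₁, A₂, h12, rfl, hE1, hE2⟩ := EmbI.append_iff.1 hE
    have hA1 : ∀ u ∈ xs.map Prod.snd ++ [z'], u ∉ A₁ ∧ u ∉ A₂ := fun u hu => by
      have := hA.2 u hu
      rw [mem_union, not_or] at this
      exact this
    have hxA : x.2 ∉ A₁ ∧ x.2 ∉ A₂ := by
      have := hA.1
      rw [mem_union, not_or] at this
      exact this
    have h3 := ih x.2 xs A₂ hx2 hw.2 hn.2 (fun u hu => (hA1 u hu).2) hE2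
    rw [EmbI.single] at h3
    have h4 : EmbL R x.2 s A₁ := EmbL.items.2 hE1
    set B := (xs.map Prod.snd ++ [z']).toFinset ∪ A₂ with hB
    have hBA : Disjoint B A₁ := by
      rw [hB, disjoint_union_left]
      refine ⟨?_, h12.symm⟩
      rw [disjoint_left]
      intro u hu
      exact (hA1 u (List.mem_toFinset.1 hu)).1
    have hxB : x.2 ∉ B := by
      rw [hB, mem_union, not_or]
      exact ⟨fun hu => hn.1 (List.mem_toFinset.1 hu), hxA.2⟩
    obtain ⟨S₁, S₂, f1, f2, f3, f4⟩ := h3
    obtain rfl : S₂ = ∅ := f4
    rw [union_empty] at f2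
    have h5 : EmbL R x.2 (p :: s) (B ∪ A₁) := ⟨B, A₁, hBA, rfl, by rw [f2]; exact f3, h4⟩
    have h6 : Emb R c x.2 (B ∪ A₁) := (emb_iff c _ _).2 (h5.perm hperm.symm)
    rw [EmbI.single]
    refine ⟨insert x.2 (B ∪ A₁), ∅, disjoint_empty_right _, ?_, ⟨x.2, B ∪ A₁, ?_, ?_, rfl, h6⟩, rfl⟩
    · rw [hB]
      ext u
      simp only [List.map_cons, List.cons_append, List.toFinset_cons, mem_union, mem_insert, notMem_empty, or_false]
      tauto
    · show Adj R d y x.2
      rw [← hx1]
      exact hw.1
    · rw [mem_union, not_or]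
      exact ⟨hxB, hxA.1⟩

/-- **connections through `Q`, with at least `L` inner vertices** -/
theorem connect {L w₀ : ℕ} {X Q : Finset V} (hQ : Q ⊆ X) (hconn : Conn R X Q L w₀)
    (hdeg : ∀ v ∈ X, ∀ d : Bool, w₀ ≤ (nb R d Q v).card) {z a : V} (hz : z ∈ X) (ha : a ∈ X) (ds : List Bool)
    (hds : L ≤ ds.length) (d : Bool) (W : Finset V) (hW : W.card + ds.length ≤ w₀) :
    ∃ xs : List (Bool × V), xs.map Prod.fst = ds ∧ Wk R z (xs ++ [(d, a)]) ∧ (xs.map Prod.snd).Nodup ∧
      ∀ p ∈ xs, p.2 ∈ Q ∧ p.2 ∉ W := by
  induction ds generalizing z W with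
  | nil =>
    have hL : ([] : List Bool).length = L := by
      simp only [List.length_nil] at hds ⊢
      omega
    exact hconn z hz a ha [] hL d W ((card_le_card inter_subset_left).trans (by omega))
  | cons d₀ ds ih =>
    rcases Nat.lt_or_ge ds.length L with hlt | hge
    · have hL : (d₀ :: ds).length = L := by
        simp only [List.length_cons] at hds ⊢
        omega
      exact hconn z hz a ha (d₀ :: ds) hL d W ((card_le_card inter_subset_left).trans (by omega))
    · simp only [List.length_cons] at hW
      obtain ⟨v, hv, hvW⟩ : ∃ v ∈ nb R d₀ Q z, v ∉ W := by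
        by_contra hcon
        push Not at hcon
        have h1 := card_le_card (show nb R d₀ Q z ⊆ W from hcon)
        have h2 := hdeg z hz d₀
        omega
      obtain ⟨hvQ, hva⟩ := mem_filter.1 hv
      obtain ⟨xs, h1, h2, h3, h4⟩ := ih (hQ hvQ) hge (insert v W) (by
        have := card_insert_le v W
        omega)
      refine ⟨(d₀, v) :: xs, by simp [h1], ⟨hva, h2⟩, ?_, ?_⟩
      · rw [List.map_cons, List.nodup_cons]
        refine ⟨?_, h3⟩
        intro hmem
        obtain ⟨t, ht, hte⟩ := List.mem_map.1 hmem
        exact (h4 t ht).2 (by rw [hte]; exact mem_insert_self _ _)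
      · intro t ht
        rcases List.mem_cons.1 ht with rfl | ht
        · exact ⟨hvQ, hvW⟩
        · exact ⟨(h4 t ht).1, fun hh => (h4 t ht).2 (mem_insert_of_mem hh)⟩

end AESP
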