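import Pool.Agent.AESP.Place0

/-!
# One hole: a leaf or a turn
-/

set_option autoImplicit false

namespace AESP

open Finset AE15 AED AELT AEX AESK
open scoped Classical

variable {V : Type} {R : V → V → Prop}

theorem psz_flat (l : List (Bool × List (Bool × Fd))) : psz l = l.length + tsz (l.map Prod.snd).flatten := by
  induction l with
  | nil => rfl
  | cons t l ih =>
    rw [psz_cons, ih, List.map_cons, List.flatten_cons, tsz_append, List.length_cons]
    omega

theorem supp_ne {D : Dat V} (h : (supp D).card = 5) : [D.1, D.2.1, yv D, D.2.2.2.1, D.2.2.2.2].Nodup := by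
  have h1 : supp D = [D.1, D.2.1, yv D, D.2.2.2.1, D.2.2.2.2].toFinset := by
    unfold supp yv
    simp
  rw [h1] at h
  have h2 : (([D.1, D.2.1, yv D, D.2.2.2.1, D.2.2.2.2] : List V) : Multiset V).toFinset.card =
      (([D.1, D.2.1, yv D, D.2.2.2.1, D.2.2.2.2] : List V) : Multiset V).card := h.trans (by simp)
  exact Multiset.coe_nodup.1 (Multiset.toFinset_card_eq_card_iff_nodup.1 h2)

/-- a leaf -/
theorem place_leaf {b L w₀ : ℕ} {X Q : Finset V} (hQ : Q ⊆ X) (hconn : Conn R X Q L w₀)
    (hdeg : ∀ v ∈ X, ∀ d : Bool, w₀ ≤ (nb R d Q v).card) {z : V} (hz : z ∈ X)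
    {p : Bool × Fd} (hp : p.2.len ≤ b) (hpd : p.2.Deg b) {l : List (Bool × List (Bool × Fd))} {d : Bool}
    {s : List (Bool × Fd)} {e : Bool} (hs : Spine (l ++ [(d, s)]) p (e, .nil)) (hl : L ≤ l.length) {D : Dat V}
    (hD : Okd R (.com e) D) (hDX : supp D ⊆ X)
    (hDQ : Disjoint (supp D) Q) {W : Finset V} (hzW : z ∈ W) (hWD : Disjoint W (supp D))
    (hW : W.card + l.length + 2 * L + 5 ≤ w₀) {ι : Type} (C : ι → V → Prop) (i : ι)
    (hC : ∀ x, C i x → Cnd R (.com e) D x) :
    ∃ (Z : Finset V) (I : List (V × (Bool × Fd))), HI R C [(z, p)] Z {i} I ∧ I.map Prod.snd = (l.map Prod.snd).flatten ++ s ∧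
      Z ⊆ Q ∪ (supp D).erase (yv D) ∧ Disjoint Z W ∧ Z.card ≤ l.length + L + 5 ∧
      Z.card + 1 + tsz ((l.map Prod.snd).flatten ++ s) = p.2.size + 1 ∧
      (∀ t ∈ I, t.1 ∈ Z) ∧ ∀ t ∈ (l.map Prod.snd).flatten ++ s, t.2.len ≤ b ∧ t.2.Deg b := by
  have hne := supp_ne hD.1
  simp only [List.nodup_cons, List.mem_cons, not_or, List.not_mem_nil] at hne
  have ha : D.1 ∈ supp D := by simp [supp]
  obtain ⟨xs, h1, h2, h3, h4⟩ := connect hQ hconn hdeg hz (hDX ha) (l.map Prod.fst) (by simpa using hl) d W
    (by simp only [List.length_map]; omega)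
  have hlen : xs.length = l.length := by
    have := congrArg List.length h1
    simpa using this
  have haxs : D.1 ∉ xs.map Prod.snd := by
    intro hmem
    obtain ⟨t, ht, hte⟩ := List.mem_map.1 hmem
    exact disjoint_left.1 hDQ ha (hte ▸ (h4 t ht).1)
  have hcard : (xs.map Prod.snd ++ [D.1]).toFinset.card = l.length + 1 := by
    rw [List.toFinset_card_of_nodup]
    · simp [hlen]
    · rw [List.nodup_append]
      refine ⟨h3, by simp, ?_⟩
      intro u hu v hv huv
      rw [List.mem_singleton] at hv
      subst hv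
      subst huv
      exact haxs hu
  have hsz := spine_size hs
  rw [psz_append, psz_flat, psz_cons, psz_nil] at hsz
  refine ⟨(xs.map Prod.snd ++ [D.1]).toFinset, pnd l xs ++ s.map (fun r => (D.1, r)), ?_, ?_, ?_, ?_, ?_, ?_, ?_, ?_⟩
  · intro g hg _ hd A hA hE
    rw [image_singleton] at hd hA ⊢
    have hx := hC _ (hg i (mem_singleton_self i))
    obtain ⟨hx1, -⟩ := hx
    have hxZ : g i ∉ (xs.map Prod.snd ++ [D.1]).toFinset := fun hh => disjoint_left.1 hd hh (mem_singleton_self _)
    have hxZ' : g i ∉ xs.map Prod.snd ++ [D.1] := fun hh => hxZ (List.mem_toFinset.2 hh)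
    have key := spine_items hs z (g i) (xs ++ [(d, D.1)]) A (by simp [h1]) (wk_append.2 ⟨h2, hx1, trivial⟩) (by
      rw [List.map_append, List.map_cons, List.map_nil, List.nodup_append]
      refine ⟨?_, by simp, ?_⟩
      · rw [List.nodup_append]
        refine ⟨h3, by simp, ?_⟩
        intro u hu v hv huv
        rw [List.mem_singleton] at hv
        subst hv
        subst huv
        exact haxs hu
      · intro u hu v hv huv
        rw [List.mem_singleton] at hv
        subst hv
        subst huv
        exact hxZ' hu) (by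
      intro u hu huA
      rw [List.map_append, List.map_cons, List.map_nil, List.mem_append, List.mem_singleton] at hu
      refine disjoint_left.1 hA ?_ huA
      rw [mem_union, mem_singleton, List.mem_toFinset]
      exact hu) (by
      rw [pnd_append hlen]
      simpa [pnd, Fd.trees] using hE)
    convert key using 1
    ext u
    simp only [List.toFinset_append, List.map_append, List.map_cons, List.map_nil, mem_union, List.mem_toFinset,
      List.mem_singleton, mem_singleton]
  · rw [List.map_append, pnd_snd hlen, List.map_map]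
    congr 1
    rw [show (Prod.snd ∘ fun r : Bool × Fd => (D.1, r)) = id from rfl, List.map_id]
  · intro u hu
    rw [List.mem_toFinset, List.mem_append, List.mem_singleton] at hu
    rcases hu with hu | rfl
    · obtain ⟨t, ht, rfl⟩ := List.mem_map.1 hu
      exact mem_union_left _ (h4 t ht).1
    · exact mem_union_right _ (mem_erase.2 ⟨hne.1.2.1, ha⟩)
  · rw [disjoint_left]
    intro u hu
    rw [List.mem_toFinset, List.mem_append, List.mem_singleton] at hu
    rcases hu with hu | rfl
    · obtain ⟨t, ht, rfl⟩ := List.mem_map.1 hu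
      exact (h4 t ht).2
    · exact fun hh => disjoint_left.1 hWD hh ha
  · omega
  · rw [hcard, tsz_append]
    simp only [Fd.size] at hsz
    omega
  · intro t ht
    rw [List.mem_toFinset, List.mem_append, List.mem_singleton]
    rcases List.mem_append.1 ht with ht | ht
    · exact Or.inl (pnd_mem ht)
    · obtain ⟨r, -, rfl⟩ := List.mem_map.1 ht
      exact Or.inr rfl
  · intro t ht
    obtain ⟨-, -, hP⟩ := spine_deg hs hp hpd
    rcases List.mem_append.1 ht with ht | ht
    · obtain ⟨L', hL', ht'⟩ := List.mem_flatten.1 ht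
      obtain ⟨r, hr, rfl⟩ := List.mem_map.1 hL'
      exact (hP r (List.mem_append_left _ hr)).2 t ht'
    · exact (hP (d, s) (List.mem_append_right _ (by simp))).2 t ht

/-- a turn -/
theorem place_turn {b L w₀ : ℕ} {X Q : Finset V} (hQ : Q ⊆ X) (hconn : Conn R X Q L w₀)
    (hdeg : ∀ v ∈ X, ∀ d : Bool, w₀ ≤ (nb R d Q v).card) {z : V} (hz : z ∈ X)
    {p : Bool × Fd} (hp : p.2.len ≤ b) (hpd : p.2.Deg b) {l : List (Bool × List (Bool × Fd))} {d : Bool}
    {s : List (Bool × Fd)} {e : Bool} {c : Fd} (hs : Spine (l ++ [(d, s), (e, [])]) p (!e, c)) (hl : L ≤ l.length)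
    {D : Dat V} (hD : Okd R (.com e) D) (hDX : supp D ⊆ X)
    (hDQ : Disjoint (supp D) Q) {W : Finset V} (hzW : z ∈ W) (hWD : Disjoint W (supp D))
    (hW : W.card + l.length + 2 * L + 5 ≤ w₀) {ι : Type} (C : ι → V → Prop) (i : ι)
    (hC : ∀ x, C i x → Cnd R (.com e) D x) :
    ∃ (Z : Finset V) (I : List (V × (Bool × Fd))), HI R C [(z, p)] Z {i} I ∧
      I.map Prod.snd = (l.map Prod.snd).flatten ++ s ++ c.trees ∧
      Z ⊆ Q ∪ (supp D).erase (yv D) ∧ Disjoint Z W ∧ Z.card ≤ l.length + L + 5 ∧
      Z.card + 1 + tsz ((l.map Prod.snd).flatten ++ s ++ c.trees) = p.2.size + 1 ∧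
      (∀ t ∈ I, t.1 ∈ Z) ∧ ∀ t ∈ (l.map Prod.snd).flatten ++ s ++ c.trees, t.2.len ≤ b ∧ t.2.Deg b := by
  have hne := supp_ne hD.1
  simp only [List.nodup_cons, List.mem_cons, not_or, List.not_mem_nil] at hne
  have ha : D.1 ∈ supp D := by simp [supp]
  have hc : D.2.1 ∈ supp D := by simp [supp]
  have hac : D.1 ≠ D.2.1 := hne.1.1
  obtain ⟨xs, h1, h2, h3, h4⟩ := connect hQ hconn hdeg hz (hDX ha) (l.map Prod.fst) (by simpa using hl) d W
    (by simp only [List.length_map]; omega)
  have hlen : xs.length = l.length := by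
    have := congrArg List.length h1
    simpa using this
  have hsxs : ∀ u ∈ supp D, u ∉ xs.map Prod.snd := by
    intro u hu hmem
    obtain ⟨t, ht, hte⟩ := List.mem_map.1 hmem
    exact disjoint_left.1 hDQ hu (hte ▸ (h4 t ht).1)
  have hnod : (xs.map Prod.snd ++ [D.1, D.2.1]).Nodup := by
    rw [List.nodup_append]
    refine ⟨h3, by simp [hac], ?_⟩
    intro u hu v hv huv
    subst huv
    simp only [List.mem_cons, List.not_mem_nil, or_false] at hv
    rcases hv with rfl | rfl
    · exact hsxs _ ha hu
    · exact hsxs _ hc hu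
  have hcard : (xs.map Prod.snd ++ [D.1, D.2.1]).toFinset.card = l.length + 2 := by
    rw [List.toFinset_card_of_nodup hnod]
    simp [hlen]
  have hsz := spine_size hs
  rw [psz_append, psz_flat, psz_cons, psz_cons, psz_nil] at hsz
  have hcs : c.size = tsz c.trees := Fd.size_eq c
  refine ⟨(xs.map Prod.snd ++ [D.1, D.2.1]).toFinset,
    pnd l xs ++ s.map (fun r => (D.1, r)) ++ c.trees.map (fun r => (D.2.1, r)), ?_, ?_, ?_, ?_, ?_, ?_, ?_, ?_⟩
  · intro g hg _ hd A hA hE
    rw [image_singleton] at hd hA ⊢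
    have hx := hC _ (hg i (mem_singleton_self i))
    obtain ⟨hx1, hx2⟩ := hx
    have hxZ : g i ∉ xs.map Prod.snd ++ [D.1, D.2.1] := fun hh =>
      disjoint_left.1 hd (List.mem_toFinset.2 hh) (mem_singleton_self _)
    have hxZ' : g i ∉ xs.map Prod.snd ∧ g i ≠ D.1 ∧ g i ≠ D.2.1 := by
      simpa [not_or] using hxZ
    have hadj : Adj R (!e) (g i) D.2.1 := by
      unfold Adj at hx2 ⊢
      cases e
      · simpa using hx2
      · simpa using hx2
    have key := spine_items hs z D.2.1 (xs ++ [(d, D.1)] ++ [(e, g i)]) A (by simp [h1])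
      (wk_append.2 ⟨wk_append.2 ⟨h2, hx1, trivial⟩, hadj, trivial⟩) (by
      rw [List.map_append, List.map_append, List.map_cons, List.map_nil, List.map_cons, List.map_nil]
      have hperm : (xs.map Prod.snd ++ [D.1] ++ [g i] ++ [D.2.1]).Perm (g i :: (xs.map Prod.snd ++ [D.1, D.2.1])) := by
        have e1 : xs.map Prod.snd ++ [D.1] ++ [g i] ++ [D.2.1] = (xs.map Prod.snd ++ [D.1]) ++ g i :: [D.2.1] := by simp
        have e2 : g i :: (xs.map Prod.snd ++ [D.1, D.2.1]) = g i :: ((xs.map Prod.snd ++ [D.1]) ++ [D.2.1]) := by simp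
        rw [e1, e2]
        exact List.perm_middle
      exact hperm.nodup_iff.2 (List.nodup_cons.2 ⟨hxZ, hnod⟩)) (by
      intro u hu huA
      simp only [List.map_append, List.map_cons, List.map_nil, List.mem_append, List.mem_singleton] at hu
      refine disjoint_left.1 hA ?_ huA
      rw [mem_union, mem_singleton, List.mem_toFinset]
      simp only [List.mem_append, List.mem_cons, List.not_mem_nil, or_false]
      tauto) (by
      rw [List.append_assoc xs, pnd_append hlen]
      simpa [pnd] using hE)
    convert key using 1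
    ext u
    simp only [List.map_append, List.map_cons, List.map_nil, mem_union, List.mem_toFinset,
      List.mem_append, List.mem_cons, List.not_mem_nil, or_false, mem_singleton]
    tauto
  · rw [List.map_append, List.map_append, pnd_snd hlen, List.map_map, List.map_map]
    rw [show (Prod.snd ∘ fun r : Bool × Fd => (D.1, r)) = id from rfl, List.map_id,
      show (Prod.snd ∘ fun r : Bool × Fd => (D.2.1, r)) = id from rfl, List.map_id]
  · intro u hu
    rw [List.mem_toFinset, List.mem_append] at hu
    simp only [List.mem_cons, List.not_mem_nil, or_false] at hu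
    rcases hu with hu | rfl | rfl
    · obtain ⟨t, ht, rfl⟩ := List.mem_map.1 hu
      exact mem_union_left _ (h4 t ht).1
    · exact mem_union_right _ (mem_erase.2 ⟨hne.1.2.1, ha⟩)
    · exact mem_union_right _ (mem_erase.2 ⟨hne.2.1.1, hc⟩)
  · rw [disjoint_left]
    intro u hu
    rw [List.mem_toFinset, List.mem_append] at hu
    simp only [List.mem_cons, List.not_mem_nil, or_false] at hu
    rcases hu with hu | rfl | rfl
    · obtain ⟨t, ht, rfl⟩ := List.mem_map.1 hu
      exact (h4 t ht).2
    · exact fun hh => disjoint_left.1 hWD hh ha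
    · exact fun hh => disjoint_left.1 hWD hh hc
  · omega
  · rw [hcard, tsz_append, tsz_append]
    simp only [tsz_nil] at hsz
    omega
  · intro t ht
    rw [List.mem_toFinset, List.mem_append]
    simp only [List.mem_cons, List.not_mem_nil, or_false]
    rcases List.mem_append.1 ht with ht | ht
    · rcases List.mem_append.1 ht with ht | ht
      · exact Or.inl (pnd_mem ht)
      · obtain ⟨r, -, rfl⟩ := List.mem_map.1 ht
        exact Or.inr (Or.inl rfl)
    · obtain ⟨r, -, rfl⟩ := List.mem_map.1 ht
      exact Or.inr (Or.inr rfl)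
  · intro t ht
    obtain ⟨-, hcd, hP⟩ := spine_deg hs hp hpd
    rcases List.mem_append.1 ht with ht | ht
    · rcases List.mem_append.1 ht with ht | ht
      · obtain ⟨L', hL', ht'⟩ := List.mem_flatten.1 ht
        obtain ⟨r, hr, rfl⟩ := List.mem_map.1 hL'
        exact (hP r (List.mem_append_left _ hr)).2 t ht'
      · exact (hP (d, s) (List.mem_append_right _ (by simp))).2 t ht
    · exact (Fd.deg_iff b c).1 hcd t ht

end AESP
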