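import Pool.Agent.AESP.BoxEq
import Pool.Agent.AESP.Lev
import Pool.Agent.AELT.Grow
import Pool.Agent.AEX.Str

/-!
# Spanning trees in expanding tournaments: richness of the kinds `com`
-/

set_option autoImplicit false

namespace AESP

open Finset AE15 AED AELT AEX AESK
open scoped Classical

variable {V : Type} {R : V → V → Prop}

/-- `u` is a neighbour of `x` of the opposite sign iff `x` is a neighbour of `u` -/
theorem adj_not {e : Bool} {x u : V} (h : Adj R (!e) x u) : Adj R e u x := by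
  cases e with
  | true => simpa [Adj] using h
  | false => simpa [Adj] using h

/-- many data: `y` of a lower level, `a` and `c` common neighbours of `x` and `y` -/
theorem com_count {X Y : Finset V} {e : Bool} {x : V} {δ : ℝ} (hδ : 0 < δ) (hX : 20 / δ ^ 3 ≤ (X.card : ℝ))
    (hY : Y ⊆ X) (hYc : δ * X.card ≤ (Y.card : ℝ))
    (hC : ∀ y ∈ Y, δ * X.card ≤ ((nb R (!e) X x ∩ nb R (!e) X y).card : ℝ)) :
    δ ^ 3 / 2 * (X.card : ℝ) ^ 5 ≤
      (((box X).filter (fun D => Okd R (.com e) D ∧ Cnd R (.com e) D x ∧ yv D ∈ Y)).card : ℝ) := by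
  obtain ⟨C, hCd⟩ : ∃ C : V → Finset V, C = fun y => nb R (!e) X x ∩ nb R (!e) X y := ⟨_, rfl⟩
  have hCy : ∀ y ∈ Y, δ * X.card ≤ ((C y).card : ℝ) := by rw [hCd]; exact hC
  have hCm : ∀ y u, u ∈ C y → u ∈ X ∧ Adj R e u x ∧ Adj R e u y := by
    intro y u hu
    rw [hCd, mem_inter] at hu
    unfold nb at hu
    rw [mem_filter, mem_filter] at hu
    exact ⟨hu.1.1, adj_not hu.1.2, adj_not hu.2.2⟩
  obtain ⟨A, hA⟩ : ∃ A : Finset (Dat V), A = Y.biUnion (fun y => C y ×ˢ C y ×ˢ ({y} : Finset V) ×ˢ X ×ˢ X) := ⟨_, rfl⟩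
  have hn0 : (0 : ℝ) ≤ X.card := Nat.cast_nonneg _
  have hAc : A.card = ∑ y ∈ Y, (C y).card * ((C y).card * (X.card * X.card)) := by
    rw [hA, card_biUnion]
    · refine sum_congr rfl fun y _ => ?_
      simp only [card_product, card_singleton, one_mul]
    · intro y _ z _ hyz
      rw [Function.onFun, disjoint_left]
      rintro ⟨a, c, w, g, h⟩ h1 h2
      simp only [mem_product, mem_singleton] at h1 h2
      exact hyz (h1.2.2.1.symm.trans h2.2.2.1)
  have hA1 : δ ^ 3 * (X.card : ℝ) ^ 5 ≤ (A.card : ℝ) := by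
    rw [hAc]
    push_cast
    have h1 : ∀ y ∈ Y, δ * X.card * (δ * X.card * ((X.card : ℝ) * X.card)) ≤
        ((C y).card : ℝ) * (((C y).card : ℝ) * ((X.card : ℝ) * X.card)) := by
      intro y hy
      have h2 := hCy y hy
      have h3 : 0 ≤ δ * X.card := by positivity
      have h4 : δ * X.card * ((X.card : ℝ) * X.card) ≤ ((C y).card : ℝ) * ((X.card : ℝ) * X.card) :=
        mul_le_mul_of_nonneg_right h2 (by positivity)
      exact mul_le_mul h2 h4 (by positivity) (Nat.cast_nonneg _)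
    calc δ ^ 3 * (X.card : ℝ) ^ 5 = δ * X.card * (δ * X.card * (δ * X.card * ((X.card : ℝ) * X.card))) := by ring
      _ ≤ Y.card * (δ * X.card * (δ * X.card * ((X.card : ℝ) * X.card))) :=
          mul_le_mul_of_nonneg_right hYc (by positivity)
      _ = ∑ _y ∈ Y, δ * X.card * (δ * X.card * ((X.card : ℝ) * X.card)) := by rw [sum_const, nsmul_eq_mul]
      _ ≤ _ := sum_le_sum h1
  have hA2 : A ⊆ (box X).filter (fun D => Okd R (.com e) D ∧ Cnd R (.com e) D x ∧ yv D ∈ Y) ∪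
      (box X).filter (fun D => (supp D).card ≠ 5) := by
    rintro ⟨a, c, w, g, h⟩ hD
    rw [hA, mem_biUnion] at hD
    obtain ⟨y, hy, hD⟩ := hD
    simp only [mem_product, mem_singleton] at hD
    obtain ⟨h1, h2, rfl, h4, h5⟩ := hD
    obtain ⟨a1, a2, a3⟩ := hCm _ _ h1
    obtain ⟨c1, c2, c3⟩ := hCm _ _ h2
    have hb : ((a, c, w, g, h) : Dat V) ∈ box X := mem_box.2 ⟨a1, c1, hY hy, h4, h5⟩
    by_cases h6 : (supp (a, c, w, g, h)).card = 5
    · refine mem_union_left _ (mem_filter.2 ⟨hb, ?_, ?_, ?_⟩)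
      · exact ⟨h6, a3, c3⟩
      · exact ⟨a2, c2⟩
      · exact hy
    · exact mem_union_right _ (mem_filter.2 ⟨hb, h6⟩)
  have hA3 : (A.card : ℝ) ≤ (((box X).filter (fun D => Okd R (.com e) D ∧ Cnd R (.com e) D x ∧ yv D ∈ Y)).card : ℝ) +
      10 * (X.card : ℝ) ^ 4 := by
    have h1 := (card_le_card hA2).trans (card_union_le _ _)
    have h2 := supp_bad X
    exact_mod_cast h1.trans (Nat.add_le_add_left h2 _)
  have hA4 : 10 * (X.card : ℝ) ^ 4 ≤ δ ^ 3 / 2 * (X.card : ℝ) ^ 5 := by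
    rw [div_le_iff₀ (by positivity)] at hX
    have h1 : (20 : ℝ) * (X.card : ℝ) ^ 4 ≤ X.card * δ ^ 3 * (X.card : ℝ) ^ 4 :=
      mul_le_mul_of_nonneg_right hX (by positivity)
    have h2 : X.card * δ ^ 3 * (X.card : ℝ) ^ 4 = δ ^ 3 * (X.card : ℝ) ^ 5 := by ring
    linarith
  linarith

theorem rich_com_of {X : Finset V} {e : Bool} {J : ℕ} {δ : ℝ} (hδ : 0 < δ) (hX : 20 / δ ^ 3 ≤ (X.card : ℝ))
    (hl : ∀ h ∈ X, ∀ d : Bool, ∃ lev : V → ℕ, (∀ x, lev x ≤ J) ∧ (∀ x ∈ X, lev x = 0 → x ∈ nb R d X h) ∧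
      ∀ x ∈ X, 0 < lev x → δ * X.card ≤ ((X.filter (fun y => lev y < lev x ∧
          δ * X.card ≤ ((nb R (!e) X x ∩ nb R (!e) X y).card : ℝ))).card : ℝ)) : Rich R X (.com e) J (δ ^ 3 / 2) := by
  intro h hh d
  obtain ⟨lev, l1, l2, l3⟩ := hl h hh d
  refine ⟨lev, l1, fun x hx _ hx0 => ?_, fun x hx _ hx0 => ?_⟩
  · have h1 := l2 x hx hx0
    unfold nb at h1
    exact (mem_filter.1 h1).2
  · refine (com_count (R := R) (x := x) (e := e) hδ hX (filter_subset _ _) (l3 x hx hx0)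
      (fun y hy => (mem_filter.1 hy).2.2)).trans ?_
    refine Nat.cast_le.2 (card_le_card fun D hD => ?_)
    rw [mem_filter] at hD ⊢
    exact ⟨hD.1, hD.2.1, hD.2.2.1, (mem_filter.1 hD.2.2.2).2.1⟩

theorem rich_com {θ : ℝ} (hθ : 0 < θ) (hθ1 : θ ≤ 1) : ∃ (J n₁ : ℕ) (δ : ℝ), 0 < δ ∧ ∀ {V : Type} {R : V → V → Prop},
    AE32.Tour R → ∀ X : Finset V, n₁ ≤ X.card → Ex R (θ * X.card) X → ∀ e : Bool, Rich R X (.com e) J δ := by
  obtain ⟨J, n₁, δ, hδ, hlev⟩ := ex_levels hθ hθ1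
  refine ⟨J, max n₁ (max 2 ⌈20 / δ ^ 3⌉₊), δ ^ 3 / 2, by positivity, ?_⟩
  intro V R hT X hX hE e
  have h1 : n₁ ≤ X.card := (le_max_left _ _).trans hX
  have h2 : 2 ≤ X.card := ((le_max_left _ _).trans (le_max_right _ _)).trans hX
  have h3 : 20 / δ ^ 3 ≤ (X.card : ℝ) := by
    have h4 : ⌈20 / δ ^ 3⌉₊ ≤ X.card := ((le_max_right _ _).trans (le_max_right _ _)).trans hX
    exact (Nat.le_ceil _).trans (by exact_mod_cast h4)
  refine rich_com_of hδ h3 (fun h hh d => ?_)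
  obtain ⟨lev, l1, l2, l3⟩ := hlev hT X h1 hE e (nb R d X h) (by unfold nb; exact filter_subset _ _) (by
    have h4 := deg_of_ex hE h2 hh d
    have h5 : 0 ≤ θ * X.card := by positivity
    linarith)
  exact ⟨lev, l1, l2, l3⟩

end AESP
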