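import Pool.Agent.AESP.Defs

/-!
# Richness of the holes on directed paths
-/

set_option autoImplicit false

namespace AESP

open Finset AE15 AED AELT AEX AESK
open scoped Classical

variable {V : Type} {R : V → V → Prop}

/-- the pairs `a → c` with `a → x → c` -/
private noncomputable def prs (R : V → V → Prop) (X : Finset V) (x : V) : Finset (V × V) :=
  (nb R false X x ×ˢ nb R true X x).filter (fun q => R q.1 q.2)

private theorem mem_prs {X : Finset V} {x : V} {q : V × V} : q ∈ prs R X x ↔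
    (q.1 ∈ X ∧ R q.1 x) ∧ (q.2 ∈ X ∧ R x q.2) ∧ R q.1 q.2 := by
  simp [prs, nb, Adj, and_assoc]

private theorem prs_card_eq (X : Finset V) (x : V) :
    (prs R X x).card = ∑ s ∈ nb R false X x, (nO R (nb R true X x) s).card := by
  unfold prs
  rw [card_filter, sum_product]
  refine sum_congr rfl fun s _ => ?_
  rw [nO, card_filter]

private theorem prs_card {θ : ℝ} (hθ : 0 < θ) (hT : AE32.Tour R) {X : Finset V}
    (hn : 2 / θ ^ 2 ≤ (X.card : ℝ)) (hX : 2 ≤ X.card) (hE : Ex R (θ * X.card) X) {x : V} (hx : x ∈ X) :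
    θ ^ 2 / 2 * (X.card : ℝ) ^ 2 ≤ ((prs R X x).card : ℝ) := by
  have hd1 := deg_of_ex hE hX hx false
  have hd2 := deg_of_ex hE hX hx true
  obtain ⟨S, hS⟩ : ∃ S, S = nb R false X x := ⟨_, rfl⟩
  obtain ⟨O, hO⟩ : ∃ O, O = nb R true X x := ⟨_, rfl⟩
  have hSX : S ⊆ X := by rw [hS]; exact filter_subset _ _
  have hsub : X \ S ⊆ insert x O := by
    intro u hu
    rw [mem_sdiff, hS] at hu
    by_cases hux : u = x
    · rw [hux]; exact mem_insert_self _ _
    · refine mem_insert_of_mem ?_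
      rw [hO]
      have h1 : ¬ R u x := fun h => hu.2 (by simp [nb, Adj, hu.1, h])
      have h2 : R x u := ((hT.tot x u (Ne.symm hux)).resolve_right h1)
      simp [nb, Adj, hu.1, h2]
  have hOsub : O ⊆ X \ S := by
    intro u hu
    rw [hO] at hu
    simp only [nb, Adj, mem_filter, if_true] at hu
    rw [mem_sdiff, hS]
    refine ⟨hu.1, fun h => ?_⟩
    have h2 : R u x := by simpa [nb, Adj, hu.1] using h
    exact hT.asym _ _ hu.2 h2
  have h1 := hE S hSX
  have h2 : (ar R S (X \ S) : ℝ) ≤ ((prs R X x).card : ℝ) + S.card := by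
    have : ar R S (X \ S) ≤ (prs R X x).card + S.card := by
      rw [prs_card_eq, ← hS, ← hO, ar, card_eq_sum_ones, ← sum_add_distrib]
      refine sum_le_sum fun s _ => ?_
      have h3 : nO R (X \ S) s ⊆ insert x (nO R O s) := by
        intro u hu
        rw [nO, mem_filter] at hu
        rcases mem_insert.1 (hsub hu.1) with rfl | h4
        · exact mem_insert_self _ _
        · exact mem_insert_of_mem (by rw [nO, mem_filter]; exact ⟨h4, hu.2⟩)
      exact (card_le_card h3).trans (card_insert_le _ _)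
    exact_mod_cast this
  have h3 : θ * X.card ≤ ((min S.card (X \ S).card : ℕ) : ℝ) := by
    rw [Nat.cast_min]
    refine le_min (by rw [hS]; exact hd1) ?_
    refine (hd2.trans ?_)
    rw [← hO]
    exact_mod_cast card_le_card hOsub
  have h4 : (S.card : ℝ) ≤ X.card := by exact_mod_cast card_le_card hSX
  have hX0 : (0 : ℝ) ≤ X.card := by positivity
  have h5 : θ * X.card * (θ * X.card) ≤ θ * X.card * ((min S.card (X \ S).card : ℕ) : ℝ) :=
    mul_le_mul_of_nonneg_left h3 (by positivity)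
  have h6 : (X.card : ℝ) ≤ θ ^ 2 / 2 * (X.card : ℝ) ^ 2 := by
    rw [div_le_iff₀ (by positivity)] at hn
    nlinarith
  nlinarith

/-- five vertices two of which are equal, from four ones -/
private def mk4 (i : Fin 10) (q : V × V × V × V) : Dat V :=
  match i with
  | 0 => (q.1, q.1, q.2.1, q.2.2.1, q.2.2.2)
  | 1 => (q.1, q.2.1, q.1, q.2.2.1, q.2.2.2)
  | 2 => (q.1, q.2.1, q.2.2.1, q.1, q.2.2.2)
  | 3 => (q.1, q.2.1, q.2.2.1, q.2.2.2, q.1)
  | 4 => (q.1, q.2.1, q.2.1, q.2.2.1, q.2.2.2)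
  | 5 => (q.1, q.2.1, q.2.2.1, q.2.1, q.2.2.2)
  | 6 => (q.1, q.2.1, q.2.2.1, q.2.2.2, q.2.1)
  | 7 => (q.1, q.2.1, q.2.2.1, q.2.2.1, q.2.2.2)
  | 8 => (q.1, q.2.1, q.2.2.1, q.2.2.2, q.2.2.1)
  | 9 => (q.1, q.2.1, q.2.2.1, q.2.2.2, q.2.2.2)

/-- few tuples have two equal entries -/
private theorem bad_card (X : Finset V) : ((box X).filter (fun D => (supp D).card ≠ 5)).card ≤ 10 * X.card ^ 4 := by
  have h1 : (box X).filter (fun D => (supp D).card ≠ 5) ⊆
      ((univ : Finset (Fin 10)) ×ˢ X ×ˢ X ×ˢ X ×ˢ X).image (fun q => mk4 q.1 q.2) := by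
    intro D hD
    obtain ⟨a, c, y, g, k⟩ := D
    rw [mem_filter] at hD
    obtain ⟨hD, h5⟩ := hD
    simp only [box, mem_product] at hD
    obtain ⟨ha, hc, hy, hg, hk⟩ := hD
    rw [mem_image]
    by_cases e0 : a = c
    · subst e0
      exact ⟨(0, a, y, g, k), by simp [ha, hy, hg, hk], rfl⟩
    by_cases e1 : a = y
    · subst e1
      exact ⟨(1, a, c, g, k), by simp [ha, hc, hg, hk], rfl⟩
    by_cases e2 : a = g
    · subst e2
      exact ⟨(2, a, c, y, k), by simp [ha, hc, hy, hk], rfl⟩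
    by_cases e3 : a = k
    · subst e3
      exact ⟨(3, a, c, y, g), by simp [ha, hc, hy, hg], rfl⟩
    by_cases e4 : c = y
    · subst e4
      exact ⟨(4, a, c, g, k), by simp [ha, hc, hg, hk], rfl⟩
    by_cases e5 : c = g
    · subst e5
      exact ⟨(5, a, c, y, k), by simp [ha, hc, hy, hk], rfl⟩
    by_cases e6 : c = k
    · subst e6
      exact ⟨(6, a, c, y, g), by simp [ha, hc, hy, hg], rfl⟩
    by_cases e7 : y = g
    · subst e7
      exact ⟨(7, a, c, y, k), by simp [ha, hc, hy, hk], rfl⟩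
    by_cases e8 : y = k
    · subst e8
      exact ⟨(8, a, c, y, g), by simp [ha, hc, hy, hg], rfl⟩
    by_cases e9 : g = k
    · subst e9
      exact ⟨(9, a, c, y, g), by simp [ha, hc, hy, hg], rfl⟩
    exfalso
    apply h5
    show ({a, c, y, g, k} : Finset V).card = 5
    rw [card_insert_of_notMem (by simp [e0, e1, e2, e3]), card_insert_of_notMem (by simp [e4, e5, e6]),
      card_insert_of_notMem (by simp [e7, e8]), card_insert_of_notMem (by simp [e9]), card_singleton]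
  refine (card_le_card h1).trans (card_image_le.trans ?_)
  rw [card_product, card_product, card_product, card_product, card_univ, Fintype.card_fin]
  apply le_of_eq
  ring

private theorem num {θ n P N Z A G : ℝ} (hθ : 0 < θ) (hn : 0 ≤ n) (hn1 : 80 / θ ^ 5 ≤ n)
    (hP : θ ^ 2 / 2 * n ^ 2 ≤ P) (hN : θ * n ≤ N) (hZ : N * (θ ^ 2 / 2 * n ^ 2) ≤ Z) (hA : A = P * Z)
    (hG : A ≤ G + 10 * n ^ 4) : θ ^ 5 / 8 * n ^ 5 ≤ G := by
  have h1 : 0 ≤ θ ^ 2 / 2 * n ^ 2 := by positivity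
  have h2 : θ * n * (θ ^ 2 / 2 * n ^ 2) ≤ Z := (mul_le_mul_of_nonneg_right hN h1).trans hZ
  have h3 : 0 ≤ θ * n * (θ ^ 2 / 2 * n ^ 2) := by positivity
  have h4 : θ ^ 2 / 2 * n ^ 2 * (θ * n * (θ ^ 2 / 2 * n ^ 2)) ≤ P * Z :=
    mul_le_mul hP h2 h3 (h1.trans hP)
  have h6 : 10 * n ^ 4 ≤ θ ^ 5 / 8 * n ^ 5 := by
    rw [div_le_iff₀ (by positivity)] at hn1
    have h7 : 0 ≤ n ^ 4 := by positivity
    nlinarith
  have h8 : θ ^ 2 / 2 * n ^ 2 * (θ * n * (θ ^ 2 / 2 * n ^ 2)) = θ ^ 5 / 4 * n ^ 5 := by ring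
  rw [h8] at h4
  linarith

theorem rich_dir {θ : ℝ} (hθ : 0 < θ) (hθ1 : θ ≤ 1) : ∃ (n₁ : ℕ) (δ : ℝ), 0 < δ ∧ ∀ {V : Type} {R : V → V → Prop},
    AE32.Tour R → ∀ X : Finset V, n₁ ≤ X.card → Ex R (θ * X.card) X → Rich R X .dir 1 δ := by
  obtain ⟨n₁, hn₁⟩ : ∃ n : ℕ, 80 / θ ^ 5 ≤ (n : ℝ) := exists_nat_ge _
  refine ⟨max n₁ 2, θ ^ 5 / 8, by positivity, ?_⟩
  intro V R hT X hX hE
  have hX1 : n₁ ≤ X.card := (le_max_left _ _).trans hX
  have hX2 : 2 ≤ X.card := (le_max_right _ _).trans hX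
  have hXn : 80 / θ ^ 5 ≤ (X.card : ℝ) := hn₁.trans (by exact_mod_cast hX1)
  have hXn2 : 2 / θ ^ 2 ≤ (X.card : ℝ) := by
    refine le_trans ?_ hXn
    rw [div_le_div_iff₀ (by positivity) (by positivity)]
    have h1 : θ ^ 5 ≤ θ ^ 2 := pow_le_pow_of_le_one hθ.le hθ1 (by norm_num)
    nlinarith [pow_pos hθ 2]
  intro h hh d
  refine ⟨fun x => if x ∈ nb R d X h then 0 else 1, fun x => ?_, fun x hx hxh h0 => ?_, fun x hx hxh h0 => ?_⟩
  · beta_reduce
    split_ifs <;> simp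
  · by_contra h1
    have : x ∉ nb R d X h := fun h2 => h1 (by simpa [nb, hx] using h2)
    beta_reduce at h0
    rw [if_neg this] at h0
    exact one_ne_zero h0
  · have hxn : x ∉ nb R d X h := by
      intro h1
      beta_reduce at h0
      rw [if_pos h1] at h0
      exact lt_irrefl _ h0
    obtain ⟨N, hN⟩ : ∃ N, N = nb R d X h := ⟨_, rfl⟩
    have hNc : θ * X.card ≤ (N.card : ℝ) := by rw [hN]; exact deg_of_ex hE hX2 hh d
    have hNX : N ⊆ X := by rw [hN]; exact filter_subset _ _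
    -- the tuples without the condition of distinctness
    obtain ⟨A, hA⟩ : ∃ A : Finset (Dat V), A = (prs R X x ×ˢ N.sigma (fun y => prs R X y)).image
      (fun q => (q.1.1, q.1.2, q.2.1, q.2.2.1, q.2.2.2)) := ⟨_, rfl⟩
    have hAc : A.card = (prs R X x).card * ∑ y ∈ N, (prs R X y).card := by
      rw [hA, card_image_of_injective, card_product, card_sigma]
      rintro ⟨⟨a, c⟩, ⟨y, g, k⟩⟩ ⟨⟨a', c'⟩, ⟨y', g', k'⟩⟩ h1
      simp only [Prod.mk.injEq] at h1
      obtain ⟨rfl, rfl, rfl, rfl, rfl⟩ := h1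
      rfl
    have hsub : A ⊆ (box X).filter (fun D => Okd R .dir D ∧ Cnd R .dir D x ∧
        (if yv D ∈ nb R d X h then 0 else 1) < if x ∈ nb R d X h then 0 else 1) ∪
        (box X).filter (fun D => (supp D).card ≠ 5) := by
      intro D hD
      rw [hA, mem_image] at hD
      obtain ⟨⟨⟨a, c⟩, ⟨y, g, k⟩⟩, hq, rfl⟩ := hD
      rw [mem_product, mem_sigma] at hq
      obtain ⟨hq1, hq2, hq3⟩ := hq
      rw [mem_prs] at hq1 hq3
      dsimp only at hq1 hq2 hq3 ⊢
      have hbox : ((a, c, y, g, k) : Dat V) ∈ box X := by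
        simp only [box, mem_product]
        exact ⟨hq1.1.1, hq1.2.1.1, hNX hq2, hq3.1.1, hq3.2.1.1⟩
      rw [mem_union]
      by_cases h5 : (supp ((a, c, y, g, k) : Dat V)).card = 5
      · left
        rw [mem_filter]
        refine ⟨hbox, ⟨h5, hq1.2.2, hq3.1.2, hq3.2.1.2, hq3.2.2⟩, Or.inr ⟨hq1.1.2, hq1.2.1.2⟩, ?_⟩
        rw [if_neg hxn, if_pos (by rw [← hN]; exact hq2)]
        exact one_pos
      · right
        rw [mem_filter]
        exact ⟨hbox, h5⟩
    have h1 := (card_le_card hsub).trans (card_union_le _ _)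
    have h2 := bad_card X
    have h3 : (A.card : ℝ) ≤ (((box X).filter (fun D => Okd R .dir D ∧ Cnd R .dir D x ∧
        (if yv D ∈ nb R d X h then 0 else 1) < if x ∈ nb R d X h then 0 else 1)).card : ℝ) +
        10 * (X.card : ℝ) ^ 4 := by
      have : A.card ≤ ((box X).filter (fun D => Okd R .dir D ∧ Cnd R .dir D x ∧
        (if yv D ∈ nb R d X h then 0 else 1) < if x ∈ nb R d X h then 0 else 1)).card +
        10 * X.card ^ 4 := by omega
      exact_mod_cast this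
    have h5 : ∀ y ∈ N, θ ^ 2 / 2 * (X.card : ℝ) ^ 2 ≤ ((prs R X y).card : ℝ) :=
      fun y hy => prs_card hθ hT hXn2 hX2 hE (hNX hy)
    have h7 := prs_card hθ hT hXn2 hX2 hE hx
    have hX0 : (0 : ℝ) ≤ X.card := Nat.cast_nonneg _
    have hAc' : (A.card : ℝ) = ((prs R X x).card : ℝ) * ∑ y ∈ N, ((prs R X y).card : ℝ) := by
      rw [hAc, Nat.cast_mul, Nat.cast_sum]
    have h9 : (N.card : ℝ) * (θ ^ 2 / 2 * (X.card : ℝ) ^ 2) ≤ ∑ y ∈ N, ((prs R X y).card : ℝ) := by
      have := sum_le_sum h5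
      rwa [sum_const, nsmul_eq_mul] at this
    exact num hθ hX0 hXn h7 hNc h9 hAc' h3

end AESP
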