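import Pool.Agent.AESP.Cover
import Pool.Agent.AESP.RichC
import Pool.Agent.AESP.RichD

/-!
# The three sequences of data

For every kind of holes the greedy cover gives a sequence of data with disjoint supports; the tests are the triples
`(h, d, x)` where `x` does not have level zero with respect to `h` and `d`.
-/

set_option autoImplicit false

namespace AESP

open Finset AE15 AED AELT AEX AESK
open scoped Classical

variable {V : Type} {R : V → V → Prop}

theorem Rich.mono {X : Finset V} {k : Kind} {J J' : ℕ} {δ : ℝ} (h : Rich R X k J δ) (hJ : J ≤ J') :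
    Rich R X k J' δ := by
  intro a ha d
  obtain ⟨lev, h1, h2, h3⟩ := h a ha d
  exact ⟨lev, fun x => (h1 x).trans hJ, h2, h3⟩

theorem supp_subset_of_box {X : Finset V} {D : Dat V} (h : D ∈ box X) : supp D ⊆ X := by
  obtain ⟨a, c, y, g, g'⟩ := D
  simp only [box, mem_product] at h
  obtain ⟨h1, h2, h3, h4, h5⟩ := h
  intro u hu
  simp only [supp, mem_insert, mem_singleton] at hu
  rcases hu with rfl | rfl | rfl | rfl | rfl <;> assumption

theorem supp_card_le (D : Dat V) : (supp D).card ≤ 5 := by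
  unfold supp
  refine (card_insert_le _ _).trans ?_
  refine Nat.succ_le_succ ?_
  refine (card_insert_le _ _).trans ?_
  refine Nat.succ_le_succ ?_
  refine (card_insert_le _ _).trans ?_
  refine Nat.succ_le_succ ?_
  refine (card_insert_le _ _).trans ?_
  simp

/-- one kind -/
theorem seqs_one (k : Kind) (J K₀ : ℕ) {δ : ℝ} (hδ : 0 < δ) : ∃ n₁ : ℕ, ∀ {V : Type} {R : V → V → Prop},
    AE32.Tour R → ∀ X : Finset V, n₁ ≤ X.card → Rich R X k J δ → ∀ F₀ : Finset V, F₀.card ^ 2 ≤ X.card → ∀ M : ℕ,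
      X.card ≤ (M + 1) ^ 8 → M ^ 8 ≤ X.card → ∃ D : ℕ → Dat V,
        (∀ i < 3 * M, Okd R k (D i) ∧ supp (D i) ⊆ X ∧ Disjoint (supp (D i)) F₀) ∧
        (∀ i < 3 * M, ∀ j < 3 * M, i ≠ j → Disjoint (supp (D i)) (supp (D j))) ∧ RichS R X k J K₀ M D := by
  obtain ⟨n₁, hn⟩ := cover K₀ hδ
  refine ⟨n₁ + 2, ?_⟩
  intro V R hT X hX hR F₀ hF M hM1 hM2
  have hch : ∀ h : V, ∀ d : Bool, ∃ lev : V → ℕ, h ∈ X → ((∀ x, lev x ≤ J) ∧
      (∀ x ∈ X, x ≠ h → lev x = 0 → Adj R d h x) ∧ ∀ x ∈ X, x ≠ h → 0 < lev x →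
      δ * (X.card : ℝ) ^ 5 ≤ (((box X).filter (fun D => Okd R k D ∧ Cnd R k D x ∧ lev (yv D) < lev x)).card : ℝ)) := by
    intro h d
    by_cases hh : h ∈ X
    · obtain ⟨lev, hl⟩ := hR h hh d
      exact ⟨lev, fun _ => hl⟩
    · exact ⟨fun _ => 0, fun h' => absurd h' hh⟩
  choose lev hlev using hch
  set T : Finset (V × Bool × V) := (X ×ˢ (univ : Finset Bool) ×ˢ X).filter
    (fun t => t.2.2 ≠ t.1 ∧ 0 < lev t.1 t.2.1 t.2.2) with hTdef
  have hTc : T.card ≤ 2 * X.card ^ 2 := by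
    refine (card_filter_le _ _).trans ?_
    rw [card_product, card_product, card_univ, Fintype.card_bool]
    exact le_of_eq (by ring)
  have hTn : T.Nonempty := by
    obtain ⟨h, hh, x, hx, hne⟩ := Finset.one_lt_card.1 (show 1 < X.card by omega)
    have key : ∃ d : Bool, 0 < lev h d x := by
      by_contra hcon
      push Not at hcon
      have e1 := (hlev h true hh).2.1 x hx hne.symm (Nat.le_zero.1 (hcon true))
      have e2 := (hlev h false hh).2.1 x hx hne.symm (Nat.le_zero.1 (hcon false))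
      simp only [Adj, if_true] at e1
      simp only [Adj] at e2
      exact hT.asym _ _ e1 (by simpa using e2)
    obtain ⟨d, hd⟩ := key
    exact ⟨(h, d, x), by
      rw [hTdef, mem_filter, mem_product, mem_product]
      exact ⟨⟨hh, mem_univ _, hx⟩, hne.symm, hd⟩⟩
  obtain ⟨D, hD1, hD2, hD3⟩ := hn (X := X) (by omega) T hTn hTc
    (fun t D => Okd R k D ∧ Cnd R k D t.2.2 ∧ lev t.1 t.2.1 (yv D) < lev t.1 t.2.1 t.2.2) (by
      intro t ht
      rw [hTdef, mem_filter, mem_product, mem_product] at ht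
      convert (hlev t.1 t.2.1 ht.1.1).2.2 t.2.2 ht.1.2.2 ht.2.1 ht.2.2) F₀ hF M hM1 hM2
  refine ⟨D, ?_, hD2, ?_⟩
  · intro i hi
    obtain ⟨h1, ⟨t, _, h2⟩, h3⟩ := hD1 i hi
    exact ⟨h2.1, supp_subset_of_box h1, h3⟩
  · intro h hh d
    refine ⟨lev h d, (hlev h d hh).1, (hlev h d hh).2.1, ?_⟩
    intro x hx hne hpos
    have := hD3 (h, d, x) (by
      rw [hTdef, mem_filter, mem_product, mem_product]
      exact ⟨⟨hh, mem_univ _, hx⟩, hne, hpos⟩)
    refine lt_of_lt_of_le this (card_le_card ?_)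
    intro i hi
    simp only [mem_filter] at hi ⊢
    exact ⟨hi.1, hi.2.2⟩

theorem card_supps_le (D : ℕ → Dat V) (n : ℕ) : ((range n).biUnion (fun i => supp (D i))).card ≤ 5 * n := by
  refine card_biUnion_le.trans ?_
  refine (sum_le_card_nsmul _ _ 5 (fun i _ => supp_card_le _)).trans ?_
  rw [card_range, smul_eq_mul, mul_comm]

/-- **The three sequences.** -/
theorem seqs {θ : ℝ} (hθ : 0 < θ) (hθ1 : θ ≤ 1) : ∃ J : ℕ, ∀ K₀ : ℕ, ∃ n₁ : ℕ, ∀ {V : Type} {R : V → V → Prop},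
    AE32.Tour R → ∀ X : Finset V, n₁ ≤ X.card → Ex R (θ * X.card) X → ∀ v ∈ X, ∀ M : ℕ, X.card ≤ (M + 1) ^ 8 →
      M ^ 8 ≤ X.card → ∃ D : Kind → ℕ → Dat V,
        (∀ k, ∀ i < 3 * M, Okd R k (D k i) ∧ supp (D k i) ⊆ X ∧ v ∉ supp (D k i)) ∧
        (∀ k k' i i', i < 3 * M → i' < 3 * M → (k, i) ≠ (k', i') → Disjoint (supp (D k i)) (supp (D k' i'))) ∧
        ∀ k, RichS R X k J K₀ M (D k) := by
  obtain ⟨J₁, m₁, δ₁, hδ₁, hcom⟩ := rich_com hθ hθ1
  obtain ⟨m₂, δ₂, hδ₂, hdir⟩ := rich_dir hθ hθ1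
  refine ⟨J₁ + 1, ?_⟩
  intro K₀
  obtain ⟨n₁, h1⟩ := seqs_one (.com true) (J₁ + 1) K₀ hδ₁
  obtain ⟨n₂, h2⟩ := seqs_one (.com false) (J₁ + 1) K₀ hδ₁
  obtain ⟨n₃, h3⟩ := seqs_one .dir (J₁ + 1) K₀ hδ₂
  refine ⟨m₁ + m₂ + n₁ + n₂ + n₃ + 5 ^ 8 + 1, ?_⟩
  intro V R hT X hX hEx v hv M hM1 hM2
  have hM4 : 5 ≤ M := by
    by_contra hcon
    have h4 : M + 1 ≤ 5 := by omega
    have := Nat.pow_le_pow_left h4 8
    omega
  have hnum : (1 + 30 * M) ^ 2 ≤ X.card := by
    refine le_trans ?_ hM2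
    have e1 : 1 + 30 * M ≤ 31 * M := by omega
    have e2 : 961 ≤ M ^ 6 := le_trans (by norm_num) (Nat.pow_le_pow_left hM4 6)
    calc (1 + 30 * M) ^ 2 ≤ (31 * M) ^ 2 := Nat.pow_le_pow_left e1 2
      _ = 961 * M ^ 2 := by ring
      _ ≤ M ^ 6 * M ^ 2 := Nat.mul_le_mul_right _ e2
      _ = M ^ 8 := by ring
  have hsm : ∀ F : Finset V, F.card ≤ 1 + 30 * M → F.card ^ 2 ≤ X.card :=
    fun F hF => (Nat.pow_le_pow_left hF 2).trans hnum
  obtain ⟨D₁, a1, a2, a3⟩ := h1 hT X (by omega) ((hcom hT X (by omega) hEx true).mono (Nat.le_succ _)) {v}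
    (hsm _ (by rw [card_singleton]; omega)) M hM1 hM2
  set F₁ : Finset V := insert v ((range (3 * M)).biUnion (fun i => supp (D₁ i))) with hF₁
  have c1 : F₁.card ≤ 1 + 15 * M := by
    have := card_supps_le D₁ (3 * M)
    have := card_insert_le v ((range (3 * M)).biUnion (fun i => supp (D₁ i)))
    rw [hF₁]
    omega
  obtain ⟨D₂, b1, b2, b3⟩ := h2 hT X (by omega) ((hcom hT X (by omega) hEx false).mono (Nat.le_succ _)) F₁
    (hsm _ (by omega)) M hM1 hM2
  set F₂ : Finset V := F₁ ∪ ((range (3 * M)).biUnion (fun i => supp (D₂ i))) with hF₂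
  have c2 : F₂.card ≤ 1 + 30 * M := by
    have := card_supps_le D₂ (3 * M)
    have := card_union_le F₁ ((range (3 * M)).biUnion (fun i => supp (D₂ i)))
    rw [hF₂]
    omega
  obtain ⟨D₃, d1, d2, d3⟩ := h3 hT X (by omega) ((hdir hT X (by omega) hEx).mono (Nat.le_add_left _ _)) F₂
    (hsm _ c2) M hM1 hM2
  have s1 : ∀ i < 3 * M, supp (D₁ i) ⊆ F₁ := fun i hi =>
    (subset_biUnion_of_mem (fun i => supp (D₁ i)) (mem_range.2 hi)).trans (subset_insert _ _)
  have s2 : ∀ i < 3 * M, supp (D₂ i) ⊆ F₂ := fun i hi =>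
    (subset_biUnion_of_mem (fun i => supp (D₂ i)) (mem_range.2 hi)).trans subset_union_right
  have s3 : F₁ ⊆ F₂ := subset_union_left
  have v1 : v ∈ F₁ := mem_insert_self _ _
  have e12 : ∀ i j, i < 3 * M → j < 3 * M → Disjoint (supp (D₁ i)) (supp (D₂ j)) := fun i j hi hj =>
    ((b1 j hj).2.2.mono_right (s1 i hi)).symm
  have e13 : ∀ i j, i < 3 * M → j < 3 * M → Disjoint (supp (D₁ i)) (supp (D₃ j)) := fun i j hi hj =>
    ((d1 j hj).2.2.mono_right ((s1 i hi).trans s3)).symm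
  have e23 : ∀ i j, i < 3 * M → j < 3 * M → Disjoint (supp (D₂ i)) (supp (D₃ j)) := fun i j hi hj =>
    ((d1 j hj).2.2.mono_right (s2 i hi)).symm
  refine ⟨fun k => match k with
    | .com true => D₁
    | .com false => D₂
    | .dir => D₃, ?_, ?_, ?_⟩
  · intro k i hi
    match k with
    | .com true =>
      obtain ⟨x1, x2, x3⟩ := a1 i hi
      exact ⟨x1, x2, fun h => disjoint_left.1 x3 h (mem_singleton_self _)⟩
    | .com false =>
      obtain ⟨x1, x2, x3⟩ := b1 i hi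
      exact ⟨x1, x2, fun h => disjoint_left.1 x3 h v1⟩
    | .dir =>
      obtain ⟨x1, x2, x3⟩ := d1 i hi
      exact ⟨x1, x2, fun h => disjoint_left.1 x3 h (s3 v1)⟩
  · intro k k' i i' hi hi' hne
    match k, k' with
    | .com true, .com true => exact a2 i hi i' hi' (fun h => hne (by rw [h]))
    | .com true, .com false => exact e12 i i' hi hi'
    | .com true, .dir => exact e13 i i' hi hi'
    | .com false, .com true => exact (e12 i' i hi' hi).symm
    | .com false, .com false => exact b2 i hi i' hi' (fun h => hne (by rw [h]))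
    | .com false, .dir => exact e23 i i' hi hi'
    | .dir, .com true => exact (e13 i' i hi' hi).symm
    | .dir, .com false => exact (e23 i' i hi' hi).symm
    | .dir, .dir => exact d2 i hi i' hi' (fun h => hne (by rw [h]))
  · intro k
    match k with
    | .com true => exact a3
    | .com false => exact b3
    | .dir => exact d3

end AESP
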