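import Pool.Agent.AESP.Defs

/-!
# The reserves
-/

set_option autoImplicit false

namespace AESP

open Finset AE15 AED AELT AEX AESK
open scoped Classical

/-- representative subsets of `X \ W` are representative subsets of `X`, the error being doubled -/
private theorem rep_transfer {V : Type} {X W P : Finset V} {𝓕 : Finset (Finset V)} (_hW : W ⊆ X)
    (hWc : (W.card : ℝ) ≤ er X.card ^ 2 * X.card) (hA : 3 / 4 * (X.card : ℝ) ≤ (X \ W).card) (hX : 0 < X.card)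
    (her : er X.card ≤ 1 / 2) (h𝓕 : ∀ F ∈ 𝓕, F ⊆ X) (h : Rep (X \ W) 𝓕 (er (X \ W).card) P) :
    Rep X 𝓕 (2 * er X.card) P := by
  intro F hF
  have hX0 : (0 : ℝ) < X.card := by exact_mod_cast hX
  have hA0 : (0 : ℝ) < (X \ W).card := by linarith
  have hAn : 0 < (X \ W).card := by exact_mod_cast hA0
  have hAX : ((X \ W).card : ℝ) ≤ X.card := by exact_mod_cast card_le_card sdiff_subset
  have hFX := h𝓕 F hF
  refine le_trans (mul_le_mul_of_nonneg_right ?_ (Nat.cast_nonneg _)) (h F hF)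
  have e1 : ((F ∩ X).card : ℝ) ≤ (F ∩ (X \ W)).card + W.card := by
    have h1 : F ∩ X ⊆ (F ∩ (X \ W)) ∪ W := by
      intro v hv
      rw [mem_inter] at hv
      by_cases hvW : v ∈ W
      · exact mem_union_right _ hvW
      · exact mem_union_left _ (mem_inter.2 ⟨hv.1, mem_sdiff.2 ⟨hv.2, hvW⟩⟩)
    exact_mod_cast (card_le_card h1).trans (card_union_le _ _)
  have e2 : ((F ∩ X).card : ℝ) / X.card ≤ (F ∩ (X \ W)).card / (X \ W).card + er X.card ^ 2 := by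
    calc ((F ∩ X).card : ℝ) / X.card ≤ ((F ∩ (X \ W)).card + W.card) / X.card :=
          div_le_div_of_nonneg_right e1 hX0.le
      _ = (F ∩ (X \ W)).card / (X.card : ℝ) + W.card / X.card := add_div _ _ _
      _ ≤ _ := add_le_add (div_le_div_of_nonneg_left (Nat.cast_nonneg _) hA0 hAX) (by
          rw [div_le_iff₀ hX0]
          exact hWc)
  have e3 : 3 / 4 * er (X \ W).card ≤ er X.card := er_le hAn hX (by norm_num) (by
    have : (3 / 4 : ℝ) ^ 4 * X.card ≤ 3 / 4 * X.card := mul_le_mul_of_nonneg_right (by norm_num) hX0.le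
    linarith)
  have e4 := er_nonneg X.card
  have e5 : er X.card ^ 2 ≤ 1 / 2 * er X.card := by
    rw [sq]
    exact mul_le_mul_of_nonneg_right her e4
  linarith

/-- the test sets are subsets -/
private theorem fam_sub {V : Type} {R : V → V → Prop} {X : Finset V} {ℓ : ℕ} {k : ℝ} : ∀ F ∈ fam R X X ℓ k, F ⊆ X := by
  intro F hF
  rw [fam, mem_union, mem_union, mem_image, mem_image, mem_image] at hF
  rcases hF with (⟨q, _, rfl⟩ | ⟨q, _, rfl⟩) | ⟨q, _, rfl⟩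
  · exact Bk_sub _
  · exact nb_sub.trans (Bk_sub _)
  · exact nb_sub

theorem setup {θ : ℝ} (hθ : 0 < θ) (hθ1 : θ ≤ 1) : ∃ ℓ : ℕ, ∀ ζ : ℝ, 0 < ζ → ζ ≤ 1 / 10 → ∃ n₁ : ℕ,
    ∀ {V : Type} {R : V → V → Prop}, AE32.Tour R → ∀ X : Finset V, n₁ ≤ X.card → Ex R (θ * X.card) X → ∀ W ⊆ X,
      W.card ^ 2 ≤ X.card → ∀ s : ℝ, 0 ≤ s → s ≤ (1 - 5 * ζ) * X.card → ∃ S T Q : Finset V, S ⊆ X \ W ∧ T ⊆ X \ W ∧
        Q ⊆ X \ W ∧ Disjoint S T ∧ Disjoint S Q ∧ Disjoint T Q ∧ s ≤ S.card ∧ (S.card : ℝ) ≤ s + ζ * X.card ∧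
        (1 - 5 * ζ) * X.card - s ≤ T.card ∧ (Q.card : ℝ) ≤ 2 * ζ * X.card ∧
        Str R X S ℓ (θ - 2 * er X.card) (θ / 4 + 2 * er X.card) (θ ^ 2 / 100 - 2 * er X.card) ∧
        Str R X T ℓ (θ - 2 * er X.card) (θ / 4 + 2 * er X.card) (θ ^ 2 / 100 - 2 * er X.card) ∧
        Conn R X Q (ℓ + 1) ⌊θ ^ 2 * ζ / 400 * X.card⌋₊ ∧
        ∀ v ∈ X, ∀ d : Bool, θ ^ 2 * ζ / 400 * X.card ≤ ((nb R d Q v).card : ℝ) := by
  obtain ⟨ℓ, n₀, hpat⟩ := exists_pat hθ hθ1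
  refine ⟨ℓ, fun ζ hζ hζ1 => ?_⟩
  obtain ⟨N, hN⟩ := exists_nat_ge (2 * (3 : ℕ) / ζ + 1)
  have hN1 : (1 : ℝ) ≤ N := by
    have : (0 : ℝ) ≤ 2 * (3 : ℕ) / ζ := by positivity
    linarith
  have hNpos : 0 < N := by
    have : (0 : ℝ) < N := by linarith
    exact_mod_cast this
  have hNm : 2 * ((3 : ℕ) : ℝ) ≤ ζ * N := by
    have h1 : 2 * ((3 : ℕ) : ℝ) / ζ ≤ N := by linarith
    rw [div_le_iff₀ hζ] at h1
    linarith
  obtain ⟨n₂, hn₂0, hn₂⟩ := exists_large N hNpos ζ hζ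
  obtain ⟨n₃, _, hn₃⟩ := er_small (δ := θ ^ 2 / 1000) (by positivity)
  obtain ⟨n₄, hn₄⟩ := exists_nat_ge (1 / (4 * ζ ^ 2))
  obtain ⟨n₅, hn₅⟩ := exists_nat_ge (400 * (ℓ + 2) / (θ ^ 2 * ζ))
  refine ⟨n₀ + 2 * n₂ + n₃ + n₄ + n₅ + 64 * 3 ^ ℓ + 16, ?_⟩
  intro V R hT X hX hE W hWX hW s hs0 hs
  have h3ℓ : 1 ≤ 3 ^ ℓ := Nat.one_le_pow _ _ (by norm_num)
  have hX0 : 0 < X.card := by omega
  have hXr : (0 : ℝ) < X.card := by exact_mod_cast hX0
  obtain ⟨x, hx⟩ : ∃ x : ℝ, x = X.card := ⟨_, rfl⟩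
  rw [← hx] at hXr hs
  have hxn : ∀ k : ℕ, k ≤ n₀ + 2 * n₂ + n₃ + n₄ + n₅ + 64 * 3 ^ ℓ + 16 → (k : ℝ) ≤ x := fun k hk => by
    rw [hx]
    exact_mod_cast hk.trans hX
  have hW' : (W.card : ℝ) ^ 2 ≤ x := by
    rw [hx]
    exact_mod_cast hW
  have hw0 : (0 : ℝ) ≤ W.card := Nat.cast_nonneg _
  -- the deleted set is small
  have hw4 : (W.card : ℝ) ≤ x / 4 := by
    by_contra hcon
    push Not at hcon
    have h16 : (16 : ℝ) ≤ x := by exact_mod_cast hxn 16 (by omega)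
    have h17 : (x / 4) ^ 2 < (W.card : ℝ) ^ 2 := pow_lt_pow_left₀ hcon (by positivity) (by norm_num)
    have h18 : (x / 4) ^ 2 = x * x / 16 := by ring
    have h19 : 16 * x ≤ x * x := mul_le_mul_of_nonneg_right h16 hXr.le
    linarith
  have hwζ : (W.card : ℝ) ≤ 2 * ζ * x := by
    by_contra hcon
    push Not at hcon
    have h4 : 1 / (4 * ζ ^ 2) ≤ x := hn₄.trans (hxn n₄ (by omega))
    rw [div_le_iff₀ (by positivity)] at h4
    have h5 : (2 * ζ * x) ^ 2 < (W.card : ℝ) ^ 2 := pow_lt_pow_left₀ hcon (by positivity) (by norm_num)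
    have h6 : x * (x * (4 * ζ ^ 2)) = (2 * ζ * x) ^ 2 := by ring
    have h7 : x * 1 ≤ x * (x * (4 * ζ ^ 2)) := mul_le_mul_of_nonneg_left h4 hXr.le
    linarith
  obtain ⟨A, hA⟩ : ∃ A : Finset V, A = X \ W := ⟨_, rfl⟩
  have hAX : A ⊆ X := by rw [hA]; exact sdiff_subset
  have hAc : (A.card : ℝ) + W.card = x := by
    rw [hA, hx]
    exact_mod_cast card_sdiff_add_card_eq_card hWX
  obtain ⟨a, ha⟩ : ∃ a : ℝ, a = A.card := ⟨_, rfl⟩
  rw [← ha] at hAc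
  have ha34 : 3 / 4 * x ≤ a := by linarith
  have hax : a ≤ x := by linarith
  have ha0 : 0 < a := by linarith
  have hA0 : 0 < A.card := by
    rw [ha] at ha0
    exact_mod_cast ha0
  have hA2 : X.card ≤ 2 * A.card := by
    have : (X.card : ℝ) ≤ 2 * A.card := by rw [← hx, ← ha]; linarith
    exact_mod_cast this
  -- the structure of the whole set
  have hStr : Str R X X ℓ θ (θ / 4) (θ ^ 2 / 100) :=
    ⟨fun v hv d => deg_of_ex hE (by omega) hv d, fun z hz d w hw => hpat hT X (by omega) hE z hz d w hw.ge⟩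
  obtain ⟨𝓕, h𝓕⟩ : ∃ 𝓕 : Finset (Finset V), 𝓕 = fam R X X ℓ (θ ^ 2 / 100 * X.card) := ⟨_, rfl⟩
  have h𝓕c : 𝓕.card ≤ A.card ^ 5 := by
    rw [h𝓕]
    refine (card_fam X X ℓ _).trans ?_
    have h1 : 32 * 3 ^ ℓ ≤ A.card := by omega
    calc 8 * 3 ^ ℓ * X.card ^ 2 ≤ 8 * 3 ^ ℓ * (2 * A.card) ^ 2 :=
          Nat.mul_le_mul_left _ (Nat.pow_le_pow_left hA2 2)
      _ = 32 * 3 ^ ℓ * A.card ^ 2 := by ring
      _ ≤ A.card * A.card ^ 2 := Nat.mul_le_mul_right _ h1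
      _ = A.card ^ 3 := by ring
      _ ≤ A.card ^ 5 := Nat.pow_le_pow_right hA0 (by norm_num)
  have hT5 : (1 - 5 * ζ) * x ≤ (1 - 3 * ζ) * a := by
    have h1 : a = x - W.card := by linarith
    have h2 : 0 ≤ 3 * ζ * W.card := by positivity
    have h3 : (1 - 3 * ζ) * (x - W.card) = x - 3 * ζ * x - W.card + 3 * ζ * W.card := by ring
    rw [h1, h3]
    linarith
  have hs' : s ≤ (1 - 3 * ζ) * a := hs.trans hT5
  obtain ⟨k1, k2, k3, k4⟩ := hn₂ A.card (by omega)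
  obtain ⟨P, Q, q1, q2, q3, q4, q5, q6, q7, q8, q9⟩ := pieces_aux (er_pos hA0) (er_le_one hA0) hζ hNpos hNm A 𝓕
    k1 h𝓕c k2 k3 k4 3 ![s, ζ * A.card, (1 - 3 * ζ) * A.card - s] le_rfl
    (by
      intro i
      fin_cases i
      · exact hs0
      · show (0 : ℝ) ≤ ζ * A.card
        positivity
      · show (0 : ℝ) ≤ (1 - 3 * ζ) * A.card - s
        rw [← ha]
        linarith)
    (by
      rw [Fin.sum_univ_three]
      show s + ζ * (A.card : ℝ) + ((1 - 3 * ζ) * A.card - s) ≤ (1 - 2 * ζ) * A.card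
      exact le_of_eq (by ring))
  have e0 : s ≤ (P 0).card := q6 0
  have e1 : ζ * (A.card : ℝ) ≤ (P 1).card := q6 1
  have e2 : (1 - 3 * ζ) * (A.card : ℝ) - s ≤ (P 2).card := q6 2
  rw [← ha] at e1 e2 q8
  have hsum : (((P 0).card + (P 1).card + (P 2).card + Q.card : ℕ) : ℝ) ≤ a := by
    have h1 : ((P 0 ∪ P 1) ∪ (P 2 ∪ Q)).card = (P 0).card + (P 1).card + ((P 2).card + Q.card) := by
      rw [card_union_of_disjoint, card_union_of_disjoint (q3 0 1 (by decide)), card_union_of_disjoint (q4 2)]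
      rw [disjoint_union_left, disjoint_union_right, disjoint_union_right]
      exact ⟨⟨q3 0 2 (by decide), q4 0⟩, q3 1 2 (by decide), q4 1⟩
    have h2 : ((P 0 ∪ P 1) ∪ (P 2 ∪ Q)).card ≤ A.card :=
      card_le_card (union_subset (union_subset (q1 0) (q1 1)) (union_subset (q1 2) q5))
    have h3 : (P 0).card + (P 1).card + (P 2).card + Q.card ≤ A.card := by omega
    rw [ha]
    exact_mod_cast h3
  push_cast at hsum
  have hζa : 0 ≤ ζ * a := by positivity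
  have hζx : ζ * a ≤ ζ * x := mul_le_mul_of_nonneg_left hax hζ.le
  -- representativity in the whole set
  have her : er X.card ≤ θ ^ 2 / 1000 := hn₃ X.card (by omega)
  have her0 : 0 ≤ er X.card := er_nonneg _
  have hθ2 : θ ^ 2 ≤ θ := by nlinarith
  have hWs : (W.card : ℝ) ≤ er X.card ^ 2 * X.card := by
    rw [er_sq hX0]
    apply Real.le_sqrt_of_sq_le
    rw [← hx]
    exact hW'
  have hrep : ∀ P' : Finset V, Rep A 𝓕 (er A.card) P' → Rep X (fam R X X ℓ (θ ^ 2 / 100 * X.card)) (2 * er X.card) P' := by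
    intro P' hP'
    rw [h𝓕, hA] at hP'
    exact rep_transfer hWX hWs (by rw [← hA, ← hx, ← ha]; exact ha34) hX0 (by linarith) fam_sub hP'
  have sS := hStr.rep (Subset.refl _) ((q1 0).trans hAX) (hrep _ (q7 0))
  have sQ := hStr.rep (Subset.refl _) ((q1 1).trans hAX) (hrep _ (q7 1))
  have sT := hStr.rep (Subset.refl _) ((q1 2).trans hAX) (hrep _ (q7 2))
  have hP1 : 3 / 4 * (ζ * x) ≤ (P 1).card := by
    have h1 := mul_le_mul_of_nonneg_left ha34 hζ.le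
    linarith
  have hP10 : (0 : ℝ) ≤ (P 1).card := Nat.cast_nonneg _
  have hbig : (ℓ : ℝ) + 2 ≤ θ ^ 2 * ζ / 400 * x := by
    have h5 : 400 * (ℓ + 2) / (θ ^ 2 * ζ) ≤ x := hn₅.trans (hxn n₅ (by omega))
    rw [div_le_iff₀ (by positivity)] at h5
    linarith
  have hfl : (⌊θ ^ 2 * ζ / 400 * x⌋₊ : ℝ) ≤ θ ^ 2 * ζ / 400 * x := Nat.floor_le (by positivity)
  have hconn1 : (⌊θ ^ 2 * ζ / 400 * x⌋₊ : ℝ) + ℓ + 2 ≤ θ ^ 2 / 150 * (P 1).card := by
    have h1 : θ ^ 2 / 150 * (3 / 4 * (ζ * x)) ≤ θ ^ 2 / 150 * (P 1).card := mul_le_mul_of_nonneg_left hP1 (by positivity)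
    have h2 : θ ^ 2 / 150 * (3 / 4 * (ζ * x)) = 2 * (θ ^ 2 * ζ / 400 * x) := by ring
    linarith
  have hsub : ∀ i, P i ⊆ X \ W := fun i => by rw [← hA]; exact q1 i
  refine ⟨P 0, P 2, P 1, hsub 0, hsub 2, hsub 1, q3 0 2 (by decide), q3 0 1 (by decide), q3 2 1 (by decide), e0, ?_, ?_,
    ?_, sS, sT, ?_, ?_⟩
  · rw [← hx]
    linarith
  · rw [← hx]
    linarith
  · rw [← hx]
    linarith
  · rw [← hx]
    refine conn_of_str sQ ((q1 1).trans hAX) ?_ ?_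
    · refine hconn1.trans (mul_le_mul_of_nonneg_right ?_ hP10)
      linarith
    · refine hconn1.trans (mul_le_mul_of_nonneg_right ?_ hP10)
      linarith
  · intro v hv d
    rw [← hx]
    refine le_trans ?_ (sQ.1 v hv d)
    have h1 : θ ^ 2 / 150 * (P 1).card ≤ (θ - 2 * er X.card) * (P 1).card := mul_le_mul_of_nonneg_right (by linarith) hP10
    have h2 : θ ^ 2 / 150 * (3 / 4 * (ζ * x)) ≤ θ ^ 2 / 150 * (P 1).card := mul_le_mul_of_nonneg_left hP1 (by positivity)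
    have h3 : θ ^ 2 / 150 * (3 / 4 * (ζ * x)) = 2 * (θ ^ 2 * ζ / 400 * x) := by ring
    have h4 : 0 ≤ θ ^ 2 * ζ / 400 * x := by positivity
    linarith

end AESP
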