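import Pool.Agent.AESP.SpanNum
import Pool.Agent.AESP.Setup
import Pool.Agent.AESP.Seqs
import Pool.Agent.AESP.Mid
import Pool.Agent.AESP.BB
import Pool.Agent.AESP.Exp2
import Pool.Agent.AESP.Exp3
import Pool.Agent.AESP.Dich
import Pool.Agent.AESP.CaseA
import Pool.Agent.AESP.CaseB

/-!
# Spanning trees in expanding tournaments: the main theorem for coded trees
-/

set_option autoImplicit false

namespace AESP

open Finset AE15 AED AELT AEX AESK
open scoped Classical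

/-- the vertex `v` and all the data -/
noncomputable def sup {V : Type} (v : V) (D : Kind → ℕ → Dat V) (m : ℕ) : Finset V :=
  insert v ((range m).biUnion (fun i => supp (D (.com true) i) ∪ (supp (D (.com false) i) ∪ supp (D .dir i))))

theorem mem_sup_self {V : Type} {v : V} {D : Kind → ℕ → Dat V} {m : ℕ} : v ∈ sup v D m := mem_insert_self _ _

theorem supp_sub_sup {V : Type} {v : V} {D : Kind → ℕ → Dat V} {m : ℕ} (k : Kind) {i : ℕ} (hi : i < m) :
    supp (D k i) ⊆ sup v D m := by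
  intro u hu
  refine mem_insert_of_mem (mem_biUnion.2 ⟨i, mem_range.2 hi, ?_⟩)
  rcases k with (_ | _) | _
  · exact mem_union_right _ (mem_union_left _ hu)
  · exact mem_union_left _ hu
  · exact mem_union_right _ (mem_union_right _ hu)

theorem supp_card {V : Type} (D : Dat V) : (supp D).card ≤ 5 := by
  rw [supp]
  exact card_le_five

theorem card_sup {V : Type} {v : V} {D : Kind → ℕ → Dat V} {m : ℕ} : (sup v D m).card ≤ 15 * m + 1 := by
  rw [sup]
  refine (card_insert_le _ _).trans (Nat.succ_le_succ ?_)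
  refine (card_biUnion_le_card_mul _ _ 15 ?_).trans (by rw [card_range, mul_comm])
  intro i _
  refine (card_union_le _ _).trans ?_
  have h1 := card_union_le (supp (D (.com false) i)) (supp (D .dir i))
  have h2 := supp_card (D (.com true) i)
  have h3 := supp_card (D (.com false) i)
  have h4 := supp_card (D .dir i)
  omega

theorem sup_sub {V : Type} {v : V} {D : Kind → ℕ → Dat V} {m : ℕ} {X : Finset V} (hv : v ∈ X)
    (hD : ∀ k, ∀ i < m, supp (D k i) ⊆ X) : sup v D m ⊆ X := by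
  intro u hu
  rw [sup, mem_insert, mem_biUnion] at hu
  rcases hu with rfl | ⟨i, hi, hu⟩
  · exact hv
  · rw [mem_range] at hi
    rw [mem_union, mem_union] at hu
    rcases hu with h | h | h
    · exact hD _ i hi h
    · exact hD _ i hi h
    · exact hD _ i hi h

theorem span (b : ℕ) (hb : 1 ≤ b) {θ : ℝ} (hθ : 0 < θ) (hθ1 : θ ≤ 1) : ∃ n₀ : ℕ, ∀ {V : Type} {R : V → V → Prop},
    AE32.Tour R → ∀ X : Finset V, n₀ ≤ X.card → Ex R (θ * X.card) X → ∀ v ∈ X, ∀ c : Fd, c.len ≤ b → c.Deg b →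
      c.size + 1 = X.card → Emb R c v (X.erase v) := by
  have hb' : (1 : ℝ) ≤ b := by exact_mod_cast hb
  have hbb' : (1 : ℝ) ≤ (b : ℝ) ^ 2 := one_le_pow₀ hb'
  have hθ2 : θ ^ 2 ≤ 1 := pow_le_one₀ hθ.le hθ1
  obtain ⟨ℓ, hset⟩ := setup hθ hθ1
  obtain ⟨J, hseq⟩ := seqs hθ hθ1
  obtain ⟨K₀, C₀, hmid⟩ := mid b hb hθ hθ1 ℓ J
  obtain ⟨ns, hseq⟩ := hseq K₀
  obtain ⟨Ca, hbb⟩ := bb b hb hθ hθ1 ℓ
  obtain ⟨K₁, hx1⟩ := xp_large b (ℓ + 1) hb
  obtain ⟨K₂, hx2⟩ := xp_path b (ℓ + 1) hb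
  obtain ⟨nd, hdich⟩ := dich b hb (show (0 : ℝ) < θ ^ 2 / 64000 by positivity) (by linarith)
  obtain ⟨η, hη⟩ : ∃ η : ℝ, η = 1 / (40 * (b : ℝ) ^ 2) := ⟨_, rfl⟩
  have hη0 : 0 < η := by rw [hη]; positivity
  have hη1 : η ≤ 1 / 40 := by
    rw [hη]
    exact div_le_div_of_nonneg_left (by norm_num) (by norm_num) (by linarith)
  have hηb : η * (b : ℝ) ^ 2 = 1 / 40 := by
    rw [hη]
    field_simp
  have hηb' : η * b ≤ 1 / 40 := by
    rw [← hηb]
    nlinarith [mul_le_mul_of_nonneg_left hb' (by positivity : (0 : ℝ) ≤ η * b)]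
  obtain ⟨nA, hsetA⟩ := hset (η / 16) (by positivity) (by linarith)
  obtain ⟨nB, hsetB⟩ := hset (1 / 10) (by norm_num) (by norm_num)
  obtain ⟨nn, hnum⟩ := span_nums b ℓ K₁ K₂ C₀ Ca hb hθ hθ1
  refine ⟨nn + ns + nd + nA + nB + 20, ?_⟩
  intro V R hT X hX hEx v hv c hc1 hc2 hN
  obtain ⟨M, hM1, hM2⟩ := exists_root8 X.card
  obtain ⟨g1, g2, g3, g4, g5, g6, g7, g8⟩ := hnum X.card M (by omega) hM1
  rw [← hη] at g5 g6
  obtain ⟨D, hD1, hD2, hD3⟩ := hseq hT X (by omega) hEx v hv M hM2 hM1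
  have hNr : ((c.size : ℕ) : ℝ) = (X.card : ℝ) - 1 := by
    rw [← hN]
    push_cast
    ring
  have hN20 : (20 : ℝ) ≤ X.card := by
    have : 20 ≤ X.card := by omega
    exact_mod_cast this
  have hWX : sup v D (3 * M) ⊆ X := sup_sub hv (fun k i hi => (hD1 k i hi).2.1)
  have hWc : (sup v D (3 * M)).card ^ 2 ≤ X.card :=
    le_trans (Nat.pow_le_pow_left ((card_sup).trans (by omega)) 2) g4
  have hdj : ∀ {T : Finset V}, T ⊆ X \ sup v D (3 * M) → T ⊆ X ∧ v ∉ T ∧ ∀ k, ∀ i < 3 * M, Disjoint (supp (D k i)) T := by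
    intro T hT
    refine ⟨fun u hu => (mem_sdiff.1 (hT hu)).1, fun hu => (mem_sdiff.1 (hT hu)).2 mem_sup_self, fun k i hi => ?_⟩
    rw [disjoint_left]
    intro u hu hu'
    exact (mem_sdiff.1 (hT hu')).2 (supp_sub_sup k hi hu)
  obtain ⟨m₂, hm₂⟩ : ∃ m₂ : ℕ, m₂ = ⌊η * X.card⌋₊ := ⟨_, rfl⟩
  have hm₂1 : (m₂ : ℝ) ≤ η * X.card := by
    rw [hm₂]
    exact Nat.floor_le (by positivity)
  have hm₂2 : η * X.card < m₂ + 1 := by
    rw [hm₂]
    exact Nat.lt_floor_add_one _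
  rcases hdich c (K₂ * (3 * M + 1) + 1) (Nat.sqrt X.card) m₂ hc1 hc2 (by omega) (by omega)
    (Nat.sqrt_pos.2 (by omega)) (by rw [hNr]; exact g2) (by
      rw [hNr]
      have h1 : 4 * (b : ℝ) ^ 2 * m₂ ≤ 4 * (b : ℝ) ^ 2 * (η * X.card) := mul_le_mul_of_nonneg_left hm₂1 (by positivity)
      have h2 : 4 * (b : ℝ) ^ 2 * (η * X.card) = 4 * (η * (b : ℝ) ^ 2) * X.card := by ring
      rw [h2, hηb] at h1
      linarith) with ⟨l, q, f1, f2, f3⟩ | ⟨c', p₁, p₂, f1, f2, f3, f4, f5, f6, f7, f8, f9, f10, f11, f12⟩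
  · -- case B
    obtain ⟨S, T, Q, s1, s2, s3, s4, s5, s6, s7, s8, s9, s10, s11, s12, s13, s14⟩ :=
      hsetB hT X (by omega) hEx _ hWX hWc 0 le_rfl (by positivity)
    obtain ⟨t1, t2, t3⟩ := hdj s2
    obtain ⟨q1, q2, q3⟩ := hdj s3
    rw [hNr] at f3
    have hpz : (4 : ℝ) * psz l ≤ θ ^ 2 / 16000 * X.card := by
      have : θ ^ 2 / 64000 * ((X.card : ℝ) - 1) ≤ θ ^ 2 / 64000 * X.card :=
        mul_le_mul_of_nonneg_left (by linarith) (by positivity)
      have e : θ ^ 2 / 16000 * (X.card : ℝ) = 4 * (θ ^ 2 / 64000 * X.card) := by ring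
      rw [e]
      linarith
    refine case_b (fun {V} {R} hT => hmid hT) hx2 hT hv (fun k i hi => ⟨(hD1 k i hi).1, (hD1 k i hi).2.1, (hD1 k i hi).2.2, t3 k i hi, q3 k i hi⟩)
      hD2 hD3 t1 q1 s6 t2 q2 s12 s13 ?_ hN hc1 hc2 f1 f2 ?_ ?_ ?_
    · intro u hu d
      have := s14 u hu d
      have h2 := Nat.floor_le_floor this
      rwa [Nat.floor_natCast] at h2
    · refine Nat.le_floor ?_
      have e : ((b + 4 * psz l + 2 * (3 * M * (K₂ * (Nat.log 2 X.card + 1) + ℓ + 7)) + K₂ * (Nat.log 2 X.card + 1) + 2 * ℓ +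
          50 : ℕ) : ℝ) = ((b + 2 * (3 * M * (K₂ * (Nat.log 2 X.card + 1) + ℓ + 7)) + K₂ * (Nat.log 2 X.card + 1) + 2 * ℓ +
          50 : ℕ) : ℝ) + 4 * psz l := by
        push_cast
        ring
      rw [e]
      have e2 : θ ^ 2 * (1 / 10) / 400 * (X.card : ℝ) = 4 * (θ ^ 2 / 16000 * X.card) := by ring
      rw [e2]
      have e3 : 0 ≤ θ ^ 2 / 16000 * (X.card : ℝ) := by positivity
      linarith
    · have h1 := spine_size f1
      have h2 : (c.size : ℝ) + 1 = q.2.size + 1 + psz l := by exact_mod_cast h1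
      have h3 : (C₀ : ℝ) ≤ q.2.size := by
        have e1 : θ ^ 2 / 64000 * ((X.card : ℝ) - 1) ≤ 1 / 64000 * ((X.card : ℝ) - 1) :=
          mul_le_mul_of_nonneg_right (by linarith) (by linarith)
        have e2 : η * (X.card : ℝ) ≤ 1 / 40 * X.card := mul_le_mul_of_nonneg_right hη1 (by positivity)
        linarith
      exact_mod_cast h3
    · have := s9
      linarith
  · -- case A
    have hp2r : ((p₂.2.size + 1 : ℕ) : ℝ) ≤ 1 / 40 * X.card + 1 := by
      have h1 : ((p₂.2.size + 1 : ℕ) : ℝ) ≤ b * m₂ + 1 := by exact_mod_cast f11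
      have h2 : (b : ℝ) * m₂ ≤ b * (η * X.card) := mul_le_mul_of_nonneg_left hm₂1 (by positivity)
      have h3 : (b : ℝ) * (η * X.card) = (η * b) * X.card := by ring
      have h4 : (η * b) * (X.card : ℝ) ≤ 1 / 40 * X.card := mul_le_mul_of_nonneg_right hηb' (by positivity)
      linarith
    have hp2l : η * X.card < ((p₂.2.size + 1 : ℕ) : ℝ) := by
      have h1 : (m₂ : ℝ) + 1 ≤ ((p₂.2.size + 1 : ℕ) : ℝ) := by
        have : m₂ + 1 ≤ p₂.2.size + 1 := f10
        exact_mod_cast this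
      linarith
    have hηN : η * (X.card : ℝ) ≤ 1 / 40 * X.card := mul_le_mul_of_nonneg_right hη1 (by positivity)
    obtain ⟨S, T, Q, s1, s2, s3, s4, s5, s6, s7, s8, s9, s10, s11, s12, s13, s14⟩ :=
      hsetA hT X (by omega) hEx _ hWX hWc (((p₂.2.size + 1 : ℕ) : ℝ) / 2) (by positivity) (by
        have e : (1 - 5 * (η / 16)) * (X.card : ℝ) = X.card - 5 / 16 * (η * X.card) := by ring
        rw [e]
        linarith)
    obtain ⟨r1, r2, r3⟩ := hdj s1
    obtain ⟨t1, t2, t3⟩ := hdj s2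
    obtain ⟨q1, q2, q3⟩ := hdj s3
    have hlog : Nat.log 2 p₁.2.size ≤ Nat.log 2 X.card := Nat.log_mono_right (by omega)
    obtain ⟨fin, hfin⟩ := hx1 (3 * M) p₁ f4 f5 (by
      refine le_trans (Nat.mul_le_mul_left _ (Nat.succ_le_succ hlog)) (g3.trans ?_)
      omega)
    have hs8 : (S.card : ℝ) + Q.card ≤ ((p₂.2.size + 1 : ℕ) : ℝ) := by
      have e1 : η / 16 * (X.card : ℝ) = 1 / 16 * (η * X.card) := by ring
      have e2 : 2 * (η / 16) * (X.card : ℝ) = 1 / 8 * (η * X.card) := by ring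
      rw [e1] at s8
      rw [e2] at s10
      linarith
    refine case_a (ζ := 0) (fun {V} {R} hT => hbb hT) (fun {V} {R} hT => hmid hT) hT hv (fun k i hi => ⟨(hD1 k i hi).1,
      (hD1 k i hi).2.1, (hD1 k i hi).2.2, r3 k i hi, t3 k i hi, q3 k i hi⟩) hD2 hD3 r1 t1 q1 s4 s5 s6 r2 t2 q2 s11 s12 s13
      ?_ hN f1 f2 f3 f4 f5 f6 f7 f12 hfin ?_ ?_ ?_ ?_ ?_
    · intro u hu d
      have := s14 u hu d
      have h2 := Nat.floor_le_floor this
      rwa [Nat.floor_natCast] at h2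
    · refine Nat.le_floor (le_trans ?_ g5)
      have e1 : 4 * (p₁.2.size + 1) ≤ 4 * (b * Nat.sqrt X.card + 1) := Nat.mul_le_mul_left _ f9
      have e2 : K₁ * (Nat.log 2 p₁.2.size + 1) ≤ K₁ * (Nat.log 2 X.card + 1) := Nat.mul_le_mul_left _ (Nat.succ_le_succ hlog)
      have e3 : 3 * M * (K₁ * (Nat.log 2 p₁.2.size + 1) + ℓ + 7) ≤ 3 * M * (K₁ * (Nat.log 2 X.card + 1) + ℓ + 7) :=
        Nat.mul_le_mul_left _ (by omega)
      have e4 : 4 * (p₁.2.size + 1) + 2 * (3 * M * (K₁ * (Nat.log 2 p₁.2.size + 1) + ℓ + 7)) +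
          K₁ * (Nat.log 2 p₁.2.size + 1) + 2 * ℓ + 52 ≤ 4 * (b * Nat.sqrt X.card + 1) +
          2 * (3 * M * (K₁ * (Nat.log 2 X.card + 1) + ℓ + 7)) + K₁ * (Nat.log 2 X.card + 1) + 2 * ℓ + 52 := by omega
      exact_mod_cast e4
    · have h3 : (C₀ : ℝ) ≤ p₂.2.size := by
        push_cast at hp2l
        linarith
      exact_mod_cast h3
    · refine le_trans ?_ s7
      push_cast
      have : (0 : ℝ) ≤ (p₂.2.size : ℝ) := Nat.cast_nonneg _
      linarith
    · refine le_trans ?_ s9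
      have e : (1 - 5 * (η / 16)) * (X.card : ℝ) = X.card - 5 / 16 * (η * X.card) := by ring
      rw [e]
      linarith
    · have h5 : S.card + Q.card ≤ p₂.2.size + 1 := by exact_mod_cast hs8
      omega

end AESP
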