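import Pool.Agent.AESP.Num
import Pool.Agent.AESP.Defs

/-!
# Spanning trees in expanding tournaments: the numbers of the assembly
-/

set_option autoImplicit false

namespace AESP

open Finset AE15 AED AELT AEX AESK
open scoped Classical

theorem log_part (K ℓ A M g s : ℕ) (hA : 7 * K + 6 * ℓ + 42 ≤ A) (hg : 1 ≤ g) (h : A * (M + 1) * g ≤ s) :
    2 * (3 * M * (K * g + ℓ + 7)) + K * g ≤ s := by
  have h1 : (7 * K + 6 * ℓ + 42) * (M + 1) * g ≤ A * (M + 1) * g :=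
    Nat.mul_le_mul_right _ (Nat.mul_le_mul_right _ hA)
  have h2 : M * 1 ≤ M * g := Nat.mul_le_mul_left _ hg
  have h3 : (6 * ℓ + 42) * (M * 1) ≤ (6 * ℓ + 42) * (M * g) := Nat.mul_le_mul_left _ h2
  have h4 : (7 * K + 6 * ℓ + 42) * (M + 1) * g = 6 * (M * (K * g)) + (6 * ℓ + 42) * (M * g) + M * (K * g) + (6 * (K * g)) +
      K * g + (6 * ℓ + 42) * g := by ring
  have h5 : 2 * (3 * M * (K * g + ℓ + 7)) + K * g = 6 * (M * (K * g)) + (6 * ℓ + 42) * (M * 1) + K * g := by ring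
  omega

theorem span_nums (b ℓ K₁ K₂ C₀ Ca : ℕ) (hb : 1 ≤ b) {θ : ℝ} (hθ : 0 < θ) (hθ1 : θ ≤ 1) : ∃ n₀ : ℕ, ∀ N M : ℕ, n₀ ≤ N →
    M ^ 8 ≤ N → 2 ≤ N ∧
      (((K₂ * (3 * M + 1) + 1 : ℕ) : ℝ) * (b ^ 2 * ((Nat.sqrt N : ℕ) + 2)) : ℝ) ≤ θ ^ 2 / 64000 / 8 * ((N : ℝ) - 1) ∧
      K₁ * (3 * M + 1) * (Nat.log 2 N + 1) ≤ Nat.sqrt N ∧ (45 * M + 1) ^ 2 ≤ N ∧
      ((4 * (b * Nat.sqrt N + 1) + 2 * (3 * M * (K₁ * (Nat.log 2 N + 1) + ℓ + 7)) + K₁ * (Nat.log 2 N + 1) + 2 * ℓ + 52 :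
        ℕ) : ℝ) ≤ θ ^ 2 * (1 / (40 * (b : ℝ) ^ 2) / 16) / 400 * N ∧
      (C₀ : ℝ) + 1 ≤ 1 / (40 * (b : ℝ) ^ 2) * N ∧ 45 * M + 1 + Ca ≤ Nat.sqrt N ∧
      ((b + 2 * (3 * M * (K₂ * (Nat.log 2 N + 1) + ℓ + 7)) + K₂ * (Nat.log 2 N + 1) + 2 * ℓ + 50 : ℕ) : ℝ) ≤
        θ ^ 2 / 16000 * N := by
  have hb' : (1 : ℝ) ≤ b := by exact_mod_cast hb
  have hbb : (1 : ℝ) ≤ (b : ℝ) ^ 2 := one_le_pow₀ hb'
  obtain ⟨A, hA⟩ : ∃ A : ℕ, A = 7 * K₁ + 7 * K₂ + 6 * ℓ + 200 + Ca + C₀ + 4 * b + b ^ 2 := ⟨_, rfl⟩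
  obtain ⟨δ, hδ⟩ : ∃ δ : ℝ, δ = θ ^ 2 / (1024000 * (b : ℝ) ^ 2) := ⟨_, rfl⟩
  have hδ0 : 0 < δ := by rw [hδ]; positivity
  have hθ2 : θ ^ 2 ≤ 1 := pow_le_one₀ hθ.le hθ1
  have hδ1 : δ ≤ θ ^ 2 / 1024000 := by
    rw [hδ]
    exact div_le_div_of_nonneg_left (by positivity) (by norm_num) (by nlinarith)
  have hδ2 : δ ≤ θ ^ 2 * (1 / (40 * (b : ℝ) ^ 2) / 16) / 400 := by
    rw [hδ, div_le_iff₀ (by positivity)]
    have : θ ^ 2 * (1 / (40 * (b : ℝ) ^ 2) / 16) / 400 * (1024000 * (b : ℝ) ^ 2) = 4 * θ ^ 2 := by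
      field_simp
      norm_num
    rw [this]
    nlinarith [sq_nonneg θ]
  have hδ3 : δ ≤ 1 / (40 * (b : ℝ) ^ 2) := by
    rw [hδ, div_le_div_iff₀ (by positivity) (by positivity)]
    nlinarith [sq_nonneg θ]
  obtain ⟨n₀, hn⟩ := num_a A hδ0
  refine ⟨n₀ + 2, ?_⟩
  intro N M hN hM
  obtain ⟨h1, h2, h3, h4⟩ := hn N M (by omega) hM
  have hN2 : 2 ≤ N := by omega
  have hN2' : (2 : ℝ) ≤ N := by exact_mod_cast hN2
  obtain ⟨s, hs⟩ : ∃ s, s = Nat.sqrt N := ⟨_, rfl⟩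
  obtain ⟨g, hg⟩ : ∃ g, g = Nat.log 2 N + 1 := ⟨_, rfl⟩
  rw [← hs, ← hg] at h1
  rw [← hs] at h2 h4
  rw [← hs, ← hg]
  have hg1 : 1 ≤ g := by omega
  have hAM : A * (M + 1) ≤ s := (Nat.le_mul_of_pos_right _ hg1).trans h1
  have hA0 : 1 ≤ A := by omega
  have hs' : (0 : ℝ) ≤ s := Nat.cast_nonneg _
  refine ⟨hN2, ?_, ?_, ?_, ?_, ?_, ?_, ?_⟩
  · have e1 : K₂ * (3 * M + 1) + 1 ≤ A * (M + 1) := by
      have : K₂ * (3 * M + 1) + 1 ≤ (3 * K₂ + 1) * (M + 1) := by nlinarith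
      exact this.trans (Nat.mul_le_mul_right _ (by omega))
    have e2 : b ^ 2 * (s + 2) ≤ A * (s + 2) := Nat.mul_le_mul_right _ (by omega)
    have e3 : ((K₂ * (3 * M + 1) + 1 : ℕ) : ℝ) * ((b : ℝ) ^ 2 * ((s : ℝ) + 2)) ≤
        ((A * (M + 1) : ℕ) : ℝ) * ((A : ℝ) * ((s : ℝ) + 2)) := by
      have := Nat.mul_le_mul e1 e2
      exact_mod_cast this
    refine e3.trans (h4.trans ?_)
    have e4 : δ * N ≤ θ ^ 2 / 1024000 * N := mul_le_mul_of_nonneg_right hδ1 (by positivity)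
    have e5 : θ ^ 2 / 64000 / 8 * ((N : ℝ) - 1) = θ ^ 2 / 512000 * ((N : ℝ) - 1) := by ring
    rw [e5]
    have e6 : 0 ≤ θ ^ 2 / 1024000 * ((N : ℝ) - 2) := mul_nonneg (by positivity) (by linarith)
    nlinarith
  · have e1 : K₁ * (3 * M + 1) ≤ A * (M + 1) := by
      have : K₁ * (3 * M + 1) ≤ (3 * K₁) * (M + 1) := by nlinarith
      exact this.trans (Nat.mul_le_mul_right _ (by omega))
    exact (Nat.mul_le_mul_right _ e1).trans h1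
  · refine le_trans (Nat.pow_le_pow_left ?_ 2) h3
    have : 45 * M ≤ A * M := Nat.mul_le_mul_right _ (by omega)
    omega
  · have e1 := log_part K₁ ℓ A M g s (by omega) hg1 h1
    have e2 : (4 * b + 1) * s ≤ A * s := Nat.mul_le_mul_right _ (by omega)
    have e3 : 4 * (b * s + 1) + 2 * (3 * M * (K₁ * g + ℓ + 7)) + K₁ * g + 2 * ℓ + 52 ≤ A * s + A := by
      have : (4 * b + 1) * s = 4 * (b * s) + s := by ring
      omega
    have e4 : ((4 * (b * s + 1) + 2 * (3 * M * (K₁ * g + ℓ + 7)) + K₁ * g + 2 * ℓ + 52 : ℕ) : ℝ) ≤ A * s + A := by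
      exact_mod_cast e3
    refine e4.trans (h2.trans ?_)
    exact mul_le_mul_of_nonneg_right hδ2 (by positivity)
  · have e1 : (C₀ : ℝ) + 1 ≤ A := by
      have : C₀ + 1 ≤ A := by omega
      exact_mod_cast this
    have e2 : (A : ℝ) ≤ A * s + A := by
      have : (0 : ℝ) ≤ A * s := by positivity
      linarith
    exact e1.trans (e2.trans (h2.trans (mul_le_mul_of_nonneg_right hδ3 (by positivity))))
  · refine le_trans ?_ hAM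
    have : 45 * M ≤ A * M := Nat.mul_le_mul_right _ (by omega)
    have h5 : A * (M + 1) = A * M + A := by ring
    omega
  · have e1 := log_part K₂ ℓ A M g s (by omega) hg1 h1
    have e3 : b + 2 * (3 * M * (K₂ * g + ℓ + 7)) + K₂ * g + 2 * ℓ + 50 ≤ A * s + A := by
      have : 1 * s ≤ A * s := Nat.mul_le_mul_right _ hA0
      omega
    have e4 : ((b + 2 * (3 * M * (K₂ * g + ℓ + 7)) + K₂ * g + 2 * ℓ + 50 : ℕ) : ℝ) ≤ A * s + A := by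
      exact_mod_cast e3
    refine e4.trans (h2.trans ?_)
    refine mul_le_mul_of_nonneg_right (hδ1.trans ?_) (by positivity)
    exact div_le_div_of_nonneg_left (by positivity) (by norm_num) (by norm_num)

end AESP
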